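import Pool.Agent.Helper69.QB.Beta

/-!
Project BN: the optimum of the linear program is attained (the monoid of the solutions is finitely
generated, Dickson's lemma).
-/

set_option autoImplicit false

namespace Pool.Agent.Helper53.BN

open Pool.Agent.Helper69.WV Pool.Agent.Helper69.QB

/-- The monoid of the solutions. -/
def sol (k l : ℕ) : AddSubmonoid ((k.Partition → ℕ) × (l.Partition → ℕ)) where
  carrier := {p | (∀ a : k.Partition, Multiset.card a.parts ≤ 1 → p.1 a = 0) ∧
    ∑ a, p.1 a • weights a = ∑ q : l.Partition, p.2 q • q.parts}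
  zero_mem' := by
    refine ⟨fun a _ => rfl, ?_⟩
    simp
  add_mem' := by
    rintro p q ⟨hp1, hp2⟩ ⟨hq1, hq2⟩
    refine ⟨fun a ha => ?_, ?_⟩
    · rw [Prod.fst_add, Pi.add_apply, hp1 a ha, hq1 a ha]
    · simp only [Prod.fst_add, Prod.snd_add, Pi.add_apply, add_smul, Finset.sum_add_distrib]
      rw [hp2, hq2]

theorem mem_sol {k l : ℕ} {p : (k.Partition → ℕ) × (l.Partition → ℕ)} :
    p ∈ sol k l ↔ (∀ a : k.Partition, Multiset.card a.parts ≤ 1 → p.1 a = 0) ∧
      ∑ a, p.1 a • weights a = ∑ q : l.Partition, p.2 q • q.parts := Iff.rfl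

theorem sol_fg (k l : ℕ) : (sol k l).FG := by
  apply AddSubmonoid.fg_of_subtractive
  rintro x ⟨hx1, hx2⟩ y ⟨hy1, hy2⟩
  refine ⟨fun a ha => ?_, ?_⟩
  · have h1 := hy1 a ha
    rw [Prod.fst_add, Pi.add_apply] at h1
    omega
  · simp only [Prod.fst_add, Prod.snd_add, Pi.add_apply, add_smul, Finset.sum_add_distrib] at hy2
    rw [hx2] at hy2
    exact add_left_cancel hy2

theorem sol_zero {k l : ℕ} (hk : 2 ≤ k) {p : (k.Partition → ℕ) × (l.Partition → ℕ)}
    (hp : p ∈ sol k l) (h : ∑ q, p.2 q = 0) : ∑ a, p.1 a = 0 := by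
  obtain ⟨h1, h2⟩ := hp
  have h3 : ∀ q, p.2 q = 0 := fun q => by
    have := (Finset.sum_eq_zero_iff.1 h) q (Finset.mem_univ q)
    exact this
  have h4 : ∑ a, p.1 a • weights a = 0 := by
    rw [h2]
    refine Finset.sum_eq_zero fun q _ => ?_
    rw [h3 q, zero_smul]
  refine Finset.sum_eq_zero fun a _ => ?_
  by_cases ha : Multiset.card a.parts ≤ 1
  · exact h1 a ha
  · have h5 := (Finset.sum_eq_zero_iff.1 h4) a (Finset.mem_univ a)
    by_contra h6
    have h7 := weights_sum_ge a (by omega)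
    have h8 : weights a = 0 := by
      have h9 : weights a ≤ p.1 a • weights a := by
        obtain ⟨n, hn⟩ := Nat.exists_eq_succ_of_ne_zero h6
        rw [hn, succ_nsmul]
        exact Multiset.le_add_left _ _
      rw [h5] at h9
      exact Multiset.le_zero.1 h9
    rw [h8, Multiset.sum_zero] at h7
    omega

/-- The optimum is attained. -/
theorem beta_attained (k l : ℕ) (hk : 2 ≤ k) :
    ∃ (z : k.Partition → ℕ) (y : l.Partition → ℕ), Feasible k l z y ∧
      ((∑ a, z a : ℕ) : ℝ) = beta k l * ((∑ p, y p : ℕ) : ℝ) := by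
  classical
  obtain ⟨F, hF⟩ := sol_fg k l
  have hFs : ∀ g ∈ F, g ∈ sol k l := fun g hg => by
    rw [← hF]
    exact AddSubmonoid.subset_closure hg
  set F' := F.filter (fun g => 0 < ∑ q, g.2 q) with hF'
  have hfeas : ∀ g ∈ F', Feasible k l g.1 g.2 := by
    intro g hg
    rw [hF', Finset.mem_filter] at hg
    obtain ⟨h1, h2⟩ := hFs g hg.1
    exact ⟨h1, hg.2, h2⟩
  -- a generator which is not zero
  have hne : F'.Nonempty := by
    by_contra hcon
    rw [Finset.not_nonempty_iff_eq_empty] at hcon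
    obtain ⟨z, y, hzy, -, -⟩ := feasible_min k l hk
    have h1 : (z, y) ∈ AddSubmonoid.closure (F : Set ((k.Partition → ℕ) × (l.Partition → ℕ))) := by
      rw [hF]
      exact ⟨hzy.1, hzy.2.2⟩
    have h2 : ∀ p ∈ AddSubmonoid.closure (F : Set ((k.Partition → ℕ) × (l.Partition → ℕ))),
        ∑ q, p.2 q = 0 := by
      intro p hp
      induction hp using AddSubmonoid.closure_induction with
      | mem g hg =>
        by_contra h3
        have h4 : g ∈ F' := by
          rw [hF', Finset.mem_filter]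
          exact ⟨hg, Nat.pos_of_ne_zero h3⟩
        rw [hcon] at h4
        exact absurd h4 (Finset.notMem_empty g)
      | zero => simp
      | add p q _ _ h3 h4 =>
        simp only [Prod.snd_add, Pi.add_apply, Finset.sum_add_distrib]
        omega
    have h3 := hzy.2.1
    have h4 := h2 _ h1
    simp only at h4
    omega
  obtain ⟨g, hg, hmax⟩ := F'.exists_max_image
    (fun g => ((∑ a, g.1 a : ℕ) : ℝ) / ((∑ q, g.2 q : ℕ) : ℝ)) hne
  set ρ : ℝ := ((∑ a, g.1 a : ℕ) : ℝ) / ((∑ q, g.2 q : ℕ) : ℝ) with hρ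
  have hρ0 : 0 ≤ ρ := by positivity
  have hgf := hfeas g hg
  have hall : ∀ p ∈ sol k l, ((∑ a, p.1 a : ℕ) : ℝ) ≤ ρ * ((∑ q, p.2 q : ℕ) : ℝ) := by
    intro p hp
    rw [← hF] at hp
    induction hp using AddSubmonoid.closure_induction with
    | mem x hx =>
      by_cases h3 : ∑ q, x.2 q = 0
      · rw [sol_zero hk (hFs x hx) h3, h3]
        simp
      · have h4 : x ∈ F' := by
          rw [hF', Finset.mem_filter]
          exact ⟨hx, Nat.pos_of_ne_zero h3⟩
        have h5 := hmax x h4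
        have h6 : (0 : ℝ) < ((∑ q, x.2 q : ℕ) : ℝ) := by
          exact_mod_cast Nat.pos_of_ne_zero h3
        rwa [div_le_iff₀ h6] at h5
    | zero => simp
    | add p q _ _ h3 h4 =>
      simp only [Prod.fst_add, Prod.snd_add, Pi.add_apply, Finset.sum_add_distrib]
      push_cast at h3 h4 ⊢
      linarith
  have hβ : beta k l = ρ := by
    unfold beta
    apply le_antisymm
    · refine csSup_le ⟨ρ, g.1, g.2, hgf, rfl⟩ ?_
      rintro x ⟨z, y, hzy, rfl⟩
      have h1 : (0 : ℝ) < ((∑ q, y q : ℕ) : ℝ) := by exact_mod_cast hzy.2.1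
      rw [div_le_iff₀ h1]
      exact hall (z, y) ⟨hzy.1, hzy.2.2⟩
    · exact le_csSup (bddAbove_feasible k l hk) ⟨g.1, g.2, hgf, rfl⟩
  refine ⟨g.1, g.2, hgf, ?_⟩
  have h1 : (0 : ℝ) < ((∑ q, g.2 q : ℕ) : ℝ) := by exact_mod_cast hgf.2.1
  rw [hβ, hρ, div_mul_cancel₀ _ h1.ne']

end Pool.Agent.Helper53.BN
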