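import Pool.Agent.Helper53.BN.Glue

/-!
Project BN: filling the groups, with at most one additional point.

`fillC`: `glueC` on `V ⊕ Fin s` with the index type `Option I`; `none` stands for the given
design (`e = Sum.inl`), `some i` for the design on `{x // γ x = i} ⊕ Fin s`
(`e = Sum.map Subtype.val id`). A pair of points of `V` in different groups lies only in `none`, a
pair of points of the group `i`, and a pair of a point of the group `i` and the additional point,
only in `some i`; there is no pair of two additional points since `s ≤ 1`. Compare
`Helper69/WV/Fill.lean` (`fill0`, `fill1`). The sum over `Option I` is `Fintype.sum_option`.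
-/

set_option autoImplicit false

namespace Pool.Agent.Helper53.BN

open Pool.Agent.Helper69.WV

theorem fillC {k l c₀ s : ℕ} (hs : s ≤ 1) {V I : Type} [Fintype I] {γ : V → I}
    (h : DC k l c₀ γ) (c : I → ℕ)
    (hc : ∀ i, DC k l (c i) (id : {x // γ x = i} ⊕ Fin s → {x // γ x = i} ⊕ Fin s)) :
    DC k l (c₀ + ∑ i, c i) (id : V ⊕ Fin s → V ⊕ Fin s) := by
  have hsub : ∀ t t' : Fin s, t = t' := fun t t' => Fin.ext (by have := t.2; have := t'.2; omega)
  have hinj : ∀ i : I, Function.Injective
      (Sum.map Subtype.val id : {x // γ x = i} ⊕ Fin s → V ⊕ Fin s) := fun i =>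
    Sum.map_injective.2 ⟨Subtype.val_injective, Function.injective_id⟩
  have huq : ∀ (i : I) (z : {x // γ x = i} ⊕ Fin s) (x : V),
      (Sum.map Subtype.val id z : V ⊕ Fin s) = Sum.inl x → γ x = i := by
    intro i z x hz
    rcases z with z | z
    · simp only [Sum.map_inl, Sum.inl.injEq] at hz
      rw [← hz]
      exact z.2
    · simp at hz
  have h1 : DC k l (∑ b : Option I, (match b with | none => c₀ | some i => c i))
      (id : V ⊕ Fin s → V ⊕ Fin s) := by
    refine glueC (B := Option I)
      (W := fun b => match b with | none => V | some i => {x // γ x = i} ⊕ Fin s)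
      (J := fun b => match b with | none => I | some i => {x // γ x = i} ⊕ Fin s)
      (fun b => match b with | none => γ | some i => id)
      (fun b => match b with | none => Sum.inl | some i => Sum.map Subtype.val id)
      (fun b => match b with | none => c₀ | some i => c i) ?_ ?_ ?_ ?_
    · rintro (_ | i)
      · exact Sum.inl_injective
      · exact hinj i
    · rintro (_ | i)
      · exact h
      · exact hc i
    · rintro (x | t) (y | t') hxy
      · simp only [id, ne_eq, Sum.inl.injEq] at hxy
        by_cases hg : γ x = γ y
        · refine ⟨some (γ x), ⟨Sum.inl ⟨x, rfl⟩, Sum.inl ⟨y, hg.symm⟩, rfl, rfl, ?_⟩, ?_⟩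
          · intro h1
            simp only [id, Sum.inl.injEq, Subtype.mk.injEq] at h1
            exact hxy h1
          · rintro (_ | i) ⟨x', y', hx', hy', hne⟩
            · simp only [Sum.inl.injEq] at hx' hy'
              subst hx' hy'
              exact absurd hg hne
            · congr 1
              exact (huq i x' x hx').symm
        · refine ⟨none, ⟨x, y, rfl, rfl, hg⟩, ?_⟩
          rintro (_ | i) ⟨x', y', hx', hy', hne⟩
          · rfl
          · exfalso
            apply hg
            rw [huq i x' x hx', huq i y' y hy']
      · refine ⟨some (γ x), ⟨Sum.inl ⟨x, rfl⟩, Sum.inr t', rfl, rfl, by simp⟩, ?_⟩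
        rintro (_ | i) ⟨x', y', hx', hy', hne⟩
        · simp at hy'
        · congr 1
          exact (huq i x' x hx').symm
      · refine ⟨some (γ y), ⟨Sum.inr t, Sum.inl ⟨y, rfl⟩, rfl, rfl, by simp⟩, ?_⟩
        rintro (_ | i) ⟨x', y', hx', hy', hne⟩
        · simp at hx'
        · congr 1
          exact (huq i y' y hy').symm
      · exact absurd (by rw [hsub t t']) hxy
    · rintro (_ | i) x' y' hne h2
      · simp only [id, Sum.inl.injEq] at h2
        subst h2
        exact hne rfl
      · exact hne (hinj i h2)
  rw [Fintype.sum_option] at h1
  exact h1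

end Pool.Agent.Helper53.BN
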