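import Pool.Agent.Helper53.BN.Trunc
import Pool.Agent.Helper53.BN.Fill

/-!
Project BN: the main construction.

`tf`: `truncC`, then `fillC` with the groups `some a` (`t w` points, see `oddLarge_card` in
`Helper69/WV/OddLarge.lean`) and `none` (`u h` points), with `s` additional points; the designs on
`{x // γ x = i} ⊕ Fin s` come from `DC_id_iff` (`Nat.card_sum`); `Fintype.sum_option`; at the end
`DC_id_iff` again.
`tf0`: the case `u = 0`, `w = 1`, `h = 0` of `tf`: multiplication of orders (`NR k l 1 m c` from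
`NB k l m c` by `DC.congr` along `Fin m ≃ Fin m × Fin 1`; `nb_small` for the last group).
`tf1`: the case `w = 1`, `h = 1`, `s = 0` of `tf`: truncation (`hol m 1 1` is `id` on a set of `m + 1` points, up
to an equivalence: `DC.congr`).
-/

set_option autoImplicit false

namespace Pool.Agent.Helper53.BN

open Pool.Agent.Helper69.WV

private theorem tf_card_some (t w u h m : ℕ) (a : Fin m) :
    Nat.card {x // (Sum.elim (fun p => some p.1) (fun _ => none) :
      (Fin m × (Fin t × Fin w)) ⊕ (Fin u × Fin h) → Option (Fin m)) x = some a} = t * w := by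
  rw [Nat.card_congr (β := Fin t × Fin w) ?_]
  · simp
  · exact
      { toFun := fun x => match x with
          | ⟨Sum.inl p, _⟩ => p.2
          | ⟨Sum.inr p, hp⟩ => absurd hp (by simp)
        invFun := fun b => ⟨Sum.inl (a, b), rfl⟩
        left_inv := by
          rintro ⟨p | p, hp⟩
          · simp only [Sum.elim_inl, Option.some.injEq] at hp
            subst hp
            rfl
          · simp at hp
        right_inv := fun _ => rfl }

private theorem tf_card_none (t w u h m : ℕ) :
    Nat.card {x // (Sum.elim (fun p => some p.1) (fun _ => none) :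
      (Fin m × (Fin t × Fin w)) ⊕ (Fin u × Fin h) → Option (Fin m)) x = none} = u * h := by
  rw [Nat.card_congr (β := Fin u × Fin h) ?_]
  · simp
  · exact
      { toFun := fun x => match x with
          | ⟨Sum.inl p, hp⟩ => absurd hp (by simp)
          | ⟨Sum.inr p, _⟩ => p
        invFun := fun a => ⟨Sum.inr a, rfl⟩
        left_inv := by
          rintro ⟨p | p, hp⟩
          · simp at hp
          · rfl
        right_inv := fun _ => rfl }

private theorem tf_dc {k l c s N : ℕ} {V : Type} [Finite V] (hV : Nat.card V = N)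
    (h : NB k l (N + s) c) : DC k l c (id : V ⊕ Fin s → V ⊕ Fin s) := by
  rw [DC_id_iff, Nat.card_sum, hV, Nat.card_eq_fintype_card, Fintype.card_fin]
  exact h

private theorem tf_nr {k l m c : ℕ} (h : NB k l m c) : NR k l 1 m c := by
  refine DC.congr h (Equiv.prodUnique (Fin m) (Fin 1)).symm fun x y => ?_
  simp

private theorem tf_hol {k l m c : ℕ} (h : NB k l (m + 1) c) : DC k l c (hol m 1 1) := by
  have h1 : DC k l c (id : (Fin m × Fin 1) ⊕ Fin 1 → (Fin m × Fin 1) ⊕ Fin 1) := by
    rw [DC_id_iff, Nat.card_sum, Nat.card_prod]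
    simpa using h
  refine DC.relabel h1 ?_
  rintro (⟨x, x'⟩ | x) (⟨y, y'⟩ | y)
  · simp only [id, hol, Sum.elim_inl, Option.some.injEq, Sum.inl.injEq, Prod.mk.injEq]
    exact ⟨fun h => h.1, fun h => ⟨h, Subsingleton.elim _ _⟩⟩
  · simp [hol]
  · simp [hol]
  · simp only [id, hol, Sum.elim_inr, iff_true]
    exact congrArg _ (Subsingleton.elim _ _)

theorem tf {k l m t u w h s cB clo chi i : ℕ} (hm : 2 ≤ m) (hut : u ≤ t) (hs : s ≤ 1)
    (hT : TD (m + 1) t) (hlo : NR k l w m clo) (hhi : NR k l w m chi)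
    (hB : u = 0 ∨ DC k l cB (hol m w h)) (hi : i ≤ t * (t - u))
    (c₁ : Fin m → ℕ) (h1 : ∀ a, NB k l (t * w + s) (c₁ a)) (c₂ : ℕ) (h2 : NB k l (u * h + s) c₂) :
    NB k l (m * (t * w) + u * h + s)
      ((t * (t - u) - i) * clo + i * chi + u * t * cB + ((∑ a, c₁ a) + c₂)) := by
  have hD := truncC hm hut hT hlo hhi hB hi
  have hF := fillC hs hD (fun o => match o with
    | some a => c₁ a
    | none => c₂) (by
      rintro (_ | a)
      · exact tf_dc (tf_card_none t w u h m) h2
      · exact tf_dc (tf_card_some t w u h m a) (h1 a))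
  rw [DC_id_iff] at hF
  have hcard : Nat.card (((Fin m × (Fin t × Fin w)) ⊕ (Fin u × Fin h)) ⊕ Fin s) =
      m * (t * w) + u * h + s := by
    simp
  rw [hcard, Fintype.sum_option] at hF
  refine DC.cast hF ?_
  simp only
  ring

theorem tf0 {k l m t s clo chi i : ℕ} (hm : 2 ≤ m) (hs : s ≤ 1)
    (hT : TD (m + 1) t) (hlo : NB k l m clo) (hhi : NB k l m chi) (hi : i ≤ t * t)
    (c₁ : Fin m → ℕ) (h1 : ∀ a, NB k l (t + s) (c₁ a)) :
    NB k l (m * t + s) ((t * t - i) * clo + i * chi + ∑ a, c₁ a) := by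
  have h2 : NB k l (0 * 0 + s) 0 := by
    simpa using nb_small k l hs
  have h3 := tf (u := 0) (w := 1) (h := 0) (cB := 0) hm (Nat.zero_le t) hs hT (tf_nr hlo)
    (tf_nr hhi) (Or.inl rfl) (i := i) (by simpa using hi) c₁
    (fun a => by simpa using h1 a) 0 h2
  have e1 : m * (t * 1) + 0 * 0 + s = m * t + s := by ring
  rw [e1] at h3
  refine DC.cast h3 ?_
  simp

theorem tf1 {k l m t u cB clo chi i : ℕ} (hm : 2 ≤ m) (hut : u ≤ t)
    (hT : TD (m + 1) t) (hlo : NB k l m clo) (hhi : NB k l m chi)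
    (hB : NB k l (m + 1) cB) (hi : i ≤ t * (t - u))
    (c₁ : Fin m → ℕ) (h1 : ∀ a, NB k l t (c₁ a)) (c₂ : ℕ) (h2 : NB k l u c₂) :
    NB k l (m * t + u)
      ((t * (t - u) - i) * clo + i * chi + u * t * cB + ((∑ a, c₁ a) + c₂)) := by
  have h3 := tf (w := 1) (h := 1) (s := 0) hm hut (Nat.zero_le 1) hT (tf_nr hlo)
    (tf_nr hhi) (Or.inr (tf_hol hB)) (i := i) hi c₁
    (fun a => by simpa using h1 a) c₂ (by simpa using h2)
  have e1 : m * (t * 1) + u * 1 + 0 = m * t + u := by ring
  rw [e1] at h3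
  exact h3

end Pool.Agent.Helper53.BN
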