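import Pool.Agent.Helper53.BN.Sym
import Pool.Agent.Helper53.BN.TF
import Pool.Agent.Helper69.WV.TDLarge

/-!
Project BN: one `l₀` for which there are block-minimal designs on `v` points for all `v ≥ 2`.

By `hTD` (`TDLarge`, all large `t` have a `TD (k + 1) t`) there is `T` with `TD (k + 1) t` for
`t ≥ T`. Let `V₁ = k (T + 2 k) + 2 k`. For `2 ≤ v ≤ V₁` let `(l v, b v)` be from `nb_sym`, and let
`l₀` be the product of all the `l v` (even, positive); `nb_mul` gives the claim for these `v`. For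
`v > V₁` strong induction: `v = k t + u` with `k ≤ u < 2 k` (so `t ≥ T + 2 k`, `u ≤ t`, `t < v`,
`t ≥ k`). The claim for `k`, `k + 1`, `t` and `u` with numbers of blocks `β` satisfying
`β x * C2 k = l₀ * C2 x` (`qq_large`) and `tf1` with `m = k`, `clo = chi`, `i = 0`,
`c₁ = fun _ => β t` give `NB k l₀ v b` with
`b = t (t - u) β k + u t β (k + 1) + (k β t + β u)`, and
`t (t - u) C2 k + u t C2 (k + 1) + k C2 t + C2 u = C2 (k t + u)` (twice this is an identity
of polynomials).
-/

set_option autoImplicit false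

namespace Pool.Agent.Helper53.BN

open Pool.Agent.Helper69.WV

private theorem Closure_C2 (v : ℕ) : 2 * (C2 v : ℤ) = (v : ℤ) * ((v : ℤ) - 1) := by
  have h1 : 2 * C2 v = v * (v - 1) := by
    unfold C2
    exact Nat.mul_div_cancel' (even_iff_two_dvd.1 (Nat.even_mul_pred_self v))
  rcases Nat.eq_zero_or_pos v with rfl | hv
  · simp [C2]
  · have h2 : (((v - 1 : ℕ) : ℤ)) = (v : ℤ) - 1 := by
      push_cast [Nat.cast_sub (show 1 ≤ v from hv)]
      ring
    have h3 : ((2 * C2 v : ℕ) : ℤ) = ((v * (v - 1) : ℕ) : ℤ) := by rw [h1]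
    rw [Nat.cast_mul, Nat.cast_mul, h2] at h3
    exact_mod_cast h3

theorem c2_split {k t u : ℕ} (hut : u ≤ t) :
    t * (t - u) * C2 k + u * t * C2 (k + 1) + (k * C2 t + C2 u) = C2 (k * t + u) := by
  have h1 := Closure_C2 k
  have h2 := Closure_C2 (k + 1)
  have h3 := Closure_C2 t
  have h4 := Closure_C2 u
  have h5 := Closure_C2 (k * t + u)
  have h6 : (((t - u : ℕ) : ℤ)) = (t : ℤ) - u := by
    push_cast [Nat.cast_sub hut]
    ring
  have h7 : ((t * (t - u) * C2 k + u * t * C2 (k + 1) + (k * C2 t + C2 u) : ℕ) : ℤ) =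
      ((C2 (k * t + u) : ℕ) : ℤ) := by
    push_cast at h2 h5 ⊢
    rw [h6]
    have h8 : (2 : ℤ) * ((t : ℤ) * ((t : ℤ) - u) * (C2 k : ℤ) + u * t * (C2 (k + 1) : ℤ) +
        (k * (C2 t : ℤ) + (C2 u : ℤ))) = 2 * (C2 (k * t + u) : ℤ) := by
      linear_combination ((t : ℤ) * ((t : ℤ) - u)) * h1 + ((u : ℤ) * t) * h2 + (k : ℤ) * h3 +
        h4 - h5
    linarith
  exact_mod_cast h7

theorem minimal_all (k : ℕ) (hk : 4 ≤ k) :
    ∃ l₀ : ℕ, 0 < l₀ ∧ Even l₀ ∧
      ∀ v : ℕ, 2 ≤ v → ∃ b₀, NB k l₀ v b₀ ∧ b₀ * QQ v k = l₀ * C2 v := by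
  obtain ⟨T, hT⟩ := hTD (k + 1)
  have h0 : ∀ v : ℕ, ∃ l : ℕ, 0 < l ∧ Even l ∧
      (2 ≤ v → ∃ b, NB k l v b ∧ b * QQ v k = l * C2 v) := by
    intro v
    by_cases hv : 2 ≤ v
    · obtain ⟨l, b, hl, hle, -, h1, h2⟩ := nb_sym k v hk hv
      exact ⟨l, hl, hle, fun _ => ⟨b, h1, h2⟩⟩
    · exact ⟨2, by norm_num, even_two, fun h => absurd h hv⟩
  choose L hL0 hLe hL using h0
  set V₁ : ℕ := k * (T + 2 * k) + 2 * k with hV₁
  set l₀ : ℕ := ∏ v ∈ Finset.range (V₁ + 1), L v with hl₀
  have hdvd : ∀ v, v ≤ V₁ → L v ∣ l₀ := fun v hv =>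
    Finset.dvd_prod_of_mem L (Finset.mem_range.2 (Nat.lt_succ_of_le hv))
  refine ⟨l₀, Finset.prod_pos fun v _ => hL0 v, ?_, ?_⟩
  · exact even_iff_two_dvd.2 ((even_iff_two_dvd.1 (hLe 0)).trans (hdvd 0 (Nat.zero_le _)))
  · intro v
    induction v using Nat.strong_induction_on with
    | _ v ih =>
      intro hv
      rcases Nat.lt_or_ge V₁ v with hlt | hle
      · -- the decomposition
        have hk0 : 0 < k := by omega
        set t : ℕ := (v - k) / k with ht
        set r : ℕ := (v - k) % k with hr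
        have hdm : k * t + r = v - k := Nat.div_add_mod (v - k) k
        have hrk : r < k := Nat.mod_lt _ hk0
        have hkv : k ≤ v := by omega
        have htT : T + 2 * k ≤ t := by
          rw [ht, Nat.le_div_iff_mul_le hk0, mul_comm]
          omega
        have hvt : k * t + (k + r) = v := by omega
        have htv : t < v := by nlinarith
        obtain ⟨bk, hbk, ek⟩ := ih k (by nlinarith) (by omega)
        obtain ⟨bk1, hbk1, ek1⟩ := ih (k + 1) (by nlinarith) (by omega)
        obtain ⟨bt, hbt, et⟩ := ih t htv (by omega)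
        obtain ⟨bu, hbu, eu⟩ := ih (k + r) (by nlinarith) (by omega)
        rw [qq_large (by omega) le_rfl] at ek
        rw [qq_large (by omega) (by omega)] at ek1
        rw [qq_large (by omega) (by omega)] at et
        rw [qq_large (by omega) (by omega)] at eu
        have hut : k + r ≤ t := by omega
        have h1 := tf1 (k := k) (l := l₀) (m := k) (t := t) (u := k + r) (cB := bk1) (clo := bk)
          (chi := bk) (i := 0) (by omega) hut (hT t (by omega)) hbk hbk hbk1 (Nat.zero_le _)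
          (fun _ => bt) (fun _ => hbt) bu hbu
        rw [hvt] at h1
        refine ⟨_, h1, ?_⟩
        rw [qq_large (by omega) hkv]
        have h2 := c2_split (k := k) hut
        rw [hvt] at h2
        rw [Finset.sum_const, Finset.card_univ, Fintype.card_fin, smul_eq_mul, Nat.sub_zero,
          zero_mul, add_zero, ← h2]
        calc (t * (t - (k + r)) * bk + (k + r) * t * bk1 + (k * bt + bu)) * C2 k
            = t * (t - (k + r)) * (bk * C2 k) + (k + r) * t * (bk1 * C2 k) +
              (k * (bt * C2 k) + bu * C2 k) := by ring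
          _ = _ := by
              rw [ek, ek1, et, eu]
              ring
      · obtain ⟨m, hm⟩ := hdvd v hle
        obtain ⟨b, h1, h2⟩ := hL v hv
        refine ⟨m * b, ?_, ?_⟩
        · have h3 := nb_mul h1 m
          rwa [mul_comm m (L v), ← hm] at h3
        · rw [hm, mul_assoc, h2]
          ring

end Pool.Agent.Helper53.BN
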