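import Pool.Agent.Helper53.BN.Defs

/-!
Project BN: counting the pairs of positions with different points.

`sum_cc`: both sides count the triples `(b, i, j)` with `f b i ≠ f b j` (for the right-hand side
exchange `i` and `j` if `j < i`): `∑ x, ∑ y, [x ≠ y] cc f x y` is the card of the set
`{(b, i, j) // f b i ≠ f b j}` (fibres of `(b, i, j) ↦ (f b i, f b j)`).
-/

set_option autoImplicit false

namespace Pool.Agent.Helper53.BN

open Pool.Agent.Helper69.WV

private theorem cc_sum {k : ℕ} {ι V : Type} [Fintype ι] [DecidableEq V]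
    (f : ι → Fin k → V) (x y : V) :
    cc f x y = ∑ b, ∑ i, ∑ j, (if f b i = x ∧ f b j = y then 1 else 0) := by
  classical
  unfold cc
  rw [Nat.card_eq_fintype_card, Fintype.card_subtype, Finset.card_filter, Fintype.sum_prod_type]
  refine Finset.sum_congr rfl fun b _ => ?_
  rw [Fintype.sum_prod_type]

private theorem qb_sum {k : ℕ} {V : Type} [DecidableEq V] (g : Fin k → V) :
    qb g = ∑ i, ∑ j, (if i < j ∧ g i ≠ g j then 1 else 0) := by
  classical
  unfold qb
  rw [Nat.card_eq_fintype_card, Fintype.card_subtype, Finset.card_filter, Fintype.sum_prod_type]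

private theorem two_qb {k : ℕ} {V : Type} [DecidableEq V] (g : Fin k → V) :
    2 * qb g = ∑ i, ∑ j, (if g i ≠ g j then 1 else 0) := by
  classical
  have h1 : qb g = ∑ i, ∑ j, (if j < i ∧ g i ≠ g j then 1 else 0) := by
    rw [qb_sum, Finset.sum_comm]
    refine Finset.sum_congr rfl fun i _ => Finset.sum_congr rfl fun j _ => ?_
    simp only [ne_comm (a := g j)]
  rw [two_mul]
  nth_rewrite 1 [qb_sum]
  rw [h1, ← Finset.sum_add_distrib]
  refine Finset.sum_congr rfl fun i _ => ?_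
  rw [← Finset.sum_add_distrib]
  refine Finset.sum_congr rfl fun j _ => ?_
  by_cases h : g i = g j
  · simp [h]
  · have hij : i ≠ j := fun e => h (congrArg g e)
    rcases lt_or_gt_of_ne hij with h2 | h2
    · simp [h, h2, h2.le]
    · simp [h, h2, h2.le]

theorem sum_cc {k : ℕ} {ι V : Type} [Fintype ι] [Fintype V] [DecidableEq V]
    (f : ι → Fin k → V) :
    ∑ x, ∑ y, (if x ≠ y then cc f x y else 0) = 2 * ∑ b, qb (f b) := by
  classical
  rw [Finset.mul_sum]
  have h1 : ∀ x y : V, (if x ≠ y then cc f x y else 0)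
      = ∑ b, ∑ i, ∑ j, (if (f b i = x ∧ f b j = y) ∧ x ≠ y then 1 else 0) := by
    intro x y
    rw [cc_sum]
    by_cases h : x = y
    · simp [h]
    · simp [h]
  simp_rw [h1]
  have h2 : ∀ b : ι, 2 * qb (f b) = ∑ i, ∑ j, (if f b i ≠ f b j then 1 else 0) :=
    fun b => two_qb _
  simp_rw [h2]
  have h3 : ∀ (b : ι) (i j : Fin k), (∑ x, ∑ y,
      (if (f b i = x ∧ f b j = y) ∧ x ≠ y then 1 else 0)) = (if f b i ≠ f b j then 1 else 0) := by
    intro b i j
    rw [Finset.sum_eq_single (f b i), Finset.sum_eq_single (f b j)]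
    · simp
    · intro y _ hy
      simp [hy.symm]
    · simp
    · intro x _ hx
      refine Finset.sum_eq_zero fun y _ => ?_
      simp [hx.symm]
    · simp
  calc ∑ x, ∑ y, ∑ b, ∑ i, ∑ j, (if (f b i = x ∧ f b j = y) ∧ x ≠ y then 1 else 0)
      = ∑ x, ∑ b, ∑ y, ∑ i, ∑ j, (if (f b i = x ∧ f b j = y) ∧ x ≠ y then 1 else 0) :=
        Finset.sum_congr rfl fun x _ => Finset.sum_comm
    _ = ∑ b, ∑ x, ∑ y, ∑ i, ∑ j, (if (f b i = x ∧ f b j = y) ∧ x ≠ y then 1 else 0) :=
        Finset.sum_comm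
    _ = ∑ b, ∑ x, ∑ i, ∑ y, ∑ j, (if (f b i = x ∧ f b j = y) ∧ x ≠ y then 1 else 0) :=
        Finset.sum_congr rfl fun b _ => Finset.sum_congr rfl fun x _ => Finset.sum_comm
    _ = ∑ b, ∑ i, ∑ x, ∑ y, ∑ j, (if (f b i = x ∧ f b j = y) ∧ x ≠ y then 1 else 0) :=
        Finset.sum_congr rfl fun b _ => Finset.sum_comm
    _ = ∑ b, ∑ i, ∑ x, ∑ j, ∑ y, (if (f b i = x ∧ f b j = y) ∧ x ≠ y then 1 else 0) :=
        Finset.sum_congr rfl fun b _ => Finset.sum_congr rfl fun i _ =>
          Finset.sum_congr rfl fun x _ => Finset.sum_comm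
    _ = ∑ b, ∑ i, ∑ j, ∑ x, ∑ y, (if (f b i = x ∧ f b j = y) ∧ x ≠ y then 1 else 0) :=
        Finset.sum_congr rfl fun b _ => Finset.sum_congr rfl fun i _ => Finset.sum_comm
    _ = ∑ b, ∑ i, ∑ j, (if f b i ≠ f b j then 1 else 0) :=
        Finset.sum_congr rfl fun b _ => Finset.sum_congr rfl fun i _ =>
          Finset.sum_congr rfl fun j _ => h3 b i j

/-- From `sum_cc`: every `cc f x y` with `x ≠ y` is `l`, and `2 * C2 v = v * (v - 1)`. -/
theorem count_blocks {k l v : ℕ} {ι : Type} [Fintype ι] (f : ι → Fin k → Fin v)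
    (h : ∀ x y, x ≠ y → cc f x y = l) : l * C2 v = ∑ b, qb (f b) := by
  have h1 := sum_cc f
  have h2 : ∀ x y : Fin v, (if x ≠ y then cc f x y else 0) = if x ≠ y then l else 0 := by
    intro x y
    by_cases hxy : x = y
    · simp [hxy]
    · simp [hxy, h x y hxy]
  simp_rw [h2] at h1
  have h3 : ∀ x : Fin v, (∑ y : Fin v, (if x ≠ y then l else 0)) = (v - 1) * l := by
    intro x
    rw [← Finset.sum_filter, Finset.sum_const, smul_eq_mul, Finset.filter_ne,
      Finset.card_erase_of_mem (Finset.mem_univ _), Finset.card_univ, Fintype.card_fin]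
  simp_rw [h3] at h1
  rw [Finset.sum_const, smul_eq_mul, Finset.card_univ, Fintype.card_fin] at h1
  have h4 : 2 * C2 v = v * (v - 1) := by
    unfold C2
    exact Nat.mul_div_cancel' (Nat.even_mul_pred_self v).two_dvd
  have h5 : 2 * (l * C2 v) = 2 * ∑ b, qb (f b) := by
    rw [← h1, show 2 * (l * C2 v) = l * (2 * C2 v) by ring, h4]
    ring
  omega

end Pool.Agent.Helper53.BN
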