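import Pool.Agent.Helper53.BN.Defs

/-!
Project BN: the largest number of pairs of positions with different points.

`qb_le`: let `N = Nat.card V`, `a = k / N`, `n x` the number of `i` with `g i = x`. Then
`∑ n x = k`, `2 * qb g + ∑ (n x) ^ 2 = k ^ 2` (all pairs of positions), and
`(n x) ^ 2 + a * (a + 1) ≥ (2 * a + 1) * n x` for every `x` (since `(n x - a) (n x - a - 1) ≥ 0`
for integers), so `2 * qb g + (2 * a + 1) * k ≤ k ^ 2 + N * (a * (a + 1))`.

`qb_bal`: for `g i = i % v` all `n x` are `k / v` or `k / v + 1` (`Nat.count_modEq_card`), so there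
is equality.

`pairs_le`: the function to `Fin v` with two zeros and `k - 2` ones has `qb g = 2 * (k - 2)`; use
`qb_le`.
-/

set_option autoImplicit false

namespace Pool.Agent.Helper53.BN

open Pool.Agent.Helper69.WV

open Classical in
private theorem CountQ_sum {k : ℕ} {V : Type} [Fintype V] (g : Fin k → V) :
    ∑ x : V, (Finset.univ.filter (fun i => g i = x)).card = k := by
  have h := Finset.card_eq_sum_card_fiberwise (f := g) (s := Finset.univ)
    (t := Finset.univ) (fun _ _ => Finset.mem_coe.2 (Finset.mem_univ _))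
  rw [Finset.card_univ, Fintype.card_fin] at h
  exact h.symm

open Classical in
private theorem CountQ_sq {k : ℕ} {V : Type} [Fintype V] (g : Fin k → V) :
    2 * qb g + ∑ x : V, (Finset.univ.filter (fun i => g i = x)).card ^ 2 = k ^ 2 := by
  have h1 : (Finset.univ.filter (fun p : Fin k × Fin k => g p.1 = g p.2)).card =
      ∑ x : V, (Finset.univ.filter (fun i => g i = x)).card ^ 2 := by
    rw [Finset.card_eq_sum_card_fiberwise (f := fun p : Fin k × Fin k => g p.1)
      (t := Finset.univ) (fun _ _ => Finset.mem_coe.2 (Finset.mem_univ _))]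
    refine Finset.sum_congr rfl fun x _ => ?_
    rw [sq, ← Finset.card_product]
    congr 1
    ext p
    simp only [Finset.mem_filter, Finset.mem_univ, true_and, Finset.mem_product]
    constructor
    · rintro ⟨h1, h2⟩
      exact ⟨h2, h1.symm.trans h2⟩
    · rintro ⟨h1, h2⟩
      exact ⟨h1.trans h2.symm, h1⟩
  have h2 : qb g = (Finset.univ.filter
      (fun p : Fin k × Fin k => p.1 < p.2 ∧ g p.1 ≠ g p.2)).card := by
    unfold qb
    rw [Nat.card_eq_fintype_card, Fintype.card_subtype]
  have h3 : (Finset.univ.filter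
      (fun p : Fin k × Fin k => p.2 < p.1 ∧ g p.1 ≠ g p.2)).card = qb g := by
    rw [h2]
    refine Finset.card_nbij' Prod.swap Prod.swap ?_ ?_ ?_ ?_
    · intro p hp
      simp only [Finset.coe_filter, Finset.mem_univ, true_and, Set.mem_ofPred_eq] at hp ⊢
      exact ⟨hp.1, fun h => hp.2 h.symm⟩
    · intro p hp
      simp only [Finset.coe_filter, Finset.mem_univ, true_and, Set.mem_ofPred_eq] at hp ⊢
      exact ⟨hp.1, fun h => hp.2 h.symm⟩
    · intro p _
      rfl
    · intro p _
      rfl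
  have h4 : (Finset.univ.filter (fun p : Fin k × Fin k => g p.1 ≠ g p.2)).card =
      qb g + qb g := by
    nth_rewrite 2 [← h3]
    rw [h2, ← Finset.card_union_of_disjoint]
    · congr 1
      ext p
      simp only [Finset.mem_filter, Finset.mem_univ, true_and, Finset.mem_union]
      constructor
      · intro h
        rcases lt_trichotomy p.1 p.2 with h5 | h5 | h5
        · exact Or.inl ⟨h5, h⟩
        · exact absurd (congrArg g h5) h
        · exact Or.inr ⟨h5, h⟩
      · rintro (h | h)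
        · exact h.2
        · exact h.2
    · rw [Finset.disjoint_left]
      intro p hp hp'
      exact lt_asymm (Finset.mem_filter.1 hp).2.1 (Finset.mem_filter.1 hp').2.1
  have h5 := Finset.card_filter_add_card_filter_not (s := (Finset.univ : Finset (Fin k × Fin k)))
    (fun p => g p.1 = g p.2)
  rw [Finset.card_univ, Fintype.card_prod, Fintype.card_fin, h1] at h5
  have h6 : (Finset.univ.filter (fun p : Fin k × Fin k => ¬ g p.1 = g p.2)).card =
      qb g + qb g := h4
  rw [h6] at h5
  rw [sq k]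
  omega

theorem qb_le {k : ℕ} {V : Type} [Finite V] [Nonempty V] (g : Fin k → V) :
    qb g ≤ QQ (Nat.card V) k := by
  classical
  have hV : Fintype V := Fintype.ofFinite V
  have h1 := CountQ_sum g
  have h2 := CountQ_sq g
  rw [Nat.card_eq_fintype_card]
  unfold QQ
  obtain ⟨a, ha⟩ : ∃ a, a = k / Fintype.card V := ⟨_, rfl⟩
  rw [← ha]
  have h3 : ∀ n : ℕ, (2 * a + 1) * n ≤ n ^ 2 + a * (a + 1) := by
    intro n
    rcases le_or_gt n a with h | h
    · obtain ⟨d, rfl⟩ := Nat.exists_eq_add_of_le h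
      nlinarith
    · obtain ⟨d, rfl⟩ := Nat.exists_eq_add_of_le (Nat.succ_le_of_lt h)
      rw [Nat.succ_eq_add_one]
      nlinarith
  have h4 : ∑ x : V, (2 * a + 1) * (Finset.univ.filter (fun i => g i = x)).card ≤
      ∑ x : V, ((Finset.univ.filter (fun i => g i = x)).card ^ 2 + a * (a + 1)) :=
    Finset.sum_le_sum fun x _ => h3 _
  rw [← Finset.mul_sum, h1, Finset.sum_add_distrib, Finset.sum_const, Finset.card_univ,
    smul_eq_mul] at h4
  rw [Nat.le_div_iff_mul_le (by norm_num)]
  refine Nat.le_sub_of_add_le ?_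
  omega

theorem qb_bal {k v : ℕ} (hv : 0 < v) :
    qb (fun i : Fin k => (⟨i % v, Nat.mod_lt _ hv⟩ : Fin v)) = QQ v k := by
  classical
  obtain ⟨g, hg⟩ : ∃ g : Fin k → Fin v, g = fun i : Fin k => (⟨i % v, Nat.mod_lt _ hv⟩ : Fin v) :=
    ⟨_, rfl⟩
  rw [← hg]
  have h1 : ∑ x : Fin v, (Finset.univ.filter (fun i => g i = x)).card = k := by
    convert CountQ_sum g
  have h2 : 2 * qb g + ∑ x : Fin v, (Finset.univ.filter (fun i => g i = x)).card ^ 2 = k ^ 2 := by
    convert CountQ_sq g
  unfold QQ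
  obtain ⟨a, ha⟩ : ∃ a, a = k / v := ⟨_, rfl⟩
  rw [← ha]
  have hn : ∀ x : Fin v, (Finset.univ.filter (fun i => g i = x)).card = a ∨
      (Finset.univ.filter (fun i => g i = x)).card = a + 1 := by
    intro x
    have h3 : (Finset.univ.filter (fun i => g i = x)).card = Nat.count (· ≡ (x : ℕ) [MOD v]) k := by
      rw [Nat.count_eq_card_filter_range, Finset.card_filter, Finset.card_filter,
        ← Fin.sum_univ_eq_sum_range (fun i => if i ≡ (x : ℕ) [MOD v] then 1 else 0) k]
      refine Finset.sum_congr rfl fun i _ => ?_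
      have h4 : g i = x ↔ (i : ℕ) ≡ (x : ℕ) [MOD v] := by
        rw [hg, Fin.ext_iff]
        show (i : ℕ) % v = (x : ℕ) ↔ (i : ℕ) % v = (x : ℕ) % v
        rw [Nat.mod_eq_of_lt x.2]
      by_cases h5 : g i = x
      · rw [if_pos h5, if_pos (h4.1 h5)]
      · rw [if_neg h5, if_neg (fun h6 => h5 (h4.2 h6))]
    rw [h3, Nat.count_modEq_card _ hv, ← ha]
    split_ifs
    · exact Or.inr rfl
    · exact Or.inl rfl
  have h3 : ∀ x : Fin v, (2 * a + 1) * (Finset.univ.filter (fun i => g i = x)).card =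
      (Finset.univ.filter (fun i => g i = x)).card ^ 2 + a * (a + 1) := by
    intro x
    rcases hn x with h | h
    · rw [h]
      ring
    · rw [h]
      ring
  have h4 : ∑ x : Fin v, (2 * a + 1) * (Finset.univ.filter (fun i => g i = x)).card =
      ∑ x : Fin v, ((Finset.univ.filter (fun i => g i = x)).card ^ 2 + a * (a + 1)) :=
    Finset.sum_congr rfl fun x _ => h3 x
  rw [← Finset.mul_sum, h1, Finset.sum_add_distrib, Finset.sum_const, Finset.card_univ,
    Fintype.card_fin, smul_eq_mul] at h4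
  omega

theorem pairs_le {k v : ℕ} (hk : 4 ≤ k) (hv : 2 ≤ v) : 2 * (k - 2) ≤ QQ v k := by
  have hv0 : Nonempty (Fin v) := ⟨⟨0, by omega⟩⟩
  have h1 := qb_le (fun i : Fin k => if (i : ℕ) < 2 then (⟨0, by omega⟩ : Fin v) else ⟨1, by omega⟩)
  rw [Nat.card_eq_fintype_card, Fintype.card_fin] at h1
  refine le_trans ?_ h1
  unfold qb
  have h2 : 2 * (k - 2) = Nat.card (Fin 2 × Fin (k - 2)) := by
    rw [Nat.card_eq_fintype_card, Fintype.card_prod, Fintype.card_fin, Fintype.card_fin]
  rw [h2]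
  refine Nat.card_le_card_of_injective (fun q => ⟨(⟨q.1, by have := q.1.2; omega⟩,
    ⟨q.2 + 2, by have := q.2.2; omega⟩), ?_, ?_⟩) ?_
  · rw [Fin.lt_def]
    show (q.1 : ℕ) < q.2 + 2
    have := q.1.2
    omega
  · show ¬ (if (q.1 : ℕ) < 2 then (⟨0, _⟩ : Fin v) else ⟨1, _⟩) =
      (if ((q.2 : ℕ) + 2) < 2 then (⟨0, _⟩ : Fin v) else ⟨1, _⟩)
    rw [if_pos q.1.2, if_neg (by omega)]
    intro h
    exact absurd (congrArg Fin.val h) (by norm_num)
  · intro q q' h
    have h3 := congrArg Subtype.val h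
    have h4 := congrArg (fun p : Fin k × Fin k => (p.1 : ℕ)) h3
    have h5 := congrArg (fun p : Fin k × Fin k => (p.2 : ℕ)) h3
    simp only at h4 h5
    refine Prod.ext (Fin.ext h4) (Fin.ext ?_)
    omega

theorem qq_large {k v : ℕ} (hk : 1 ≤ k) (hv : k ≤ v) : QQ v k = C2 k := by
  unfold QQ C2
  rcases hv.eq_or_lt with h | h
  · subst h
    rw [Nat.div_self (by omega)]
    congr 1
    obtain ⟨m, rfl⟩ : ∃ m, k = m + 1 := ⟨k - 1, by omega⟩
    have h1 : (m + 1) ^ 2 + (m + 1) * (1 * (1 + 1)) = (m + 1) * (m + 1 - 1) +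
        (2 * 1 + 1) * (m + 1) := by
      rw [Nat.add_sub_cancel]
      ring
    rw [h1, Nat.add_sub_cancel]
  · rw [Nat.div_eq_of_lt h]
    congr 1
    obtain ⟨m, rfl⟩ : ∃ m, k = m + 1 := ⟨k - 1, by omega⟩
    have h1 : (m + 1) ^ 2 + v * (0 * (0 + 1)) = (m + 1) * (m + 1 - 1) +
        (2 * 0 + 1) * (m + 1) := by
      rw [Nat.add_sub_cancel]
      ring
    rw [h1, Nat.add_sub_cancel]

end Pool.Agent.Helper53.BN
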