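import Pool.Agent.Helper69.WV.All
import Pool.Agent.Helper52.VBBasic

/-!
Project BN (MP_e0c419_co, Q2): numbers of blocks of variance-balanced designs. Definitions and
basic facts. The designs are those of project WV (`Pool.Agent.Helper69.WV.DD`), now with their
numbers of blocks.
-/

set_option autoImplicit false

namespace Pool.Agent.Helper53.BN

open Pool.Agent.Helper69.WV

/-- A group divisible VB design with exactly `c` blocks (`DD` with the number of blocks). -/
def DC (k l c : ℕ) {V I : Type} (γ : V → I) : Prop :=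
  ∃ (ι : Type) (_ : Finite ι) (f : ι → Fin k → V),
    (∀ b, ∃ i j, f b i ≠ f b j) ∧
    (∀ x y, γ x ≠ γ y → cc f x y = l) ∧
    (∀ x y, x ≠ y → γ x = γ y → cc f x y = 0) ∧ Nat.card ι = c

/-- There is a `VB(v,k,l)` design with exactly `c` blocks. -/
def NB (k l v c : ℕ) : Prop := DC k l c (id : Fin v → Fin v)

/-- There is a group divisible VB design with `n` groups of size `w` and exactly `c` blocks. -/
def NR (k l w n c : ℕ) : Prop := DC k l c (Prod.fst : Fin n × Fin w → Fin n)

/-- The map of the points to the groups for the type `w^m h^1`. -/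
def hol (m w h : ℕ) : (Fin m × Fin w) ⊕ Fin h → Option (Fin m) :=
  Sum.elim (fun p => some p.1) (fun _ => none)

/-- All of `b₀, b₀ + 1, …, b₀ + A` are numbers of blocks. -/
def Fl (k l v A : ℕ) : Prop := ∃ b₀, ∀ j ≤ A, NB k l v (b₀ + j)

/-- The number of pairs of points. -/
def C2 (v : ℕ) : ℕ := v * (v - 1) / 2

/-- The largest number of pairs of different points in a block of size `k` on `v` points:
`k (k - 1) / 2` if `k ≤ v`. -/
def QQ (v k : ℕ) : ℕ := (k ^ 2 + v * ((k / v) * (k / v + 1)) - (2 * (k / v) + 1) * k) / 2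

/-- The parity condition. -/
def Adm (k l v : ℕ) : Prop := Even k ∨ Even (l * (v - 1))

/-- The number of pairs of positions of `g` with different points. -/
noncomputable def qb {k : ℕ} {V : Type} (g : Fin k → V) : ℕ :=
  Nat.card {p : Fin k × Fin k // p.1 < p.2 ∧ g p.1 ≠ g p.2}

theorem DC.dd {k l c : ℕ} {V I : Type} {γ : V → I} (h : DC k l c γ) : DD k l γ := by
  obtain ⟨ι, hι, f, h1, h2, h3, -⟩ := h
  exact ⟨ι, hι, f, h1, h2, h3⟩

theorem DD.dc {k l : ℕ} {V I : Type} {γ : V → I} (h : DD k l γ) : ∃ c, DC k l c γ := by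
  obtain ⟨ι, hι, f, h1, h2, h3⟩ := h
  exact ⟨Nat.card ι, ι, hι, f, h1, h2, h3, rfl⟩

theorem DC.cast {k l c c' : ℕ} {V I : Type} {γ : V → I} (h : DC k l c γ) (hc : c = c') :
    DC k l c' γ := hc ▸ h

theorem DC.congr {k l c : ℕ} {V I V' I' : Type} {γ : V → I} {γ' : V' → I'} (h : DC k l c γ)
    (e : V ≃ V') (he : ∀ x y, γ x = γ y ↔ γ' (e x) = γ' (e y)) : DC k l c γ' := by
  obtain ⟨ι, hι, f, h1, h2, h3, h4⟩ := h
  refine ⟨ι, hι, fun b i => e (f b i), ?_, ?_, ?_, h4⟩
  · intro b
    obtain ⟨i, j, hij⟩ := h1 b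
    exact ⟨i, j, fun h => hij (e.injective h)⟩
  · intro x y hxy
    obtain ⟨x, rfl⟩ := e.surjective x
    obtain ⟨y, rfl⟩ := e.surjective y
    rw [cc_comp f e e.injective]
    exact h2 x y fun h => hxy ((he x y).1 h)
  · intro x y hne hxy
    obtain ⟨x, rfl⟩ := e.surjective x
    obtain ⟨y, rfl⟩ := e.surjective y
    rw [cc_comp f e e.injective]
    exact h3 x y (fun h => hne (congrArg e h)) ((he x y).2 hxy)

/-- Changing the labels of the groups. -/
theorem DC.relabel {k l c : ℕ} {V I I' : Type} {γ : V → I} {γ' : V → I'} (h : DC k l c γ)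
    (he : ∀ x y, γ x = γ y ↔ γ' x = γ' y) : DC k l c γ' :=
  h.congr (Equiv.refl V) he

/-- There is nothing to cover. -/
theorem DC.trivial (k l : ℕ) {V I : Type} (γ : V → I) (h : ∀ x y, γ x = γ y) : DC k l 0 γ := by
  refine ⟨Empty, inferInstance, fun b => b.elim, fun b => b.elim, ?_, ?_, by simp⟩
  · intro x y hxy
    exact absurd (h x y) hxy
  · intro x y _ _
    exact cc_eq_zero _ _ _ fun b => b.elim

theorem DC_id_iff {k l c : ℕ} {V : Type} [Finite V] :
    DC k l c (id : V → V) ↔ NB k l (Nat.card V) c := by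
  constructor
  · intro h
    exact h.congr (Finite.equivFin V) fun x y => by simp
  · intro h
    exact DC.congr h (Finite.equivFin V).symm fun x y => by simp

theorem DC_fst_iff {k l c : ℕ} {V W : Type} [Finite V] [Finite W] :
    DC k l c (Prod.fst : V × W → V) ↔ NR k l (Nat.card W) (Nat.card V) c := by
  constructor
  · intro h
    exact h.congr ((Finite.equivFin V).prodCongr (Finite.equivFin W)) fun x y => by simp
  · intro h
    exact DC.congr h ((Finite.equivFin V).prodCongr (Finite.equivFin W)).symm fun x y => by simp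

theorem nb_zero (k l : ℕ) : NB k l 0 0 := DC.trivial k l _ fun x => x.elim0

theorem nb_one (k l : ℕ) : NB k l 1 0 := DC.trivial k l _ fun x y => Subsingleton.elim _ _

theorem nb_small (k l : ℕ) {s : ℕ} (hs : s ≤ 1) : NB k l s 0 := by
  interval_cases s
  · exact nb_zero k l
  · exact nb_one k l

theorem nb_of_ks {k l v : ℕ} (h : v ∈ KS k l) : ∃ c, NB k l v c := DD.dc h

theorem nb_ks {k l v c : ℕ} (h : NB k l v c) : v ∈ KS k l := DC.dd h

/-- A crude bound for the number of blocks. -/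
theorem DC.bound {k l c : ℕ} {V I : Type} [Finite V] {γ : V → I} (h : DC k l c γ) :
    c ≤ l * Nat.card V ^ 2 := by
  classical
  obtain ⟨ι, hι, f, h1, h2, h3, rfl⟩ := h
  choose i j hij using h1
  have : Fintype V := Fintype.ofFinite V
  have hg : ∀ b, γ (f b (i b)) ≠ γ (f b (j b)) := by
    intro b hb
    exact glue_none f _ _ (h3 _ _ (hij b) hb) b (i b) (j b) rfl rfl
  let F : ι → Σ p : {p : V × V // γ p.1 ≠ γ p.2}, {q : ι × Fin k × Fin k //
      f q.1 q.2.1 = p.1.1 ∧ f q.1 q.2.2 = p.1.2} := fun b =>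
    ⟨⟨(f b (i b), f b (j b)), hg b⟩, ⟨(b, i b, j b), rfl, rfl⟩⟩
  have hF : Function.Injective F := by
    intro b b' hbb
    have h4 : ∀ z z' : (Σ p : {p : V × V // γ p.1 ≠ γ p.2}, {q : ι × Fin k × Fin k //
      f q.1 q.2.1 = p.1.1 ∧ f q.1 q.2.2 = p.1.2}), z = z' → z.2.1.1 = z'.2.1.1 := by
      rintro z z' rfl
      rfl
    exact h4 _ _ hbb
  have h5 := Nat.card_le_card_of_injective F hF
  refine h5.trans ?_
  rw [Nat.card_sigma]
  have h6 : ∀ p : {p : V × V // γ p.1 ≠ γ p.2}, Nat.card {q : ι × Fin k × Fin k //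
      f q.1 q.2.1 = p.1.1 ∧ f q.1 q.2.2 = p.1.2} = l := fun p => h2 _ _ p.2
  rw [Finset.sum_congr rfl fun p _ => h6 p, Finset.sum_const, smul_eq_mul, mul_comm,
    Finset.card_univ]
  refine Nat.mul_le_mul_left _ ?_
  rw [Nat.card_eq_fintype_card, sq, ← Fintype.card_prod]
  exact Fintype.card_subtype_le _

theorem nb_bound {k l v c : ℕ} (h : NB k l v c) : c ≤ l * v ^ 2 := by
  have := DC.bound h
  simpa using this

/-- The union of two designs on the same points. -/
theorem nb_add {k l l' v b b' : ℕ} (ha : NB k l v b) (hb : NB k l' v b') :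
    NB k (l + l') v (b + b') := by
  classical
  obtain ⟨ι, hι, f, h1, h2, -, h5⟩ := ha
  obtain ⟨κ, hκ, g, h3, h4, -, h6⟩ := hb
  refine ⟨ι ⊕ κ, inferInstance, Sum.elim f g, ?_, ?_, ?_, ?_⟩
  · rintro (b | b)
    · exact h1 b
    · exact h3 b
  · intro x y hxy
    rw [← h2 x y hxy, ← h4 x y hxy]
    unfold cc
    rw [← Nat.card_sum]
    refine Nat.card_congr ?_
    exact
      { toFun := fun p => match p with
          | ⟨(Sum.inl b, q), hp⟩ => Sum.inl ⟨(b, q), hp⟩
          | ⟨(Sum.inr b, q), hp⟩ => Sum.inr ⟨(b, q), hp⟩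
        invFun := fun p => match p with
          | Sum.inl p => ⟨(Sum.inl p.1.1, p.1.2), p.2⟩
          | Sum.inr p => ⟨(Sum.inr p.1.1, p.1.2), p.2⟩
        left_inv := by rintro ⟨⟨b | b, q⟩, hp⟩ <;> rfl
        right_inv := by rintro (p | p) <;> rfl }
  · intro x y hne hxy
    exact absurd hxy hne
  · rw [Nat.card_sum, h5, h6]

theorem nb_nil (k v : ℕ) : NB k 0 v 0 := by
  refine ⟨Empty, inferInstance, fun b => b.elim, fun b => b.elim, ?_, ?_, by simp⟩
  · intro x y _
    exact cc_eq_zero _ _ _ fun b => b.elim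
  · intro x y _ _
    exact cc_eq_zero _ _ _ fun b => b.elim

theorem nb_mul {k l v b : ℕ} (h : NB k l v b) (m : ℕ) : NB k (m * l) v (m * b) := by
  induction m with
  | zero => simpa using nb_nil k v
  | succ m ih =>
    have := nb_add ih h
    rwa [← Nat.succ_mul, ← Nat.succ_mul] at this

end Pool.Agent.Helper53.BN
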