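import Pool.Agent.Helper53.BN.Seven
import Pool.Agent.Helper69.QG.Full
import Pool.Agent.Helper69.QG.Gt
import Pool.Agent.Helper69.QC.T4

/-!
Project BN: the windows of the final theorem, and the exact sets of the numbers of blocks.
-/

set_option autoImplicit false

namespace Pool.Agent.Helper53.BN

open Pool.Agent.Helper69.WV Pool.Agent.Helper52.VB Pool.Agent.Helper69.QB Pool.Agent.Helper69.QC
open Pool.Agent.Helper69.QD Pool.Agent.Helper69.QG

/-- The greatest common divisor of the numbers `v - 1` for the `v` for which the upper bound is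
attained. -/
noncomputable def tg (k l : ℕ) : ℕ := Nat.setGcd (TS k l (beta k l))

theorem eight_win (k : ℕ) (hk : 4 ≤ k) :
    ∃ c : ℝ, 0 < c ∧ ∀ l : ℕ, 2 ≤ l → ∃ A : ℝ, 0 < A ∧ ∀ v : ℕ, 2 ≤ v → Adm k l v → ∀ b : ℕ,
      (l : ℝ) * (C2 v : ℝ) + min (c * (C2 v : ℝ)) (A * e0 k l v) ≤ (b : ℝ) * (QQ v k : ℝ) →
      (b : ℝ) ≤ beta k l * (C2 v : ℝ) - min (c * (C2 v : ℝ)) (A * e2 k l v) → NB k l v b := by
  refine seven k hk (fun l v => e0 k l v) (fun l v => e2 k l v) ?_ ?_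
    (fun l hl => sharp2 k l (by omega) hl)
  · intro l v hv
    unfold e0
    split_ifs <;> omega
  · intro l v hv
    unfold e2
    split_ifs <;> omega

private theorem eight_quad (a A : ℝ) (ha : 0 < a) : ∃ n : ℕ, ∀ v : ℕ, n ≤ v →
    A * v ≤ a * (C2 v : ℝ) := by
  obtain ⟨n, hn⟩ := exists_nat_ge (1 + 2 * |A| / a)
  refine ⟨n, fun v hv => ?_⟩
  have h1 : 1 + 2 * |A| / a ≤ v := hn.trans (by exact_mod_cast hv)
  have h2 : 2 * |A| / a ≤ (v : ℝ) - 1 := by linarith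
  rw [div_le_iff₀ ha] at h2
  have hv0 : (0 : ℝ) ≤ v := Nat.cast_nonneg _
  have h3 := mul_le_mul_of_nonneg_right h2 (by linarith : (0 : ℝ) ≤ (v : ℝ) / 2)
  have h4 : A * v ≤ |A| * v := mul_le_mul_of_nonneg_right (le_abs_self A) hv0
  rw [C2_cast v]
  nlinarith

theorem eight_sets (k l : ℕ) (hk : 3 ≤ k) (hl : 2 ≤ l) :
    ∃ (W A v₀ : ℕ) (E : ℕ → Finset ℕ) (F : ℕ → Finset ℝ), 0 < W ∧ ∀ v, v₀ ≤ v →
      (k - 1 ∣ l * (v - 1) → ∀ b : ℕ, (b : ℝ) ≤ beta k l * (C2 v : ℝ) - (A : ℝ) * v →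
        (NB k l v b ↔ l * C2 v ≤ b * C2 k ∧ b * C2 k - l * C2 v ∉ E (v % W))) ∧
      (tg k l ∣ v - 1 → ∀ b : ℕ, (l : ℝ) / (C2 k : ℝ) * (C2 v : ℝ) + (A : ℝ) * v ≤ b →
        (NB k l v b ↔ (b : ℝ) ≤ beta k l * (C2 v : ℝ) ∧
          beta k l * (C2 v : ℝ) - b ∉ F (v % W))) ∧
      (k - 1 ∣ l * (v - 1) → tg k l ∣ v - 1 → ∀ b : ℕ,
        (NB k l v b ↔ (l * C2 v ≤ b * C2 k ∧ b * C2 k - l * C2 v ∉ E (v % W)) ∧
          (b : ℝ) ≤ beta k l * (C2 v : ℝ) ∧ beta k l * (C2 v : ℝ) - b ∉ F (v % W))) ∧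
      (v ≡ 1 [MOD W] → (∃ b, NB k l v b ∧ b * C2 k = l * C2 v) ∧
        ∃ b, NB k l v b ∧ (b : ℝ) = beta k l * (C2 v : ℝ)) := by
  have hk2 : 2 ≤ k := by omega
  obtain ⟨W1, A1, v1, E, hW1, hE⟩ := full_low k l hk hl
  obtain ⟨p, q, hq, hβ⟩ := beta_rat k l hk2
  obtain ⟨W2, A2, v2, F', hW2, hF⟩ := full_top k l hk hl hq hβ
  obtain ⟨w, C, v3, hw, h4⟩ := t4 k l hk hl
  have hCk : 0 < C2 k := c2_pos hk2
  have hCk' : (1 : ℝ) ≤ (C2 k : ℝ) := by exact_mod_cast hCk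
  have hqr : (0 : ℝ) < (q : ℝ) := by exact_mod_cast hq
  have hlt := lt_beta k l hk hl
  set A : ℕ := A1 + A2 + 1 with hA
  obtain ⟨n1, hn1⟩ := eight_quad (beta k l - (l : ℝ) / (C2 k : ℝ)) (2 * A) (by linarith)
  -- bounds for the exceptional sets
  set NE : ℕ := ∑ r ∈ Finset.range W1, ∑ e ∈ E r, (e + 1) with hNE
  set NF : ℕ := ∑ r ∈ Finset.range W2, ∑ e ∈ F' r, (e + 1) with hNF
  have hEb : ∀ r, r < W1 → ∀ e ∈ E r, e < NE := by
    intro r hr e he
    have h1 : e + 1 ≤ ∑ e ∈ E r, (e + 1) :=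
      Finset.single_le_sum (f := fun e => e + 1) (fun _ _ => Nat.zero_le _) he
    have h2 : ∑ e ∈ E r, (e + 1) ≤ NE :=
      Finset.single_le_sum (f := fun r => ∑ e ∈ E r, (e + 1)) (fun _ _ => Nat.zero_le _)
        (Finset.mem_range.2 hr)
    omega
  have hFb : ∀ r, r < W2 → ∀ e ∈ F' r, e < NF := by
    intro r hr e he
    have h1 : e + 1 ≤ ∑ e ∈ F' r, (e + 1) :=
      Finset.single_le_sum (f := fun e => e + 1) (fun _ _ => Nat.zero_le _) he
    have h2 : ∑ e ∈ F' r, (e + 1) ≤ NF :=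
      Finset.single_le_sum (f := fun r => ∑ e ∈ F' r, (e + 1)) (fun _ _ => Nat.zero_le _)
        (Finset.mem_range.2 hr)
    omega
  have hβq : beta k l * q = p := by
    rw [hβ]
    field_simp
  -- the condition at the upper end as a condition on real numbers
  have hFr : ∀ v b r : ℕ, ((b : ℝ) ≤ beta k l * (C2 v : ℝ) ∧ beta k l * (C2 v : ℝ) - b ∉
      (F' r).image (fun e : ℕ => (e : ℝ) / q)) ↔ (q * b ≤ p * C2 v ∧ p * C2 v - q * b ∉ F' r) := by
    intro v b r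
    have h1 : (b : ℝ) ≤ beta k l * (C2 v : ℝ) ↔ q * b ≤ p * C2 v := by
      constructor
      · intro h
        have h2 : (q : ℝ) * b ≤ p * (C2 v : ℝ) := by
          calc (q : ℝ) * b ≤ q * (beta k l * (C2 v : ℝ)) := mul_le_mul_of_nonneg_left h hqr.le
            _ = _ := by rw [← hβq]; ring
        exact_mod_cast h2
      · intro h
        have h2 : (q : ℝ) * b ≤ p * (C2 v : ℝ) := by exact_mod_cast h
        rw [← hβq] at h2
        have h3 : (q : ℝ) * b ≤ q * (beta k l * (C2 v : ℝ)) := by linarith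
        exact le_of_mul_le_mul_left h3 hqr
    rw [h1]
    refine and_congr_right fun h2 => not_congr ?_
    rw [Finset.mem_image]
    have h3 : ((p * C2 v - q * b : ℕ) : ℝ) = q * (beta k l * (C2 v : ℝ) - b) := by
      rw [Nat.cast_sub h2]
      push_cast
      rw [← hβq]
      ring
    constructor
    · rintro ⟨e, he, hee⟩
      have h4 : (e : ℝ) = ((p * C2 v - q * b : ℕ) : ℝ) := by
        rw [h3, ← hee]
        field_simp
      have h5 : e = p * C2 v - q * b := by exact_mod_cast h4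
      rwa [← h5]
    · intro h
      refine ⟨_, h, ?_⟩
      rw [h3]
      field_simp
  have hmod1 : ∀ v : ℕ, v % (W1 * W2 * w) % W1 = v % W1 := fun v =>
    Nat.mod_mod_of_dvd v (Dvd.intro _ (by rw [mul_assoc]))
  have hmod2 : ∀ v : ℕ, v % (W1 * W2 * w) % W2 = v % W2 := fun v =>
    Nat.mod_mod_of_dvd v (Dvd.intro (W1 * w) (by ring))
  refine ⟨W1 * W2 * w, A, v1 + v2 + v3 + n1 + NE + NF + 1, fun r => E (r % W1),
    fun r => (F' (r % W2)).image (fun e : ℕ => (e : ℝ) / q), by positivity, fun v hv => ?_⟩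
  have hv1 : (1 : ℝ) ≤ v := by exact_mod_cast (by omega : 1 ≤ v)
  have hAr : (A : ℝ) = A1 + A2 + 1 := by
    rw [hA]
    push_cast
    ring
  have hA10 : (0 : ℝ) ≤ A1 := Nat.cast_nonneg _
  have hA20 : (0 : ℝ) ≤ A2 := Nat.cast_nonneg _
  have hlow : k - 1 ∣ l * (v - 1) → ∀ b : ℕ, (b : ℝ) ≤ beta k l * (C2 v : ℝ) - (A : ℝ) * v →
      (NB k l v b ↔ l * C2 v ≤ b * C2 k ∧ b * C2 k - l * C2 v ∉ E (v % W1)) := by
    intro hd b hb
    refine hE v (by omega) hd b (hb.trans ?_)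
    nlinarith
  have hupp : tg k l ∣ v - 1 → ∀ b : ℕ, (l : ℝ) / (C2 k : ℝ) * (C2 v : ℝ) + (A : ℝ) * v ≤ b →
      (NB k l v b ↔ q * b ≤ p * C2 v ∧ p * C2 v - q * b ∉ F' (v % W2)) := by
    intro hd b hb
    refine hF v (by omega) hd b (le_trans ?_ hb)
    nlinarith
  refine ⟨?_, ?_, ?_, ?_⟩
  · intro hd b hb
    beta_reduce
    rw [hmod1]
    exact hlow hd b hb
  · intro hd b hb
    beta_reduce
    rw [hmod2, hFr]
    exact hupp hd b hb
  · intro hd hg b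
    beta_reduce
    rw [hmod1, hmod2, hFr]
    have hbig : (l : ℝ) / (C2 k : ℝ) * (C2 v : ℝ) + (A : ℝ) * v ≤
        beta k l * (C2 v : ℝ) - (A : ℝ) * v := by
      have := hn1 v (by omega)
      linarith
    have hAv : (v : ℝ) ≤ (A : ℝ) * v := by
      rw [hAr]
      nlinarith
    rcases le_total (b : ℝ) (beta k l * (C2 v : ℝ) - (A : ℝ) * v) with hb | hb
    · rw [hlow hd b hb]
      refine ⟨fun h => ⟨h, ?_⟩, fun h => h.1⟩
      have h1 : (q : ℝ) * b + q * v ≤ p * (C2 v : ℝ) := by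
        have h2 : (b : ℝ) + v ≤ beta k l * (C2 v : ℝ) := by linarith
        have h3 := mul_le_mul_of_nonneg_left h2 hqr.le
        rw [← hβq]
        linarith
      have h2 : q * b + q * v ≤ p * C2 v := by exact_mod_cast h1
      refine ⟨by omega, fun hmem => ?_⟩
      have h3 := hFb _ (Nat.mod_lt v hW2) _ hmem
      have h4 : v ≤ q * v := Nat.le_mul_of_pos_left v hq
      omega
    · rw [hupp hg b (hbig.trans hb)]
      refine ⟨fun h => ⟨?_, h⟩, fun h => h.2⟩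
      have h1 : (l : ℝ) * (C2 v : ℝ) + v ≤ b * (C2 k : ℝ) := by
        have h2 : (l : ℝ) / (C2 k : ℝ) * (C2 v : ℝ) + v ≤ b := by linarith
        have h3 := mul_le_mul_of_nonneg_right h2 (by linarith : (0 : ℝ) ≤ (C2 k : ℝ))
        have h4 : ((l : ℝ) / (C2 k : ℝ) * (C2 v : ℝ) + v) * (C2 k : ℝ) =
            (l : ℝ) * (C2 v : ℝ) + v * (C2 k : ℝ) := by
          have : (C2 k : ℝ) ≠ 0 := by linarith
          field_simp
        rw [h4] at h3
        have h5 : (v : ℝ) ≤ v * (C2 k : ℝ) := le_mul_of_one_le_right (by linarith) hCk'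
        linarith
      have h2 : l * C2 v + v ≤ b * C2 k := by exact_mod_cast h1
      refine ⟨by omega, fun hmem => ?_⟩
      have h3 := hEb _ (Nat.mod_lt v hW1) _ hmem
      omega
  · intro hv1
    obtain ⟨-, ⟨b0, hb0, hn0⟩, b1, hb1, hnb1⟩ := h4 v (by omega)
      (hv1.of_dvd (Dvd.intro_left (W1 * W2) rfl))
    refine ⟨⟨b0, hn0, ?_⟩, b1, hnb1, hb1⟩
    have h2 : (b0 : ℝ) * (C2 k : ℝ) = (l : ℝ) * (C2 v : ℝ) := by
      rw [hb0]
      have : (C2 k : ℝ) ≠ 0 := by linarith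
      field_simp
    exact_mod_cast h2

end Pool.Agent.Helper53.BN
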