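import Pool.Agent.Helper69.QB.FixW
import Pool.Agent.Helper69.QB.FixR
import Pool.Agent.Helper69.QB.FixD
import Pool.Agent.Helper69.QB.TwoSizes
import Pool.Agent.Helper53.BN.Attained

/-!
Project BN: the parameters of the assembly, with the exact extreme numbers of blocks on a prime
number `m` of points.
-/

set_option autoImplicit false

namespace Pool.Agent.Helper53.BN

open Pool.Agent.Helper69.WV Pool.Agent.Helper69.QB

private theorem exact_count {n N m : ℕ} (hN : 0 < N) (hm : 0 < m) (h : m ≡ 1 [MOD 2 * N]) :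
    ((n * (m * ((m - 1) / (2 * N))) : ℕ) : ℝ) * N = (n : ℝ) * (C2 m : ℝ) := by
  obtain ⟨j, hj⟩ := (Nat.modEq_iff_dvd' hm).1 h.symm
  rw [hj, Nat.mul_div_cancel_left _ (Nat.mul_pos two_pos hN), C2_cast]
  have h1 : (m : ℝ) - 1 = 2 * N * j := by
    have h2 : m = 2 * N * j + 1 := by omega
    rw [h2]
    push_cast
    ring
  rw [h1]
  push_cast
  ring

theorem beta_gt (k l : ℕ) (hk : 3 ≤ k) (hl : 2 ≤ l) : (l : ℝ) / (C2 k : ℝ) < beta k l := by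
  have hC : 0 < k * (k - 1) / 2 := by
    rw [← Nat.choose_two_right]
    exact Nat.choose_pos (by omega)
  obtain ⟨z, y, hzy, h1, h2⟩ := feasible_two k l (k * (k - 1) / 2) hk hl le_rfl
  have h3 : ((∑ a, z a : ℕ) : ℝ) / ((∑ p, y p : ℕ) : ℝ) ≤ beta k l :=
    le_csSup (bddAbove_feasible k l (by omega)) ⟨z, y, hzy, rfl⟩
  refine lt_of_lt_of_le ?_ h3
  rw [h1, h2]
  have hC' : (0 : ℝ) < ((k * (k - 1) / 2 : ℕ) : ℝ) := by exact_mod_cast hC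
  have hCC : (C2 k : ℝ) = ((k * (k - 1) / 2 : ℕ) : ℝ) := rfl
  rw [hCC]
  rw [div_lt_div_iff₀ hC' (by push_cast; positivity)]
  push_cast
  nlinarith

/-- The parameters of the construction. -/
theorem exact_params (k l : ℕ) (hk : 3 ≤ k) (hl : 2 ≤ l) :
    ∃ m w s0 s1 cB : ℕ, m.Prime ∧ 2 < m ∧ 0 < w ∧ TD k w ∧ (∀ t, Adm k l (t * w + 1)) ∧
      Even (m - 1) ∧ NB k l m s0 ∧ NB k l m s1 ∧ s0 < s1 ∧ DC k l cB (hol m w (m - 1)) ∧
      (∀ v, 0 < v → Adm k l v → ∃ u0, (m - 1) * u0 + 1 ≡ v [MOD m * w]) ∧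
      (s0 : ℝ) = (l : ℝ) / (C2 k : ℝ) * (C2 m : ℝ) ∧ (s1 : ℝ) = beta k l * (C2 m : ℝ) := by
  obtain ⟨z1, y1, hf1, hx1⟩ := beta_attained k l (by omega)
  obtain ⟨z0, y0, hf0, hz0, hy0⟩ := feasible_min k l (by omega)
  set N1 : ℕ := ∑ p, y1 p with hN1
  set n1 : ℕ := ∑ a, z1 a with hn1
  set N0 : ℕ := ∑ p, y0 p with hN0
  have hN1p : 0 < N1 := hf1.2.1
  have hN0p : 0 < N0 := hf0.2.1
  obtain ⟨q1, hq1⟩ := feasible_primes hf1
  obtain ⟨q0, hq0⟩ := feasible_primes hf0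
  obtain ⟨w, hw0, hwT, hwK, hwA, m, hmp, hmM, hm2, hm1, hmT, hmu⟩ :=
    choose_wm k l hk hl (2 * N0 * N1) (q0 + q1)
      (Nat.mul_pos (Nat.mul_pos two_pos hN0p) hN1p) ((even_two_mul N0).mul_right N1)
  have hmN0 : m ≡ 1 [MOD 2 * N0] := hm1.of_dvd (Dvd.intro _ rfl)
  have hmN1 : m ≡ 1 [MOD 2 * N1] := hm1.of_dvd ⟨N0, by ring⟩
  have hs0 : NB k l m (l * (m * ((m - 1) / (2 * N0)))) := by
    have := hq0 m hmp (by omega) hmN0
    rwa [hz0] at this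
  have hs1 : NB k l m (n1 * (m * ((m - 1) / (2 * N1)))) := hq1 m hmp (by omega) hmN1
  have hc0 := exact_count (n := l) hN0p hmp.pos hmN0
  have hc1 := exact_count (n := n1) hN1p hmp.pos hmN1
  have hN0C : (N0 : ℝ) = (C2 k : ℝ) := by
    have : N0 = C2 k := hy0
    rw [this]
  rw [hN0C] at hc0
  have hC2p : (0 : ℝ) < (C2 k : ℝ) := by
    rw [← hN0C]
    exact_mod_cast hN0p
  have hN1' : (0 : ℝ) < (N1 : ℝ) := by exact_mod_cast hN1p
  set s0 : ℕ := l * (m * ((m - 1) / (2 * N0))) with hs0'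
  set s1 : ℕ := n1 * (m * ((m - 1) / (2 * N1))) with hs1'
  have e0 : (s0 : ℝ) = (l : ℝ) / (C2 k : ℝ) * (C2 m : ℝ) := by
    rw [div_mul_eq_mul_div, eq_div_iff hC2p.ne']
    exact hc0
  have e1 : (s1 : ℝ) = beta k l * (C2 m : ℝ) := by
    have h1 : (s1 : ℝ) * N1 = beta k l * (C2 m : ℝ) * N1 := by
      rw [hc1, hx1]
      ring
    exact mul_right_cancel₀ hN1'.ne' h1
  have hmm : (0 : ℝ) < (C2 m : ℝ) := by
    rw [C2_cast]
    have : (3 : ℝ) ≤ m := by exact_mod_cast hm2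
    nlinarith
  obtain ⟨cB, hcB⟩ := DD.dc (holeGroup glue k l w m hwK (nb_ks hs0) hmp.pos hmT)
  refine ⟨m, w, s0, s1, cB, hmp, hm2, hw0, hwT, hwA, ?_, hs0, hs1, ?_, hcB, hmu, e0, e1⟩
  · have h2 : m ≡ 1 [MOD 2] := hmN0.of_dvd (Dvd.intro _ rfl)
    rw [even_iff_two_dvd]
    exact (Nat.modEq_iff_dvd' hmp.one_le).1 h2.symm
  · have h1 : (s0 : ℝ) < s1 := by
      rw [e0, e1]
      exact mul_lt_mul_of_pos_right (beta_gt k l hk hl) hmm
    exact_mod_cast h1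

end Pool.Agent.Helper53.BN
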