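import Pool.Agent.Helper53.BN.Link

/-!
Project BN: the midpoint design on an odd number `v` of points has `C2 v` blocks.

`Helper52/VBLarge.lean`: `mid_design` and `midBlock_isBlock` with the midpoint
`m a b = (a + b) * ((v + 1) / 2) mod v` on `Fin v` (compare `exists_mid` in
`Results/MP_e0c419_co/SpectrumLargeLambda.lean`; copy it, do not import it), then `nb_link`; the
number of blocks is the card of `{p ∈ univ | p.1 < p.2}`, which is `C2 v`.
-/

set_option autoImplicit false

namespace Pool.Agent.Helper53.BN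

open Pool.Agent.Helper69.WV Pool.Agent.Helper52.VB

private theorem nb_mid_exists {v : ℕ} (hv : Odd v) : ∃ m : Fin v → Fin v → Fin v,
    (∀ a b, m a b = m b a) ∧ (∀ a, m a a = a) ∧ ∀ a c, ∃! b, m a b = c := by
  have hv0 : NeZero v := ⟨by rintro rfl; exact absurd hv (by decide)⟩
  let e : Fin v ≃ ZMod v := (ZMod.finEquiv v).toEquiv
  have hcop : Nat.Coprime 2 v := Nat.coprime_two_left.2 hv
  have h2 : (2 : ZMod v) * (2 : ZMod v)⁻¹ = 1 := by
    have := ZMod.coe_mul_inv_eq_one 2 hcop
    simpa using this
  refine ⟨fun a b => e.symm ((2 : ZMod v)⁻¹ * (e a + e b)), ?_, ?_, ?_⟩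
  · intro a b
    simp only [add_comm]
  · intro a
    simp only
    rw [Equiv.symm_apply_eq]
    linear_combination (e a) * h2
  · intro a c
    refine ⟨e.symm (2 * e c - e a), ?_, ?_⟩
    · simp only [Equiv.apply_symm_apply]
      rw [Equiv.symm_apply_eq]
      linear_combination (e c) * h2
    · intro b hb
      simp only at hb
      rw [Equiv.symm_apply_eq] at hb
      rw [Equiv.eq_symm_apply, ← hb]
      linear_combination (- (e a + e b)) * h2

private theorem nb_mid_card (v : ℕ) :
    ((Finset.univ : Finset (Fin v × Fin v)).filter (fun p => p.1 < p.2)).card = C2 v := by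
  rw [Finset.card_filter, Fintype.sum_prod_type_right]
  have h1 : ∀ b : Fin v, (∑ a : Fin v, if a < b then 1 else 0) = (b : ℕ) := by
    intro b
    rw [← Finset.card_filter]
    have h2 : (Finset.univ : Finset (Fin v)).filter (fun a => a < b) = Finset.Iio b := by
      ext a
      simp
    rw [h2, Fin.card_Iio]
  rw [Finset.sum_congr rfl fun b _ => h1 b, Fin.sum_univ_eq_sum_range (fun i => i) v,
    Finset.sum_range_id]
  rfl

theorem nb_mid {k v : ℕ} (hk : 2 ≤ k) (hv : Odd v) : NB k (2 * (k - 2) + 1) v (C2 v) := by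
  obtain ⟨m, hm1, hm2, hm3⟩ := nb_mid_exists hv
  have h := nb_link (k := k) (l := 2 * (k - 2) + 1) (by omega)
    (D := ∑ p ∈ (Finset.univ : Finset (Fin v × Fin v)).filter (fun p => p.1 < p.2),
      {midBlock m k p.1 p.2}) ⟨by
        intro B hB
        rw [Multiset.mem_sum] at hB
        obtain ⟨p, hp, hB⟩ := hB
        rw [Finset.mem_filter] at hp
        rw [Multiset.mem_singleton] at hB
        rw [hB]
        exact midBlock_isBlock m hk (ne_of_lt hp.2), fun x y hxy => by
        rw [mid_design m hm1 hm2 hm3 k x y hxy]⟩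
  refine DC.cast h ?_
  rw [← nb_mid_card, Multiset.card_sum]
  simp

end Pool.Agent.Helper53.BN
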