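import Pool.Agent.Helper53.BN.Pair

/-!
Project BN: designs which are unions of designs on pairs of points.

`pair_fill`: `glueC` with the index type `{p : Fin v × Fin v // p.1 < p.2}` (there are `C2 v`
elements), `W = Fin 2`, `δ = id`, `e p = ![p.1, p.2]`, numbers of blocks `c p` between `n₁` and
`n₂` with the sum `b` (`exists_sum`).

`pair_range`: from `pairN` and `pair_fill` with `n₁ = ⌈l / (2 (k - 2))⌉` and
`n₂ = ⌊(l - 2 (k - 3) (k - 4)) / (k - 1)⌋`. If `C2 v = 0` then `b = 0` (by `h2`) and the statement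
is trivial (`v ≤ 1`, `nb_small`).
-/

set_option autoImplicit false

namespace Pool.Agent.Helper53.BN

open Pool.Agent.Helper69.WV

private theorem min_sum (d D m : ℕ) : ∑ i ∈ Finset.range m, min d (D - d * i) = min D (d * m) := by
  induction m with
  | zero => simp
  | succ m ih =>
    rw [Finset.sum_range_succ, ih, Nat.mul_succ]
    generalize d * m = x
    omega

theorem exists_sum {B : Type} [Fintype B] (n₁ n₂ b : ℕ) (h : n₁ ≤ n₂)
    (h1 : n₁ * Fintype.card B ≤ b) (h2 : b ≤ n₂ * Fintype.card B) :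
    ∃ c : B → ℕ, (∀ p, n₁ ≤ c p ∧ c p ≤ n₂) ∧ ∑ p, c p = b := by
  classical
  set m := Fintype.card B with hm
  set d := n₂ - n₁ with hd
  set D := b - n₁ * m with hD
  have hDd : D ≤ d * m := by
    have h3 : d * m = n₂ * m - n₁ * m := by rw [hd, Nat.sub_mul]
    omega
  let e := Fintype.equivFin B
  refine ⟨fun p => n₁ + min d (D - d * (e p : ℕ)), ?_, ?_⟩
  · intro p
    constructor
    · exact Nat.le_add_right _ _
    · have : min d (D - d * (e p : ℕ)) ≤ d := min_le_left _ _
      show n₁ + min d (D - d * (e p : ℕ)) ≤ n₂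
      omega
  · have h3 : ∑ p : B, (n₁ + min d (D - d * (e p : ℕ))) =
        ∑ i : Fin m, (n₁ + min d (D - d * (i : ℕ))) :=
      Equiv.sum_comp e (fun i : Fin m => n₁ + min d (D - d * (i : ℕ)))
    rw [h3, Fin.sum_univ_eq_sum_range (fun i => n₁ + min d (D - d * i)) m,
      Finset.sum_add_distrib, min_sum, Finset.sum_const, Finset.card_range, smul_eq_mul,
      min_eq_left hDd]
    have : m * n₁ = n₁ * m := mul_comm _ _
    omega

theorem card_pairs (v : ℕ) : Fintype.card {p : Fin v × Fin v // p.1 < p.2} = C2 v := by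
  have h1 : Fintype.card {p : Fin v × Fin v // p.1 < p.2} =
      Fintype.card (Σ j : Fin v, Fin (j : ℕ)) := by
    refine Fintype.card_congr ?_
    exact
      { toFun := fun p => ⟨p.1.2, ⟨p.1.1.1, p.2⟩⟩
        invFun := fun q => ⟨(⟨q.2.1, q.2.2.trans q.1.2⟩, q.1), q.2.2⟩
        left_inv := by rintro ⟨⟨i, j⟩, h⟩; rfl
        right_inv := by rintro ⟨j, i⟩; rfl }
  rw [h1, Fintype.card_sigma]
  simp only [Fintype.card_fin]
  rw [Fin.sum_univ_eq_sum_range (fun i => i) v, Finset.sum_range_id]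
  rfl

theorem pair_fill {k l v n₁ n₂ b : ℕ} (h : ∀ n, n₁ ≤ n → n ≤ n₂ → NB k l 2 n) (h12 : n₁ ≤ n₂)
    (h1 : n₁ * C2 v ≤ b) (h2 : b ≤ n₂ * C2 v) : NB k l v b := by
  classical
  rw [← card_pairs v] at h1 h2
  obtain ⟨c, hc, hb⟩ := exists_sum n₁ n₂ b h12 h1 h2
  have hinj : ∀ p : {p : Fin v × Fin v // p.1 < p.2},
      Function.Injective (![p.1.1, p.1.2] : Fin 2 → Fin v) := by
    intro p x y hxy
    have hne := p.2.ne
    fin_cases x <;> fin_cases y
    · rfl
    · exact absurd hxy hne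
    · exact absurd hxy.symm hne
    · rfl
  have key := glueC (k := k) (l := l) (γ := (id : Fin v → Fin v))
    (B := {p : Fin v × Fin v // p.1 < p.2}) (W := fun _ => Fin 2) (J := fun _ => Fin 2)
    (fun _ => id) (fun p => ![p.1.1, p.1.2]) c hinj
    (fun p => h (c p) (hc p).1 (hc p).2) ?_ ?_
  · rw [hb] at key
    exact key
  · intro x y hxy
    have hxy' : x ≠ y := hxy
    rcases lt_or_gt_of_ne hxy' with hlt | hlt
    · refine ⟨⟨(x, y), hlt⟩, ⟨0, 1, rfl, rfl, by simp⟩, ?_⟩
      rintro ⟨⟨a, b'⟩, hab⟩ ⟨x', y', hx', hy', hd⟩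
      fin_cases x' <;> fin_cases y'
      · exact absurd rfl hd
      · have e1 : a = x := hx'
        have e2 : b' = y := hy'
        subst e1
        subst e2
        rfl
      · have e1 : b' = x := hx'
        have e2 : a = y := hy'
        subst e1
        subst e2
        exact absurd hab (not_lt_of_gt hlt)
      · exact absurd rfl hd
    · refine ⟨⟨(y, x), hlt⟩, ⟨1, 0, rfl, rfl, by simp⟩, ?_⟩
      rintro ⟨⟨a, b'⟩, hab⟩ ⟨x', y', hx', hy', hd⟩
      fin_cases x' <;> fin_cases y'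
      · exact absurd rfl hd
      · have e1 : a = x := hx'
        have e2 : b' = y := hy'
        subst e1
        subst e2
        exact absurd hab (not_lt_of_gt hlt)
      · have e1 : b' = x := hx'
        have e2 : a = y := hy'
        subst e1
        subst e2
        rfl
      · exact absurd rfl hd
  · intro p x' y' hd
    exact fun hc' => hd (hinj p hc')

theorem pair_range {k l v b : ℕ} (hk : 4 ≤ k) (hp : Even k ∨ Even l)
    (h1 : (l + 2 * (k - 2)) * C2 v ≤ 2 * (k - 2) * b)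
    (h2 : (k - 1) * b + (2 * ((k - 3) * (k - 4)) + (k - 1)) * C2 v ≤ l * C2 v) :
    NB k l v b := by
  rcases Nat.eq_zero_or_pos (C2 v) with hC | hC
  · rw [hC, mul_zero, mul_zero, add_zero] at h2
    have hb : b = 0 := by
      rcases Nat.eq_zero_or_pos b with hb | hb
      · exact hb
      · have : 0 < (k - 1) * b := Nat.mul_pos (by omega) hb
        omega
    have hv : v ≤ 1 := by
      by_contra hcon
      have h3 : 2 * 1 ≤ v * (v - 1) := Nat.mul_le_mul (by omega) (by omega)
      have h4 : 1 ≤ v * (v - 1) / 2 := by omega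
      have h5 : C2 v = v * (v - 1) / 2 := rfl
      omega
    rw [hb]
    exact nb_small k l hv
  · obtain ⟨A, hA⟩ : ∃ A, A = 2 * (k - 2) := ⟨_, rfl⟩
    obtain ⟨B, hB⟩ : ∃ B, B = k - 1 := ⟨_, rfl⟩
    obtain ⟨E, hE⟩ : ∃ E, E = 2 * ((k - 3) * (k - 4)) := ⟨_, rfl⟩
    obtain ⟨C, hCC⟩ : ∃ C, C = C2 v := ⟨_, rfl⟩
    rw [← hA, ← hCC] at h1
    rw [← hB, ← hE, ← hCC] at h2
    rw [← hCC] at hC
    have hA0 : 0 < A := by omega
    have hB0 : 0 < B := by omega
    have hEl : E + B ≤ l := by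
      have h3 : (E + B) * C ≤ l * C := by omega
      exact Nat.le_of_mul_le_mul_right h3 hC
    obtain ⟨n₁, hn₁⟩ : ∃ n, n = (l + (A - 1)) / A := ⟨_, rfl⟩
    obtain ⟨n₂, hn₂⟩ : ∃ n, n = (l - E) / B := ⟨_, rfl⟩
    have a1 : l ≤ A * n₁ := by
      have h3 := Nat.div_add_mod (l + (A - 1)) A
      have h4 := Nat.mod_lt (l + (A - 1)) hA0
      rw [← hn₁] at h3
      omega
    have a2 : A * n₁ ≤ l + (A - 1) := by
      rw [hn₁]
      exact Nat.mul_div_le _ _
    have a3 : B * n₂ ≤ l - E := by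
      rw [hn₂]
      exact Nat.mul_div_le _ _
    have a4 : l - E < B * n₂ + B := by
      have h3 := Nat.div_add_mod (l - E) B
      have h4 := Nat.mod_lt (l - E) hB0
      rw [← hn₂] at h3
      omega
    have b1 : n₁ * C ≤ b := by
      have h3 : A * n₁ * C ≤ (l + A) * C := Nat.mul_le_mul_right _ (by omega)
      have h4 : A * (n₁ * C) ≤ A * b := by
        rw [← mul_assoc]
        exact h3.trans h1
      exact Nat.le_of_mul_le_mul_left h4 hA0
    have b2 : b ≤ n₂ * C := by
      have h3 : l * C ≤ (B * n₂ + (E + B)) * C := Nat.mul_le_mul_right _ (by omega)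
      have h4 : (B * n₂ + (E + B)) * C = B * (n₂ * C) + (E + B) * C := by ring
      have h5 : B * b ≤ B * (n₂ * C) := by omega
      exact Nat.le_of_mul_le_mul_left h5 hB0
    have h12 : n₁ ≤ n₂ := Nat.le_of_mul_le_mul_right (b1.trans b2) hC
    refine pair_fill (n₁ := n₁) (n₂ := n₂) ?_ h12 (by rw [← hCC]; exact b1)
      (by rw [← hCC]; exact b2)
    intro n g1 g2
    refine pairN hk hp ?_ ?_
    · rw [← hB, ← hE]
      have h3 : B * n ≤ B * n₂ := Nat.mul_le_mul_left _ g2
      have h4 : n * B = B * n := mul_comm _ _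
      omega
    · rw [← hA]
      have h3 : A * n₁ ≤ A * n := Nat.mul_le_mul_left _ g1
      omega

end Pool.Agent.Helper53.BN
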