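import Pool.Agent.Helper53.BN.Defs
import Pool.Agent.Helper52.VBLarge

/-!
Project BN: functions on positions and multisets.

`conc_map`: the concurrence of the multiset of the blocks `f b` is `cc f` (this is inside the
proof of `Helper69/WV/Link.lean` (`link`)).
`link_nb`: from `NB` to a design with `D.card = c` (as `link`; the card of the image multiset is
`Nat.card ι`).
`nb_link`: conversely choose `ι = Fin D.card`, `D.toList.get`, and for every block `B` (of card
`k`) the function `i ↦ B.toList.get (i cast)`; the multiset of its values is `B`; then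
`conc_map`. The block is not constant since `B` is not `Multiset.replicate k x`
(`Multiset.eq_replicate`).
-/

set_option autoImplicit false

namespace Pool.Agent.Helper53.BN

open Pool.Agent.Helper69.WV Pool.Agent.Helper52.VB

theorem conc_map {k : ℕ} {V ι : Type} [DecidableEq V] [Fintype ι] (f : ι → Fin k → V) (x y : V) :
    conc (Finset.univ.val.map fun b => Finset.univ.val.map (f b)) x y = cc f x y := by
  unfold conc cc
  rw [Multiset.map_map]
  have h4 : ∀ b, ((fun B : Multiset V => B.count x * B.count y) ∘
      fun b => Finset.univ.val.map (f b)) b =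
      Fintype.card {p : Fin k × Fin k // f b p.1 = x ∧ f b p.2 = y} := by
    intro b
    simp only [Function.comp_apply]
    rw [link_count, link_count, ← Fintype.card_prod]
    refine Fintype.card_congr ?_
    exact
      { toFun := fun p => ⟨(p.1.1, p.2.1), p.1.2, p.2.2⟩
        invFun := fun p => (⟨p.1.1, p.2.1⟩, ⟨p.1.2, p.2.2⟩)
        left_inv := fun _ => rfl
        right_inv := fun _ => rfl }
  rw [Multiset.map_congr rfl (fun b _ => h4 b)]
  change ∑ b, Fintype.card {p : Fin k × Fin k // f b p.1 = x ∧ f b p.2 = y} = _
  rw [← Fintype.card_sigma, Nat.card_eq_fintype_card]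
  refine Fintype.card_congr ?_
  exact
    { toFun := fun p => ⟨(p.1, p.2.1), p.2.2⟩
      invFun := fun p => ⟨p.1.1, p.1.2, p.2⟩
      left_inv := fun _ => rfl
      right_inv := fun _ => rfl }

theorem link_nb {k l v c : ℕ} (h : NB k l v c) :
    ∃ D : Multiset (Multiset (Fin v)), IsVB v k l D ∧ D.card = c := by
  classical
  obtain ⟨ι, hι, f, h1, h2, -, h5⟩ := h
  have := Fintype.ofFinite ι
  refine ⟨Finset.univ.val.map fun b => Finset.univ.val.map (f b), ⟨?_, ?_⟩, ?_⟩
  · intro B hB
    rw [Multiset.mem_map] at hB
    obtain ⟨b, -, rfl⟩ := hB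
    refine ⟨by simp, ?_⟩
    intro x hx
    obtain ⟨i, j, hij⟩ := h1 b
    have hi : f b i ∈ Multiset.replicate k x := by
      rw [← hx]
      exact Multiset.mem_map_of_mem _ (Finset.mem_univ i)
    have hj : f b j ∈ Multiset.replicate k x := by
      rw [← hx]
      exact Multiset.mem_map_of_mem _ (Finset.mem_univ j)
    exact hij ((Multiset.eq_of_mem_replicate hi).trans (Multiset.eq_of_mem_replicate hj).symm)
  · intro x y hxy
    rw [conc_map]
    exact h2 x y hxy
  · rw [Multiset.card_map, ← h5, Nat.card_eq_fintype_card]
    rfl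

/-- A multiset of card `k` is the multiset of the values of a function on `Fin k`. -/
private theorem exists_map_eq {V : Type} {k : ℕ} (B : Multiset V) (h : B.card = k) :
    ∃ g : Fin k → V, Finset.univ.val.map g = B := by
  subst h
  induction B using Quotient.inductionOn with
  | h l =>
    refine ⟨l.get, ?_⟩
    change Finset.univ.val.map (fun i : Fin l.length => l.get i) = (l : Multiset V)
    rw [Fin.univ_val_map, List.ofFn_get]

/-- The hypothesis `0 < k` is needed: for `v = k = 0` the empty multiset is a block in the sense of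
`IsBlock`. -/
theorem nb_link {k l v : ℕ} (hk : 0 < k) {D : Multiset (Multiset (Fin v))} (h : IsVB v k l D) :
    NB k l v D.card := by
  classical
  obtain ⟨F, hF⟩ := exists_map_eq D rfl
  have hmem : ∀ b, F b ∈ D := by
    intro b
    rw [← hF]
    exact Multiset.mem_map_of_mem _ (Finset.mem_univ b)
  have hg : ∀ b, ∃ g : Fin k → Fin v, Finset.univ.val.map g = F b := fun b =>
    exists_map_eq (F b) (h.1 _ (hmem b)).1
  choose g hg using hg
  refine ⟨Fin D.card, inferInstance, g, ?_, ?_, ?_, by simp⟩
  · intro b
    by_contra hcon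
    push Not at hcon
    refine (h.1 _ (hmem b)).2 (g b ⟨0, hk⟩) ?_
    rw [Multiset.eq_replicate]
    refine ⟨(h.1 _ (hmem b)).1, ?_⟩
    intro x hx
    rw [← hg b, Multiset.mem_map] at hx
    obtain ⟨i, -, rfl⟩ := hx
    exact hcon i _
  · intro x y hxy
    rw [← conc_map, ← h.2 x y hxy]
    congr 1
    exact (Multiset.map_congr rfl fun b _ => hg b).trans hF
  · intro x y hne hxy
    exact absurd hxy hne

/-- The parity condition is necessary. -/
theorem nb_adm {k l v c : ℕ} (hv : 1 ≤ v) (h : NB k l v c) : Adm k l v := by
  obtain ⟨D, hD, -⟩ := link_nb h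
  by_cases he : Even k
  · exact Or.inl he
  · exact Or.inr (parity_nec he hv hD)

end Pool.Agent.Helper53.BN
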