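import Pool.Agent.Helper69.QB.FixR
import Mathlib

/-!
Project BN: the real inequalities for the error `A v log v`.
-/

set_option autoImplicit false

namespace Pool.Agent.Helper53.BN

open Pool.Agent.Helper69.QB

/-- The error term. -/
noncomputable def err (v : ℕ) : ℝ := (v : ℝ) * Real.log v

theorem log_two_half : (1 : ℝ) / 2 ≤ Real.log 2 := by
  have := Real.log_two_gt_d9
  linarith

theorem err_one {v : ℕ} (hv : 2 ≤ v) : 1 ≤ err v := by
  have h1 : (2 : ℝ) ≤ v := by exact_mod_cast hv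
  have h2 : Real.log 2 ≤ Real.log v := Real.log_le_log (by norm_num) h1
  have h3 := log_two_half
  unfold err
  nlinarith

theorem err_gain {m x v : ℕ} (hm : 2 ≤ m) (hx : 1 ≤ x) (hv : m * x ≤ v) :
    (m : ℝ) * err x + (x : ℝ) ≤ err v := by
  have hm' : (2 : ℝ) ≤ m := by exact_mod_cast hm
  have hx' : (1 : ℝ) ≤ x := by exact_mod_cast hx
  have hv' : (m : ℝ) * x ≤ v := by exact_mod_cast hv
  have h1 : Real.log ((m : ℝ) * x) = Real.log m + Real.log x :=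
    Real.log_mul (by positivity) (by positivity)
  have h2 : Real.log 2 ≤ Real.log m := Real.log_le_log (by norm_num) hm'
  have h3 : Real.log ((m : ℝ) * x) ≤ Real.log v := Real.log_le_log (by positivity) hv'
  have h4 : 0 ≤ Real.log x := Real.log_nonneg hx'
  have h5 := log_two_half
  unfold err
  have h6 : (m : ℝ) * x * Real.log ((m : ℝ) * x) ≤ v * Real.log v :=
    mul_le_mul hv' h3 (by rw [h1]; linarith) (by linarith [Nat.cast_nonneg (α := ℝ) v])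
  rw [h1] at h6
  have h7 : (m : ℝ) * x * (1 / 2) ≤ (m : ℝ) * x * Real.log m :=
    mul_le_mul_of_nonneg_left (by linarith) (by positivity)
  nlinarith

theorem c2_upper {m w t u U K v : ℕ} (hm : 2 ≤ m) (ht : 1 ≤ t) (hut : u ≤ t) (huU : u ≤ U)
    (hK : (m - 1) * U + 1 = K) (hv : v = m * (t * w) + (m - 1) * u + 1) :
    (C2 v : ℝ) ≤ (t : ℝ) * ((t : ℝ) - u) * ((w : ℝ) ^ 2 * (C2 m : ℝ)) +
      (m : ℝ) * (C2 (t * w + 1) : ℝ) + ((m * w * K + U * w ^ 2 * m ^ 2 + K ^ 2 : ℕ) : ℝ) * t := by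
  obtain ⟨m', rfl⟩ : ∃ m', m = m' + 1 := ⟨m - 1, by omega⟩
  rw [Nat.add_sub_cancel] at hK hv
  subst hK
  subst hv
  rw [C2_cast, C2_cast, C2_cast]
  have ht' : (1 : ℝ) ≤ t := by exact_mod_cast ht
  have hu0 : (0 : ℝ) ≤ u := Nat.cast_nonneg _
  have hu' : (u : ℝ) ≤ U := by exact_mod_cast huU
  have hw0 : (0 : ℝ) ≤ w := Nat.cast_nonneg _
  have hm0 : (0 : ℝ) ≤ m' := Nat.cast_nonneg _
  have hut' : (u : ℝ) ≤ t := by exact_mod_cast hut
  push_cast
  have h1 : (m' : ℝ) * u ≤ m' * U := mul_le_mul_of_nonneg_left hu' hm0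
  have h2 : (0 : ℝ) ≤ m' * u := by positivity
  have e : ((m' + 1) * ((t : ℝ) * w) + m' * u + 1) * ((m' + 1) * (t * w) + m' * u + 1 - 1) / 2 =
      t * (t - u) * (w ^ 2 * ((m' + 1) * (m' + 1 - 1) / 2)) +
        (m' + 1) * ((t * w + 1) * (t * w + 1 - 1) / 2) +
        ((m' + 1) * t * w * (m' * u) + (m' * u + 1) * (m' * u) / 2 +
          t * u * w ^ 2 * ((m' + 1) * m' / 2)) := by ring
  rw [e]
  have h3 : (m' + 1) * (t : ℝ) * w * (m' * u) ≤ (m' + 1) * w * (m' * U + 1) * t := by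
    have : (m' + 1) * (t : ℝ) * w * (m' * u) ≤ (m' + 1) * t * w * (m' * U + 1) :=
      mul_le_mul_of_nonneg_left (by linarith) (by positivity)
    linarith
  have h4 : (m' * (u : ℝ) + 1) * (m' * u) / 2 ≤ (m' * U + 1) ^ 2 * t := by
    have h5 : (m' * (u : ℝ) + 1) * (m' * u) ≤ (m' * U + 1) * (m' * U + 1) :=
      mul_le_mul (by linarith) (by linarith) h2 (by positivity)
    have h6 : (m' * (U : ℝ) + 1) ^ 2 ≤ (m' * U + 1) ^ 2 * t :=
      le_mul_of_one_le_right (by positivity) ht'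
    have h7 : (0 : ℝ) ≤ (m' * (u : ℝ) + 1) * (m' * u) := by positivity
    nlinarith
  have h8 : (t : ℝ) * u * w ^ 2 * ((m' + 1) * m' / 2) ≤ U * w ^ 2 * (m' + 1) ^ 2 * t := by
    have h9 : (m' + 1) * (m' : ℝ) / 2 ≤ (m' + 1) ^ 2 := by nlinarith
    have h10 : (t : ℝ) * u * w ^ 2 * ((m' + 1) * m' / 2) ≤ t * U * w ^ 2 * (m' + 1) ^ 2 := by
      apply mul_le_mul _ h9 (by positivity) (by positivity)
      apply mul_le_mul_of_nonneg_right _ (by positivity)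
      exact mul_le_mul_of_nonneg_left hu' (by positivity)
    linarith
  nlinarith

theorem c2_lower {m w t u v : ℕ} (hm : 2 ≤ m)
    (hv : v = m * (t * w) + (m - 1) * u + 1) :
    (t : ℝ) * ((t : ℝ) - u) * ((w : ℝ) ^ 2 * (C2 m : ℝ)) + (m : ℝ) * (C2 (t * w + 1) : ℝ) ≤
      (C2 v : ℝ) := by
  obtain ⟨m', rfl⟩ : ∃ m', m = m' + 1 := ⟨m - 1, by omega⟩
  rw [Nat.add_sub_cancel] at hv
  subst hv
  rw [C2_cast, C2_cast, C2_cast]
  have hu0 : (0 : ℝ) ≤ u := Nat.cast_nonneg _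
  have ht0 : (0 : ℝ) ≤ t := Nat.cast_nonneg _
  have hw0 : (0 : ℝ) ≤ w := Nat.cast_nonneg _
  have hm0 : (0 : ℝ) ≤ m' := Nat.cast_nonneg _
  push_cast
  have e : ((m' + 1) * ((t : ℝ) * w) + m' * u + 1) * ((m' + 1) * (t * w) + m' * u + 1 - 1) / 2 =
      t * (t - u) * (w ^ 2 * ((m' + 1) * (m' + 1 - 1) / 2)) +
        (m' + 1) * ((t * w + 1) * (t * w + 1 - 1) / 2) +
        ((m' + 1) * t * w * (m' * u) + (m' * u + 1) * (m' * u) / 2 +
          t * u * w ^ 2 * ((m' + 1) * m' / 2)) := by ring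
  rw [e]
  have h : 0 ≤ (m' + 1) * (t : ℝ) * w * (m' * u) + (m' * u + 1) * (m' * u) / 2 +
      t * u * w ^ 2 * ((m' + 1) * m' / 2) := by positivity
  linarith

end Pool.Agent.Helper53.BN
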