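import Pool.Agent.Helper69.QB.FixI
import Pool.Agent.Helper53.BN.Exact
import Pool.Agent.Helper53.BN.LogR

/-!
Project BN: fixed concurrence, all numbers of blocks but those in windows of width `O(v log v)` at
the two ends.
-/

set_option autoImplicit false

namespace Pool.Agent.Helper53.BN

open Pool.Agent.Helper69.WV Pool.Agent.Helper69.QB

private theorem log_adm {k l m u q n : ℕ} (hm : Even (m - 1)) (hn : (m - 1) * u + 1 = q * n) :
    Adm k l n := by
  refine Or.inr (Even.mul_left ?_ _)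
  have hodd : Odd ((m - 1) * u + 1) := (hm.mul_right u).add_one
  rw [hn] at hodd
  exact (Nat.odd_mul.1 hodd).2.tsub_odd odd_one

private theorem log_pick {S0 m ax bx P Q c' : ℕ} (hab : ax ≤ bx) (hPQ : P + m ≤ Q)
    (h1 : S0 + m * ax + P ≤ c') (h2 : c' ≤ S0 + m * bx + Q) :
    ∃ c, ax ≤ c ∧ c ≤ bx ∧ S0 + m * c + P ≤ c' ∧ c' ≤ S0 + m * c + Q := by
  induction bx, hab using Nat.le_induction with
  | base => exact ⟨ax, le_rfl, le_rfl, h1, h2⟩
  | succ bx hab ih =>
    by_cases h3 : S0 + m * (bx + 1) + P ≤ c'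
    · exact ⟨bx + 1, by omega, le_rfl, h3, h2⟩
    · have h4 : m * (bx + 1) = m * bx + m := by ring
      obtain ⟨c, hc1, hc2, hc3, hc4⟩ := ih (by omega)
      exact ⟨c, hc1, by omega, hc3, hc4⟩

theorem fixedIv (k l : ℕ) (hk : 3 ≤ k) (hl : 2 ≤ l) :
    ∃ (A : ℝ) (v₁ : ℕ), 0 < A ∧ 2 ≤ v₁ ∧ ∀ v, v₁ ≤ v → Adm k l v → ∃ a b : ℕ, a ≤ b ∧
      (∀ c, a ≤ c → c ≤ b → NB k l v c) ∧
      (a : ℝ) ≤ (l : ℝ) / (C2 k : ℝ) * (C2 v : ℝ) + A * err v ∧
      beta k l * (C2 v : ℝ) - A * err v ≤ b := by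
  obtain ⟨m, w, s0, s1, cB, hmp, hm2, hw0, hwT, hwA, hme, hs0, hs1, hs01, hcB, hmu, e0, e1⟩ :=
    exact_params k l hk hl
  set lam : ℝ := (l : ℝ) / (C2 k : ℝ) with hlam
  have hlam0 : 0 ≤ lam := by positivity
  set β : ℝ := beta k l with hβdef
  have hβ : 0 < β := lt_of_le_of_lt hlam0 (beta_gt k l hk hl)
  set Δ : ℕ := w ^ 2 * (s1 - s0) with hΔ
  have hΔp : 0 < Δ := Nat.mul_pos (pow_pos hw0 2) (Nat.sub_pos_of_lt hs01)
  obtain ⟨q, g, D, hqp, hqm, hg, hgD, hD, hDΔ⟩ := two_sizes k l hk hl Δ (m * w) hΔp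
  obtain ⟨n1, hn1⟩ := hTD (q + 1)
  obtain ⟨n2, hn2⟩ := hTD (m + 1)
  obtain ⟨v1, hv1⟩ := main k hk
  set U0 : ℕ := q * (n1 + v1 + Δ + 1) with hU0
  set U : ℕ := U0 + m * w * q with hU
  set K : ℕ := (m - 1) * U + 1 with hK
  set F : ℕ := K * K * g + q * (l * K ^ 2) + Δ * D with hF
  set T : ℕ := U + n2 + v1 + m + Δ * D + 2 with hT
  set v₀ : ℕ := m * w * T + K + 1 with hv₀
  set C₁ : ℕ := m * w * K + U * w ^ 2 * m ^ 2 + K ^ 2 with hC₁
  set A : ℝ := β * C₁ + (U * cB + F) + (l * v₀ ^ 2 + β * v₀ ^ 2) + 1 with hA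
  have hA0 : 0 < A := by positivity
  have hA1 : β * C₁ ≤ A := by
    rw [hA]
    have : (0 : ℝ) ≤ (U * cB + F) + (l * v₀ ^ 2 + β * v₀ ^ 2) + 1 := by positivity
    linarith
  have hA2 : (U : ℝ) * cB + F ≤ A := by
    rw [hA]
    have : (0 : ℝ) ≤ β * C₁ + (l * v₀ ^ 2 + β * v₀ ^ 2) + 1 := by positivity
    linarith
  have hA3 : (l : ℝ) * v₀ ^ 2 ≤ A := by
    rw [hA]
    have : (0 : ℝ) ≤ β * C₁ + (U * cB + F) + β * v₀ ^ 2 + 1 := by positivity
    linarith
  have hA4 : β * (v₀ : ℝ) ^ 2 ≤ A := by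
    rw [hA]
    have : (0 : ℝ) ≤ β * C₁ + (U * cB + F) + l * v₀ ^ 2 + 1 := by positivity
    linarith
  refine ⟨A, max v1 2, hA0, le_max_right _ _, ?_⟩
  intro v
  induction v using Nat.strong_induction_on with
  | _ v ih =>
  intro hv hadm
  have hvv1 : v1 ≤ v := le_trans (le_max_left _ _) hv
  have hvv2 : 2 ≤ v := le_trans (le_max_right _ _) hv
  have herr1 : 1 ≤ err v := err_one hvv2
  by_cases hvs : v < v₀
  · obtain ⟨c, hc⟩ := nb_of_ks (hv1 v hvv1 l hl hadm)
    have hvs' : (v : ℝ) ≤ v₀ := by exact_mod_cast hvs.le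
    have hv0 : (0 : ℝ) ≤ v := Nat.cast_nonneg _
    have hAe : A ≤ A * err v := by nlinarith
    refine ⟨c, c, le_rfl, fun c' h1 h2 => ?_, ?_, ?_⟩
    · obtain rfl : c' = c := le_antisymm h2 h1
      exact hc
    · have h1 : (c : ℝ) ≤ (l : ℝ) * (v : ℝ) ^ 2 := by exact_mod_cast nb_bound hc
      have h2 : (l : ℝ) * (v : ℝ) ^ 2 ≤ (l : ℝ) * (v₀ : ℝ) ^ 2 := by
        apply mul_le_mul_of_nonneg_left _ (Nat.cast_nonneg _)
        exact pow_le_pow_left₀ hv0 hvs' 2
      have h3 : 0 ≤ lam * (C2 v : ℝ) := by positivity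
      linarith
    · have h1 : (C2 v : ℝ) ≤ (v₀ : ℝ) ^ 2 := by
        rw [C2_cast]
        nlinarith
      have h2 : β * (C2 v : ℝ) ≤ β * (v₀ : ℝ) ^ 2 := mul_le_mul_of_nonneg_left h1 hβ.le
      have h3 : (0 : ℝ) ≤ c := Nat.cast_nonneg _
      linarith
  · rw [not_lt] at hvs
    have hv0 : 0 < v := by omega
    obtain ⟨u, hu1, hu2, hu3, hu4⟩ := pick_u (U0 := U0) (by omega) hw0 hqp hqm (hmu v hv0 hadm)
    have huU : u ≤ U := hu2.le
    have hm1p : 0 < m - 1 := by omega
    have huK : (m - 1) * u + 1 ≤ K := by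
      have := Nat.mul_le_mul_left (m - 1) huU
      omega
    have hmw : 0 < m * w := Nat.mul_pos hmp.pos hw0
    obtain ⟨t, ht⟩ := (Nat.modEq_iff_dvd' (by omega : (m - 1) * u + 1 ≤ v)).1 hu3
    have hvt : v = m * w * t + (m - 1) * u + 1 := by omega
    have hvt' : v = m * (t * w) + (m - 1) * u + 1 := by
      rw [hvt]
      ring
    have htT : T ≤ t := by
      by_contra hcon
      have h1 : m * w * t ≤ m * w * T := Nat.mul_le_mul_left _ (not_le.1 hcon).le
      omega
    obtain ⟨n, hn⟩ := hu4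
    have hnn : n1 + v1 + Δ + 1 ≤ n := by
      have h1 : q * (n1 + v1 + Δ + 1) ≤ q * n := by
        rw [← hn]
        have h2 : u ≤ (m - 1) * u := Nat.le_mul_of_pos_left _ hm1p
        omega
      exact Nat.le_of_mul_le_mul_left h1 hqp.pos
    have hadmn : Adm k l n := log_adm hme hn
    obtain ⟨c, hc⟩ := nb_of_ks (hv1 n (by omega) l hl hadmn)
    have htw : t ≤ t * w := Nat.le_mul_of_pos_right _ hw0
    set x : ℕ := t * w + 1 with hx
    have hu0 : 1 ≤ u := by
      have h1 : 0 < U0 := Nat.mul_pos hqp.pos (by omega)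
      omega
    have hxv : m * x ≤ v := by
      have h1 : m * x = m * (t * w) + m := by
        rw [hx]
        ring
      have h2 : (m - 1) * 1 ≤ (m - 1) * u := Nat.mul_le_mul_left _ hu0
      omega
    have hxlt : x < v := by
      have h1 : 2 * x ≤ m * x := Nat.mul_le_mul_right _ (by omega)
      omega
    obtain ⟨ax, bx, hab, hint, hax, hbx⟩ := ih x hxlt (by
      rw [hx]
      exact max_le (by omega) (by omega)) (hwA t)
    have hut : u ≤ t := by omega
    set S0 : ℕ := t * (t - u) * (w ^ 2 * s0) + u * t * cB + (n * n * g + q * c) with hS0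
    have htu1 : t * 1 ≤ t * (t - u) := Nat.mul_le_mul_left _ (by omega)
    have hPQ : Δ * D + m ≤ t * (t - u) * Δ := by
      have h1 : t * (t - u) * 1 ≤ t * (t - u) * Δ := Nat.mul_le_mul_left _ hΔp
      omega
    refine ⟨S0 + m * ax + Δ * D, S0 + m * bx + t * (t - u) * Δ, ?_, ?_, ?_, ?_⟩
    · have := Nat.mul_le_mul_left m hab
      omega
    · intro b hb1 hb2
      obtain ⟨ct, hct1, hct2, hct3, hct4⟩ := log_pick hab hPQ hb1 hb2
      obtain ⟨i, j, hi, hj, hb⟩ := int_rep hΔp hDΔ hct3 hct4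
      have hjn : j ≤ n * n := by
        have h1 : Δ ≤ n := by omega
        have h2 : n ≤ n * n := Nat.le_mul_of_pos_left _ (by omega)
        omega
      have hfill := hole_fill hqp.two_le (hn1 n (by omega)) hg hgD hc hjn
      rw [← hn, mul_comm (m - 1) u] at hfill
      have hfin := fixed_design (by omega) (by omega) hut (hn2 t (by omega)) hwT hs0 hs1 hs01.le
        hcB hi (hint ct hct1 hct2) hfill
      have ev : m * (t * w) + u * (m - 1) + 1 = v := by
        rw [hvt]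
        ring
      rw [ev] at hfin
      refine DC.cast hfin ?_
      rw [hb, hS0, hΔ]
      ring
    · have hnK : n ≤ K := by
        have h3 : n ≤ q * n := Nat.le_mul_of_pos_left _ hqp.pos
        omega
      have hcb : c ≤ l * K ^ 2 :=
        (nb_bound hc).trans (Nat.mul_le_mul_left _ (Nat.pow_le_pow_left hnK 2))
      have f1 : n * n * g + q * c + Δ * D ≤ F := by
        have h1 : n * n * g ≤ K * K * g := Nat.mul_le_mul_right _ (Nat.mul_le_mul hnK hnK)
        have h2 : q * c ≤ q * (l * K ^ 2) := Nat.mul_le_mul_left _ hcb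
        omega
      have f2 : u * t * cB ≤ U * cB * t := by
        calc u * t * cB ≤ U * t * cB := Nat.mul_le_mul_right _ (Nat.mul_le_mul_right _ huU)
          _ = U * cB * t := by ring
      have f1' : (n : ℝ) * n * g + q * c + Δ * D ≤ F := by exact_mod_cast f1
      have f2' : (u : ℝ) * t * cB ≤ U * cB * t := by exact_mod_cast f2
      have ht1 : (1 : ℝ) ≤ t := by
        have : 1 ≤ t := by omega
        exact_mod_cast this
      have f3 := c2_lower (m := m) (w := w) (t := t) (u := u) (v := v) (by omega) hvt'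
      have f4 := err_gain (by omega : 2 ≤ m) (by omega : 1 ≤ x) hxv
      have f5 : (t : ℝ) ≤ x := by
        have : t ≤ x := by omega
        exact_mod_cast this
      have f6 : lam * ((t : ℝ) * ((t : ℝ) - u) * ((w : ℝ) ^ 2 * (C2 m : ℝ)) +
          (m : ℝ) * (C2 x : ℝ)) ≤ lam * (C2 v : ℝ) := mul_le_mul_of_nonneg_left f3 hlam0
      have f7 : (m : ℝ) * ax ≤ m * (lam * (C2 x : ℝ) + A * err x) :=
        mul_le_mul_of_nonneg_left hax (Nat.cast_nonneg _)
      have f8 : A * ((m : ℝ) * err x + t) ≤ A * err v :=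
        mul_le_mul_of_nonneg_left (by linarith) hA0.le
      have f9 : (U : ℝ) * cB * t + F ≤ A * t := by
        have h1 : (F : ℝ) ≤ F * t := le_mul_of_one_le_right (Nat.cast_nonneg _) ht1
        have h2 : ((U : ℝ) * cB + F) * t ≤ A * t := mul_le_mul_of_nonneg_right hA2 (by linarith)
        linarith
      rw [hS0]
      push_cast [Nat.cast_sub hut]
      rw [e0]
      linarith
    · have ht1 : (1 : ℝ) ≤ t := by
        have : 1 ≤ t := by omega
        exact_mod_cast this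
      have f3 := c2_upper (m := m) (w := w) (t := t) (u := u) (U := U) (K := K) (v := v)
        (by omega) (by omega) hut huU rfl hvt'
      have f4 := err_gain (by omega : 2 ≤ m) (by omega : 1 ≤ x) hxv
      have f5 : (t : ℝ) ≤ x := by
        have : t ≤ x := by omega
        exact_mod_cast this
      have f6 := mul_le_mul_of_nonneg_left f3 hβ.le
      have f7 : m * (β * (C2 x : ℝ) - A * err x) ≤ (m : ℝ) * bx :=
        mul_le_mul_of_nonneg_left hbx (Nat.cast_nonneg _)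
      have f8 : A * ((m : ℝ) * err x + t) ≤ A * err v :=
        mul_le_mul_of_nonneg_left (by linarith) hA0.le
      have f9 : β * (C₁ * t) ≤ A * t := by
        have h2 : (β * C₁) * t ≤ A * t := mul_le_mul_of_nonneg_right hA1 (by linarith)
        linarith
      have f10 : (((t * (t - u) * (w ^ 2 * s0) + t * (t - u) * Δ : ℕ)) : ℝ) =
          t * (t - u) * (w ^ 2 * s1) := by
        have h1 : w ^ 2 * s0 + Δ = w ^ 2 * s1 := by
          obtain ⟨d, hd⟩ := Nat.exists_eq_add_of_le hs01.le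
          rw [hΔ, hd, Nat.add_sub_cancel_left]
          ring
        rw [← mul_add, h1]
        push_cast [Nat.cast_sub hut]
        ring
      have f11 : (((S0 + m * bx + t * (t - u) * Δ : ℕ)) : ℝ) =
          t * (t - u) * (w ^ 2 * s1) + u * t * cB + (n * n * g + q * c) + m * bx := by
        rw [← f10, hS0]
        push_cast
        ring
      have f12 : (0 : ℝ) ≤ u * t * cB + (n * n * g + q * c) := by positivity
      rw [f11, e1]
      linarith

/-- Between the two ends, up to an error `A v log v`, all numbers are numbers of blocks. -/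
theorem fixedLog (k l : ℕ) (hk : 3 ≤ k) (hl : 2 ≤ l) :
    ∃ A : ℝ, 0 < A ∧ ∀ v, 2 ≤ v → Adm k l v → ∀ c : ℕ,
      (l : ℝ) / (C2 k : ℝ) * (C2 v : ℝ) + A * err v ≤ c →
      (c : ℝ) ≤ beta k l * (C2 v : ℝ) - A * err v → NB k l v c := by
  obtain ⟨A, v₁, hA, hv₁, h⟩ := fixedIv k l hk hl
  have hβ : 0 ≤ beta k l :=
    le_trans (by positivity : (0 : ℝ) ≤ (l : ℝ) / (C2 k : ℝ)) (beta_gt k l hk hl).le
  refine ⟨A + beta k l * (v₁ : ℝ) ^ 2 + 1, by positivity, fun v hv hadm c hc1 hc2 => ?_⟩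
  have herr : 1 ≤ err v := err_one hv
  by_cases hvv : v₁ ≤ v
  · obtain ⟨a, b, -, hint, ha, hb⟩ := h v hvv hadm
    have h1 : A * err v ≤ (A + beta k l * (v₁ : ℝ) ^ 2 + 1) * err v := by
      apply mul_le_mul_of_nonneg_right _ (by linarith)
      have : 0 ≤ beta k l * (v₁ : ℝ) ^ 2 := by positivity
      linarith
    refine hint c ?_ ?_
    · have : (a : ℝ) ≤ c := by linarith
      exact_mod_cast this
    · have : (c : ℝ) ≤ b := by linarith
      exact_mod_cast this
  · exfalso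
    rw [not_le] at hvv
    have h1 : (C2 v : ℝ) ≤ (v₁ : ℝ) ^ 2 := by
      rw [C2_cast]
      have h2 : (v : ℝ) ≤ v₁ := by exact_mod_cast hvv.le
      have h3 : (0 : ℝ) ≤ v := Nat.cast_nonneg _
      nlinarith
    have h2 : beta k l * (C2 v : ℝ) ≤ beta k l * (v₁ : ℝ) ^ 2 := mul_le_mul_of_nonneg_left h1 hβ
    have h3 : A + beta k l * (v₁ : ℝ) ^ 2 + 1 ≤ (A + beta k l * (v₁ : ℝ) ^ 2 + 1) * err v := by
      have : 0 ≤ A + beta k l * (v₁ : ℝ) ^ 2 + 1 := by positivity
      nlinarith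
    have h4 : (0 : ℝ) ≤ c := Nat.cast_nonneg _
    linarith

end Pool.Agent.Helper53.BN
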