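import Pool.Agent.Helper53.BN.Sym
import Pool.Agent.Helper53.BN.PairFill
import Pool.Agent.Helper53.BN.Mid

/-!
Project BN: a fixed number `v` of points and large `l`.

Proof of `fixedV`. Let `C = C2 v > 0`, `Q = QQ v k`, `(l₀, b₀)` from `nb_sym` (so
`b₀ Q = l₀ C`, `l₀` even), `K = 2 (k - 3) (k - 4) + (k - 1)`. Let `(μ, μ') = (0, 0)` if `k` is even
or `l` is even (`nb_nil`), and `(μ, μ') = (2 (k - 2) + 1, C)` otherwise (then `v` is odd by
`Adm`, `nb_mid`). So `NB k μ v μ'`, `k` even or `l - μ` even, `μ ≤ 2 k`, `μ' ≤ C`.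

Let `n` be the largest number with `P n`: `n l₀ + μ ≤ l`, `n b₀ + μ' ≤ b`, and
`(k - 1) (b - n b₀ - μ') + K C ≤ (l - n l₀ - μ) C` (write it without subtraction). `P 0` holds if
`l` is large. Let `l' = l - n l₀ - μ`, `b' = b - n b₀ - μ'`, `L' = 2 (k - 2) (l₀ + K + k)`.

(1) `L' ≤ l'`: otherwise `(k - 1) b' ≤ l' C`, so `b' ≤ L' C` and
`b Q = n l₀ C + (μ' + b') Q ≤ l C + (1 + L') C Q`, but `b Q ≥ (1 + ε) l C`, a contradiction if
`ε l > (1 + L') Q`.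
(2) `b₀ ≤ b'`: `b' Q ≥ (1 + ε) l C - n l₀ C - μ' Q ≥ ε l C - C Q ≥ b₀ Q` if `l` is large.
(3) As `P (n + 1)` fails, `(k - 1) (b' - b₀) + K C > (l' - l₀) C`, hence
`(k - 1) b' ≥ l' C - (l₀ + K) C`, and `(l' + 2 (k - 2)) C ≤ 2 (k - 2) b'` follows after
multiplication with `k - 1` from `(k - 3) l' ≥ 2 (k - 2) (l₀ + K) + 2 (k - 1) (k - 2)`, true by (1).
(4) `pair_range` gives `NB k l' v b'`; `nb_mul`, `nb_add`.
-/

set_option autoImplicit false

namespace Pool.Agent.Helper53.BN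

open Pool.Agent.Helper69.WV

private theorem C2_pos' {v : ℕ} (hv : 2 ≤ v) : 1 ≤ C2 v := by
  unfold C2
  have h1 : 2 * 1 ≤ v * (v - 1) := Nat.mul_le_mul hv (by omega)
  omega

/-- The induction along `n` and the choice of the last good `n`. -/
private theorem fixedV_aux {k l v b l₀ b₀ μ μ' C Q K : ℕ} (hk : 4 ≤ k)
    (hC : C = C2 v) (hC1 : 1 ≤ C) (hQ1 : 1 ≤ Q)
    (hK : K = 2 * ((k - 3) * (k - 4)) + (k - 1))
    (hl₀ : 0 < l₀) (hl₀e : Even l₀) (hN₀ : NB k l₀ v b₀) (hQ : b₀ * Q = l₀ * C)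
    (hμ : NB k μ v μ') (hμ' : μ' ≤ C) (hμl : μ ≤ l)
    (hpar : Even k ∨ Even (l - μ)) (hμb : μ' ≤ b)
    (h0 : (k - 1) * b + K * C + μ * C ≤ l * C)
    (h1 : l * C + (1 + 2 * (k - 2) * (l₀ + K + k)) * Q * C < b * Q)
    (h2 : l * C + (C * Q + b₀ * Q) ≤ b * Q) : NB k l v b := by
  let P : ℕ → Prop := fun n => ∃ l' b', l = n * l₀ + μ + l' ∧ b = n * b₀ + μ' + b' ∧
    (k - 1) * b' + K * C ≤ l' * C
  have hP0 : P 0 := by
    refine ⟨l - μ, b - μ', by omega, by omega, ?_⟩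
    have h3 : (k - 1) * (b - μ') ≤ (k - 1) * b := Nat.mul_le_mul_left _ (Nat.sub_le _ _)
    have h4 : l * C = (l - μ) * C + μ * C := by
      rw [← Nat.add_mul]
      congr 1
      omega
    omega
  have hPn : ∃ n, P n ∧ ¬ P (n + 1) := by
    by_contra hcon
    push Not at hcon
    have hall : ∀ n, P n := fun n => by
      induction n with
      | zero => exact hP0
      | succ n ih => exact hcon n ih
    obtain ⟨l', b', h3, -, -⟩ := hall (l + 1)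
    have h4 : l + 1 ≤ (l + 1) * l₀ := Nat.le_mul_of_pos_right _ hl₀
    omega
  obtain ⟨n, ⟨l', b', hl, hb, hlb⟩, hn1⟩ := hPn
  have hbQ : b * Q = n * l₀ * C + μ' * Q + b' * Q := by
    rw [hb]
    have : n * b₀ * Q = n * l₀ * C := by rw [mul_assoc, hQ, mul_assoc]
    calc (n * b₀ + μ' + b') * Q = n * b₀ * Q + μ' * Q + b' * Q := by ring
      _ = _ := by rw [this]
  have hlC : l * C = n * l₀ * C + μ * C + l' * C := by
    rw [hl]
    ring
  have hμQ : μ' * Q ≤ C * Q := Nat.mul_le_mul_right _ hμ'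
  -- (1)
  have hL : 2 * (k - 2) * (l₀ + K + k) ≤ l' := by
    by_contra hcon
    push Not at hcon
    have h3 : b' ≤ (k - 1) * b' := Nat.le_mul_of_pos_left _ (by omega)
    have h4 : l' * C ≤ (2 * (k - 2) * (l₀ + K + k)) * C := Nat.mul_le_mul_right _ hcon.le
    have h5 : b' ≤ (2 * (k - 2) * (l₀ + K + k)) * C := by omega
    have h6 : b' * Q ≤ (2 * (k - 2) * (l₀ + K + k)) * C * Q := Nat.mul_le_mul_right _ h5
    have h7 : (1 + 2 * (k - 2) * (l₀ + K + k)) * Q * C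
        = C * Q + (2 * (k - 2) * (l₀ + K + k)) * C * Q := by ring
    omega
  -- (2)
  have hb₀ : b₀ ≤ b' := by
    have h3 : b₀ * Q ≤ b' * Q := by omega
    exact Nat.le_of_mul_le_mul_right h3 (by omega)
  -- (3)
  have hl₀' : l₀ ≤ l' := by
    have h3 : l₀ + K + k ≤ 2 * (k - 2) * (l₀ + K + k) :=
      Nat.le_mul_of_pos_left _ (by omega)
    omega
  have h3 : l' * C ≤ (k - 1) * b' + (l₀ + K) * C := by
    by_contra hcon
    push Not at hcon
    refine hn1 ⟨l' - l₀, b' - b₀, ?_, ?_, ?_⟩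
    · rw [hl, Nat.succ_mul]
      omega
    · rw [hb, Nat.succ_mul]
      omega
    · have h4 : (k - 1) * (b' - b₀) ≤ (k - 1) * b' := Nat.mul_le_mul_left _ (Nat.sub_le _ _)
      have h5 : l' * C = (l' - l₀) * C + l₀ * C := by
        rw [← Nat.add_mul]
        congr 1
        omega
      have h6 : (l₀ + K) * C = l₀ * C + K * C := by ring
      omega
  have h4 : (l' + 2 * (k - 2)) * C ≤ 2 * (k - 2) * b' := by
    refine Nat.le_of_mul_le_mul_left (c := k - 1) ?_ (by omega)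
    obtain ⟨j, rfl⟩ : ∃ j, k = j + 4 := ⟨k - 4, by omega⟩
    have e1 : j + 4 - 1 = j + 3 := rfl
    have e2 : j + 4 - 2 = j + 2 := rfl
    rw [e1, e2] at *
    have h5 : 2 * (j + 2) * (l' * C) ≤ 2 * (j + 2) * ((j + 3) * b' + (l₀ + K) * C) :=
      Nat.mul_le_mul_left _ h3
    have h6 : 2 * (j + 2) * (l₀ + K + (j + 4)) * C ≤ l' * C := Nat.mul_le_mul_right _ hL
    have h7 : 0 ≤ j * (l' * C) := Nat.zero_le _
    nlinarith [h5, h6, h7]
  have hpar' : Even k ∨ Even l' := by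
    refine hpar.imp id fun h => ?_
    have h5 : l - μ = n * l₀ + l' := by omega
    rw [h5] at h
    exact (Nat.even_add.1 h).1 (hl₀e.mul_left n)
  have h5 : NB k l' v b' := by
    refine pair_range hk hpar' ?_ ?_
    · rw [← hC]
      exact h4
    · rw [← hC, ← hK]
      exact hlb
  have h6 := nb_add (nb_add (nb_mul hN₀ n) hμ) h5
  rw [hl, hb]
  exact h6

theorem fixedV (k v : ℕ) (hk : 4 ≤ k) (hv : 2 ≤ v) (ε : ℝ) (hε : 0 < ε) :
    ∃ L : ℕ, ∀ l, L ≤ l → Adm k l v → ∀ b : ℕ,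
      (1 + ε) * ((l : ℝ) * (C2 v : ℝ)) ≤ (b : ℝ) * (QQ v k : ℝ) →
      (b : ℝ) * ((k : ℝ) - 1) ≤ (1 - ε) * ((l : ℝ) * (C2 v : ℝ)) → NB k l v b := by
  obtain ⟨C, hC⟩ : ∃ C, C = C2 v := ⟨_, rfl⟩
  obtain ⟨Q, hQ⟩ : ∃ Q, Q = QQ v k := ⟨_, rfl⟩
  obtain ⟨K, hK⟩ : ∃ K, K = 2 * ((k - 3) * (k - 4)) + (k - 1) := ⟨_, rfl⟩
  obtain ⟨l₀, b₀, hl₀, hl₀e, -, hN₀, hbQ⟩ := nb_sym k v hk hv
  rw [← hC, ← hQ] at hbQ
  have hC1 : 1 ≤ C := hC ▸ C2_pos' hv
  have hQ1 : 1 ≤ Q := by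
    rcases Nat.eq_zero_or_pos Q with h | h
    · rw [h, mul_zero] at hbQ
      have : 0 < l₀ * C := Nat.mul_pos hl₀ hC1
      omega
    · exact h
  obtain ⟨M, hM⟩ : ∃ M, M = K + 2 * k + (1 + 2 * (k - 2) * (l₀ + K + k)) * Q + (Q + b₀ * Q) + 1 :=
    ⟨_, rfl⟩
  refine ⟨max (2 * k + Q) ⌈(M : ℝ) / ε⌉₊, fun l hl hadm b hb1 hb2 => ?_⟩
  rw [← hC, ← hQ] at hb1
  rw [← hC] at hb2
  have hl1 : 2 * k + Q ≤ l := (le_max_left _ _).trans hl
  have hl2 : (M : ℝ) ≤ ε * l := by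
    have h3 : (M : ℝ) / ε ≤ l := (Nat.le_ceil _).trans (by exact_mod_cast (le_max_right _ _).trans hl)
    rw [div_le_iff₀ hε] at h3
    linarith
  have hCr : (1 : ℝ) ≤ C := by exact_mod_cast hC1
  -- consequences as inequalities of natural numbers
  have hMC : (M : ℝ) * C ≤ ε * ((l : ℝ) * C) := by
    have := mul_le_mul_of_nonneg_right hl2 (show (0 : ℝ) ≤ C by positivity)
    linarith
  have g1 : l * C + M * C ≤ b * Q := by
    have : ((l * C + M * C : ℕ) : ℝ) ≤ ((b * Q : ℕ) : ℝ) := by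
      push_cast
      linarith
    exact_mod_cast this
  have g2 : (k - 1) * b + M * C ≤ l * C := by
    have h3 : ((k - 1 : ℕ) : ℝ) = (k : ℝ) - 1 := by
      rw [Nat.cast_sub (by omega)]
      simp
    have : (((k - 1) * b + M * C : ℕ) : ℝ) ≤ ((l * C : ℕ) : ℝ) := by
      push_cast
      rw [h3]
      linarith
    exact_mod_cast this
  obtain ⟨X, hX⟩ : ∃ X, X = (1 + 2 * (k - 2) * (l₀ + K + k)) * Q := ⟨_, rfl⟩
  rw [← hX] at hM
  have hMC' : M * C = K * C + 2 * k * C + X * C + (Q * C + b₀ * Q * C) + C := by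
    rw [hM]
    ring
  have hb₀C : b₀ * Q ≤ b₀ * Q * C := Nat.le_mul_of_pos_right _ hC1
  have hQC : Q * C = C * Q := mul_comm _ _
  have hmu : ∃ μ μ', NB k μ v μ' ∧ μ' ≤ C ∧ μ ≤ 2 * k ∧ (Even k ∨ Even (l - μ)) := by
    by_cases h : Even k ∨ Even l
    · exact ⟨0, 0, nb_nil k v, Nat.zero_le _, Nat.zero_le _, by simpa using h⟩
    · push Not at h
      obtain ⟨hk1, hl3⟩ := h
      rw [Nat.not_even_iff_odd] at hk1 hl3
      have hv1 : Odd v := by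
        rcases hadm with h | h
        · exact absurd h (Nat.not_even_iff_odd.2 hk1)
        · rcases Nat.even_mul.1 h with h | h
          · exact absurd h (Nat.not_even_iff_odd.2 hl3)
          · obtain ⟨r, hr⟩ := h
            exact ⟨r, by omega⟩
      refine ⟨2 * (k - 2) + 1, C, hC ▸ nb_mid (by omega) hv1, le_rfl, by omega, Or.inr ?_⟩
      obtain ⟨r, hr⟩ := hl3
      exact ⟨r - (k - 2), by omega⟩
  obtain ⟨μ, μ', hμ, hμC, hμk, hpar⟩ := hmu
  have hμ2 : μ * C ≤ 2 * k * C := Nat.mul_le_mul_right _ hμk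
  have hCb : C ≤ b := by
    have h3 : C * Q ≤ b * Q := by omega
    exact Nat.le_of_mul_le_mul_right h3 (by omega)
  refine fixedV_aux hk hC hC1 hQ1 hK hl₀ hl₀e hN₀ hbQ hμ hμC (by omega) hpar (hμC.trans hCb) ?_ ?_ ?_
  · omega
  · rw [← hX]
    omega
  · omega

end Pool.Agent.Helper53.BN
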