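import Pool.Agent.Helper53.BN.FixedLog
import Pool.Agent.Helper53.BN.LargeL
import Pool.Agent.Helper53.BN.Closure
import Pool.Agent.Helper53.BN.Link

/-!
Project BN: all `v ≥ 2` and all `l ≥ 2`, with the error `min (c C(v,2)) (A_l v log v)`.
-/

set_option autoImplicit false

namespace Pool.Agent.Helper53.BN

open Pool.Agent.Helper69.WV Pool.Agent.Helper52.VB Pool.Agent.Helper69.QB

theorem c2_ne {v : ℕ} (hv : 2 ≤ v) : 0 < C2 v := by
  unfold C2
  obtain ⟨w, rfl⟩ : ∃ w, v = w + 2 := ⟨v - 2, by omega⟩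
  rw [Nat.div_pos_iff]
  refine ⟨by norm_num, ?_⟩
  have h : w + 2 - 1 = w + 1 := by omega
  rw [h]
  nlinarith

theorem four (k : ℕ) (hk : 4 ≤ k) :
    ∃ c : ℝ, 0 < c ∧ ∀ l : ℕ, 2 ≤ l → ∃ A : ℝ, 0 < A ∧ ∀ v : ℕ, 2 ≤ v → Adm k l v → ∀ b : ℕ,
      (l : ℝ) * (C2 v : ℝ) + min (c * (C2 v : ℝ)) (A * err v) ≤ (b : ℝ) * (QQ v k : ℝ) →
      (b : ℝ) ≤ beta k l * (C2 v : ℝ) - min (c * (C2 v : ℝ)) (A * err v) → NB k l v b := by
  obtain ⟨l₀, hl₀, he, hmin⟩ := minimal_all k hk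
  obtain ⟨c₀, hc₀⟩ := largeL k hk l₀ hl₀ he hmin
  set c : ℝ := (c₀ : ℝ) + 1 with hc
  have hcpos : 0 < c := by positivity
  refine ⟨c, hcpos, fun l hl => ?_⟩
  obtain ⟨A, hA, hfix⟩ := fixedLog k l (by omega) hl
  have hkk : (3 : ℝ) ≤ (k : ℝ) - 1 := by
    have : (4 : ℝ) ≤ (k : ℝ) := by exact_mod_cast hk
    linarith
  have hCk : 0 < C2 k := c2_ne (by omega)
  have hCk' : (1 : ℝ) ≤ (C2 k : ℝ) := by exact_mod_cast hCk
  set A' : ℝ := A * (C2 k : ℝ) + c * (k : ℝ) ^ 2 with hA'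
  have hA'0 : 0 < A' := by positivity
  refine ⟨A', hA'0, fun v hv hadm b hb1 hb2 => ?_⟩
  have hC : 0 < C2 v := c2_ne hv
  have hC' : (0 : ℝ) < (C2 v : ℝ) := by exact_mod_cast hC
  have herr : 1 ≤ err v := err_one hv
  -- the first case: the error `c C(v,2)`
  have hcase : (l : ℝ) * (C2 v : ℝ) + c * (C2 v : ℝ) ≤ (b : ℝ) * (QQ v k : ℝ) →
      (b : ℝ) ≤ beta k l * (C2 v : ℝ) - c * (C2 v : ℝ) → NB k l v b := by
    intro h1 h2
    apply hc₀ v l b hv hadm
    · have h3 : ((l : ℝ) + c₀) * (C2 v : ℝ) ≤ (b : ℝ) * (QQ v k : ℝ) := by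
        have h4 : (c₀ : ℝ) * (C2 v : ℝ) ≤ c * (C2 v : ℝ) :=
          mul_le_mul_of_nonneg_right (by rw [hc]; linarith) hC'.le
        linarith
      exact_mod_cast h3
    · have h5 : beta k l * (C2 v : ℝ) ≤ (l : ℝ) / ((k : ℝ) - 1) * (C2 v : ℝ) :=
        mul_le_mul_of_nonneg_right (beta_le k l (by omega)) hC'.le
      have h8 : ((k : ℝ) - 1) * b ≤
          ((k : ℝ) - 1) * ((l : ℝ) / ((k : ℝ) - 1) * (C2 v : ℝ) - c * (C2 v : ℝ)) :=
        mul_le_mul_of_nonneg_left (by linarith) (by linarith)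
      have h9 : ((k : ℝ) - 1) * ((l : ℝ) / ((k : ℝ) - 1) * (C2 v : ℝ) - c * (C2 v : ℝ)) =
          (l : ℝ) * (C2 v : ℝ) - ((k : ℝ) - 1) * (c * (C2 v : ℝ)) := by
        have : (k : ℝ) - 1 ≠ 0 := by linarith
        field_simp
      have h10 : (c₀ : ℝ) * (C2 v : ℝ) ≤ ((k : ℝ) - 1) * (c * (C2 v : ℝ)) := by
        have h12 : (c₀ : ℝ) * (C2 v : ℝ) ≤ c * (C2 v : ℝ) :=
          mul_le_mul_of_nonneg_right (by rw [hc]; linarith) hC'.le
        have h13 : 0 ≤ c * (C2 v : ℝ) := by positivity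
        nlinarith
      have h11 : (((k - 1 : ℕ) : ℝ)) * b + c₀ * (C2 v : ℝ) ≤ (l : ℝ) * (C2 v : ℝ) := by
        rw [Nat.cast_sub (by omega : 1 ≤ k), Nat.cast_one]
        linarith
      exact_mod_cast h11
  rcases le_total (c * (C2 v : ℝ)) (A' * err v) with hle | hle
  · rw [min_eq_left hle] at hb1 hb2
    exact hcase hb1 hb2
  · rw [min_eq_right hle] at hb1 hb2
    by_cases hvk : v < k
    · -- here the two errors are equal
      have h1 : (C2 v : ℝ) ≤ (k : ℝ) ^ 2 := by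
        rw [C2_cast]
        have h2 : (v : ℝ) ≤ k := by exact_mod_cast hvk.le
        have h3 : (0 : ℝ) ≤ v := Nat.cast_nonneg _
        nlinarith
      have h2 : c * (C2 v : ℝ) ≤ c * (k : ℝ) ^ 2 := mul_le_mul_of_nonneg_left h1 hcpos.le
      have h3 : c * (k : ℝ) ^ 2 ≤ A' := by
        rw [hA']
        have : 0 ≤ A * (C2 k : ℝ) := by positivity
        linarith
      have h4 : A' ≤ A' * err v := by nlinarith
      have h5 : A' * err v = c * (C2 v : ℝ) := le_antisymm hle (by linarith)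
      rw [h5] at hb1 hb2
      exact hcase hb1 hb2
    · rw [not_lt] at hvk
      rw [qq_large (by omega) hvk] at hb1
      have h1 : A * (C2 k : ℝ) ≤ A' := by
        rw [hA']
        have : 0 ≤ c * (k : ℝ) ^ 2 := by positivity
        linarith
      have h2 : A * (C2 k : ℝ) * err v ≤ A' * err v :=
        mul_le_mul_of_nonneg_right h1 (by linarith)
      have h3 : A * err v ≤ A * (C2 k : ℝ) * err v := by
        have h4 : 0 ≤ A * err v := by positivity
        nlinarith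
      refine hfix v hv hadm b ?_ ?_
      · have h5 : ((l : ℝ) / (C2 k : ℝ) * (C2 v : ℝ) + A * err v) * (C2 k : ℝ) =
            (l : ℝ) * (C2 v : ℝ) + A * (C2 k : ℝ) * err v := by
          have : (C2 k : ℝ) ≠ 0 := by linarith
          field_simp
        have h6 : ((l : ℝ) / (C2 k : ℝ) * (C2 v : ℝ) + A * err v) * (C2 k : ℝ) ≤
            (b : ℝ) * (C2 k : ℝ) := by
          rw [h5]
          linarith
        exact le_of_mul_le_mul_right h6 (by linarith)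
      · linarith

end Pool.Agent.Helper53.BN
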