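import Pool.Agent.Helper53.BN.Defs

/-!
Project BN: inflation with the numbers of blocks.

`oa_card`: an orthogonal array with at least two columns over `Fin m` has `m ^ 2` rows (the map
`g ↦ (g 0, g 1)` is a bijection onto `Fin m × Fin m`).
`inflC`: copy of `Helper69/WV/Inflate.lean`; the index set is `ι × B`, so the number of blocks is
`c * m ^ 2`.
-/

set_option autoImplicit false

namespace Pool.Agent.Helper53.BN

open Pool.Agent.Helper69.WV

theorem oa_card {k m : ℕ} (hk : 2 ≤ k) (B : Set (Fin k → Fin m))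
    (hB : ∀ i j, i ≠ j → ∀ a b, ∃! f, f ∈ B ∧ f i = a ∧ f j = b) : Nat.card ↥B = m ^ 2 := by
  set i0 : Fin k := ⟨0, by omega⟩ with hi0
  set i1 : Fin k := ⟨1, by omega⟩ with hi1
  have h01 : i0 ≠ i1 := by
    intro h
    have := congrArg Fin.val h
    simp [hi0, hi1] at this
  have h1 : Nat.card ↥B = Nat.card (Fin m × Fin m) := by
    refine Nat.card_eq_of_bijective (fun g : ↥B => (g.1 i0, g.1 i1)) ⟨?_, ?_⟩
    · rintro ⟨g, hg⟩ ⟨g', hg'⟩ h
      simp only [Prod.mk.injEq] at h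
      exact Subtype.ext ((hB i0 i1 h01 (g' i0) (g' i1)).unique ⟨hg, h.1, h.2⟩ ⟨hg', rfl, rfl⟩)
    · rintro ⟨a, b⟩
      obtain ⟨g, ⟨hg, ha, hb⟩, -⟩ := hB i0 i1 h01 a b
      exact ⟨⟨g, hg⟩, Prod.ext ha hb⟩
  rw [h1, Nat.card_eq_fintype_card, Fintype.card_prod, Fintype.card_fin, sq]

theorem inflC {k l c m : ℕ} (hk : 2 ≤ k) {V I : Type} {γ : V → I} (hD : DC k l c γ)
    (hT : TD k m) : DC k l (m ^ 2 * c) (fun p : V × Fin m => γ p.1) := by
  obtain ⟨ι, hι, f, h1, h2, h3, h4⟩ := hD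
  obtain ⟨B, hB⟩ := hT
  choose ρ hρ using fun b => inflate_pos (f b) (h1 b)
  have hfin : Finite ↥B := inferInstance
  refine ⟨ι × ↥B, inferInstance, fun b i => (f b.1 i, b.2.1 (ρ b.1 (f b.1 i))), ?_, ?_, ?_, ?_⟩
  · rintro ⟨b, g⟩
    obtain ⟨i, j, hij⟩ := h1 b
    exact ⟨i, j, fun h => hij (congrArg Prod.fst h)⟩
  · rintro ⟨x, s⟩ ⟨y, t⟩ hxy
    have hxy' : γ x ≠ γ y := hxy
    have hne : x ≠ y := fun h => hxy' (congrArg γ h)
    rw [← h2 x y hxy']
    unfold cc
    refine Nat.card_eq_of_bijective (fun p => ⟨(p.1.1.1, p.1.2.1, p.1.2.2),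
      congrArg Prod.fst p.2.1, congrArg Prod.fst p.2.2⟩) ⟨?_, ?_⟩
    · rintro ⟨⟨⟨b, g⟩, i, j⟩, hp1, hp2⟩ ⟨⟨⟨b', g'⟩, i', j'⟩, hq1, hq2⟩ h
      have hb : b = b' := congrArg (fun p => p.1.1) h
      have hi : i = i' := congrArg (fun p => p.1.2.1) h
      have hj : j = j' := congrArg (fun p => p.1.2.2) h
      subst hb hi hj
      have a1 : f b i = x := congrArg Prod.fst hp1
      have a2 : g.1 (ρ b (f b i)) = s := congrArg Prod.snd hp1
      have b1 : f b j = y := congrArg Prod.fst hp2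
      have b2 : g.1 (ρ b (f b j)) = t := congrArg Prod.snd hp2
      have c2 : g'.1 (ρ b (f b i)) = s := congrArg Prod.snd hq1
      have d2 : g'.1 (ρ b (f b j)) = t := congrArg Prod.snd hq2
      have hρne : ρ b x ≠ ρ b y := by
        intro h
        have e1 := hρ b i
        have e2 := hρ b j
        rw [a1] at e1
        rw [b1] at e2
        rw [h, e2] at e1
        exact hne e1.symm
      rw [a1] at a2
      rw [b1] at b2
      rw [a1] at c2
      rw [b1] at d2
      have := (hB _ _ hρne s t).unique ⟨g.2, a2, b2⟩ ⟨g'.2, c2, d2⟩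
      have hg : g = g' := Subtype.ext this
      subst hg
      rfl
    · rintro ⟨⟨b, i, j⟩, a1, b1⟩
      simp only at a1 b1
      have hρne : ρ b x ≠ ρ b y := by
        intro h
        have e1 := hρ b i
        have e2 := hρ b j
        rw [a1] at e1
        rw [b1] at e2
        rw [h, e2] at e1
        exact hne e1.symm
      obtain ⟨g, ⟨hg, hgs, hgt⟩, -⟩ := hB _ _ hρne s t
      refine ⟨⟨((b, ⟨g, hg⟩), i, j), ?_, ?_⟩, rfl⟩
      · simp only [a1, hgs]
      · simp only [b1, hgt]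
  · rintro ⟨x, s⟩ ⟨y, t⟩ hne hγ
    have hγ' : γ x = γ y := hγ
    refine cc_eq_zero _ _ _ ?_
    rintro ⟨b, g⟩ i j e1 e2
    simp only [Prod.mk.injEq] at e1 e2
    by_cases hxy : x = y
    · subst hxy
      rw [e1.1] at e1
      rw [e2.1] at e2
      exact hne (by rw [← e1.2, ← e2.2])
    · exact inflate_no f x y (h3 x y hxy hγ') b i j e1.1 e2.1
  · rw [Nat.card_prod, h4, oa_card hk B hB, mul_comm]

/-- A design on `m` points gives a group divisible design with `m` groups of size `w`. -/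
theorem nr_of_nb {k l c m w : ℕ} (hk : 2 ≤ k) (h : NB k l m c) (hT : TD k w) :
    NR k l w m (w ^ 2 * c) := by
  have := inflC hk h hT
  exact this

end Pool.Agent.Helper53.BN
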