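import Pool.Agent.Helper53.BN.Defs

/-!
Project BN: from a fixed `l` to all `l`, for large `v`.

`Iv k l v A B`: every `b` with `A ≤ b ≤ B` is a number of blocks (and `A ≤ B`).
`Iv.add`: a number in `[A + A', B + B']` is a sum of numbers of `[A, B]` and `[A', B']`.
`Iv.mul`: induction (`nb_nil`).

Proof of `largeV`. We may assume `ε ≤ 1 / 2` (replace `ε` by `min ε (1 / 2)`, `0 ≤ β l`). Let
`ε' = ε / 5`. Let `L` be even and so large that
`(1 - ε') (x / (k - 1) - c) ≥ (1 - 2 ε') (x / (k - 1))` for all `x ≥ L`. Let `v₀` be larger than all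
the `v₀` of `hfix l ε'` for `2 ≤ l < 2 L` and so large that `ε C2 v ≥ 8 k (k - 1)` and
`C2 v ≥ 8 (k - 1)` for `v ≥ v₀`. Case `l < 2 L`: `hfix`, as `ε' ≤ ε`. Case `l ≥ 2 L`: let
`q = l / L - 1`, `r = l - q L`, so `L ≤ r < 2 L` and `q + 1 ≤ l`; `Adm k L v` as `L` is even,
`Adm k r v` as `r` and `l` have the same parity. Let
`A x = ⌈(1 + ε') (x C2 v / C2 k)⌉₊` and `B x = ⌊(1 - ε') (β x C2 v)⌋₊` for `x = L, r`. Then
`A x ≤ B x` because `(1 + ε') x C2 v / C2 k + 2 ≤ (1 - 2 ε') x C2 v / (k - 1)`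
(`C2 k = k (k - 1) / 2 ≥ 2 (k - 1)` and `ε' ≤ 1 / 10`), so `Iv k x v (A x) (B x)` by `hfix`. Hence
`Iv k l v (q A L + A r) (q B L + B r)`. Now `q A L + A r ≤ (1 + ε') l C2 v / C2 k + (q + 1) ≤
(1 + ε) l C2 v / C2 k` since `q + 1 ≤ l` and `1 ≤ (4 / 5) ε C2 v / C2 k`, and
`q B L + B r ≥ (1 - 2 ε') l C2 v / (k - 1) - (q + 1) ≥ (1 - ε) l C2 v / (k - 1) ≥ (1 - ε) β l C2 v`
since `1 ≤ (3 / 5) ε C2 v / (k - 1)`.
-/

set_option autoImplicit false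

namespace Pool.Agent.Helper53.BN

open Pool.Agent.Helper69.WV

/-- All the numbers from `A` to `B` are numbers of blocks. -/
def Iv (k l v A B : ℕ) : Prop := A ≤ B ∧ ∀ b, A ≤ b → b ≤ B → NB k l v b

theorem Iv.add {k l l' v A B A' B' : ℕ} (h : Iv k l v A B) (h' : Iv k l' v A' B') :
    Iv k (l + l') v (A + A') (B + B') := by
  obtain ⟨h1, h2⟩ := h
  obtain ⟨h3, h4⟩ := h'
  refine ⟨by omega, fun b hb1 hb2 => ?_⟩
  have h5 := h2 (max A (b - B')) (by omega) (by omega)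
  have h6 := h4 (b - max A (b - B')) (by omega) (by omega)
  have h7 := nb_add h5 h6
  rwa [show max A (b - B') + (b - max A (b - B')) = b by omega] at h7

theorem Iv.mul {k l v A B : ℕ} (h : Iv k l v A B) (q : ℕ) :
    Iv k (q * l) v (q * A) (q * B) := by
  induction q with
  | zero =>
    refine ⟨by simp, fun b hb1 hb2 => ?_⟩
    have hb : b = 0 := by omega
    rw [hb, Nat.zero_mul]
    exact nb_nil k v
  | succ q ih =>
    have := ih.add h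
    rwa [← Nat.succ_mul, ← Nat.succ_mul, ← Nat.succ_mul] at this

private theorem LargeV_C2 (k : ℕ) (hk : 1 ≤ k) : (C2 k : ℝ) = (k : ℝ) * ((k : ℝ) - 1) / 2 := by
  have h1 : C2 k * 2 = k * (k - 1) := by
    unfold C2
    exact Nat.div_mul_cancel (Nat.even_mul_pred_self k).two_dvd
  have h2 : ((C2 k : ℕ) : ℝ) * 2 = (k : ℝ) * ((k : ℝ) - 1) := by
    have h3 : ((C2 k * 2 : ℕ) : ℝ) = ((k * (k - 1) : ℕ) : ℝ) := by rw [h1]
    rw [Nat.cast_mul, Nat.cast_mul, Nat.cast_sub hk] at h3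
    simpa using h3
  linarith

private theorem LargeV_ge (v : ℕ) (hv : 2 ≤ v) : v ≤ C2 v + 1 := by
  have h1 : C2 v * 2 = v * (v - 1) := by
    unfold C2
    exact Nat.div_mul_cancel (Nat.even_mul_pred_self v).two_dvd
  obtain ⟨w, rfl⟩ : ∃ w, v = w + 2 := ⟨v - 2, by omega⟩
  have h2 : (w + 2) * (w + 2 - 1) = (w + 2) * (w + 1) := by rfl
  nlinarith

/-- The real inequality for one index. -/
private theorem LargeV_one {κ Cv Ck ε' x βx c' : ℝ} (hκ : 3 ≤ κ) (hCk : 2 * κ ≤ Ck)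
    (he0 : 0 < ε') (he1 : ε' ≤ 1 / 10) (hCv : 8 * κ ≤ Cv) (hx1 : 1 ≤ x)
    (hx : κ * c' ≤ ε' * x) (hβ : x / κ - c' ≤ βx) (hc' : 0 ≤ c') :
    (1 - 2 * ε') * (x * Cv / κ) ≤ (1 - ε') * (βx * Cv) ∧
      (1 + ε') * (x * Cv / Ck) + 2 ≤ (1 - 2 * ε') * (x * Cv / κ) := by
  have hκ0 : 0 < κ := by linarith
  have hCk0 : 0 < Ck := by linarith
  have hCv0 : 0 < Cv := by linarith
  constructor
  · have h1 : (1 - 2 * ε') * (x / κ) ≤ (1 - ε') * βx := by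
      have h2 : c' ≤ ε' * (x / κ) := by
        rw [← mul_div_assoc, le_div_iff₀ hκ0]
        linarith
      have h3 : (1 - ε') * (x / κ - c') ≤ (1 - ε') * βx :=
        mul_le_mul_of_nonneg_left hβ (by linarith)
      nlinarith
    calc (1 - 2 * ε') * (x * Cv / κ) = ((1 - 2 * ε') * (x / κ)) * Cv := by ring
      _ ≤ ((1 - ε') * βx) * Cv := mul_le_mul_of_nonneg_right h1 hCv0.le
      _ = (1 - ε') * (βx * Cv) := by ring
  · set y := x * Cv / κ with hy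
    have hy8 : 8 ≤ y := by
      rw [hy, le_div_iff₀ hκ0]
      nlinarith
    have h1 : x * Cv / Ck ≤ y / 2 := by
      rw [hy, div_div]
      apply div_le_div_of_nonneg_left (by positivity) (by positivity)
      linarith
    nlinarith

theorem largeV (k : ℕ) (hk : 4 ≤ k) (β : ℕ → ℝ) (c : ℝ) (hβ0 : ∀ l, 0 ≤ β l)
    (hβ1 : ∀ l : ℕ, 2 ≤ l → (l : ℝ) / ((k : ℝ) - 1) - c ≤ β l)
    (hβ2 : ∀ l : ℕ, 2 ≤ l → β l ≤ (l : ℝ) / ((k : ℝ) - 1))
    (hfix : ∀ l : ℕ, 2 ≤ l → ∀ ε : ℝ, 0 < ε → ∃ v₀, ∀ v, v₀ ≤ v → Adm k l v → ∀ b : ℕ,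
      (1 + ε) * ((l : ℝ) * (C2 v : ℝ) / (C2 k : ℝ)) ≤ b → (b : ℝ) ≤ (1 - ε) * (β l * (C2 v : ℝ)) →
      NB k l v b)
    (ε : ℝ) (hε : 0 < ε) :
    ∃ v₀, ∀ v, v₀ ≤ v → ∀ l : ℕ, 2 ≤ l → Adm k l v → ∀ b : ℕ,
      (1 + ε) * ((l : ℝ) * (C2 v : ℝ) / (C2 k : ℝ)) ≤ b → (b : ℝ) ≤ (1 - ε) * (β l * (C2 v : ℝ)) →
      NB k l v b := by
  classical
  -- parameters
  set e₁ : ℝ := min ε (1 / 2) with he₁
  have he0 : 0 < e₁ := lt_min hε (by norm_num)
  have heε : e₁ ≤ ε := min_le_left _ _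
  have heh : e₁ ≤ 1 / 2 := min_le_right _ _
  set e' : ℝ := e₁ / 5 with he'
  have he'0 : 0 < e' := by positivity
  have he'1 : e' ≤ 1 / 10 := by rw [he']; linarith
  set κ : ℝ := (k : ℝ) - 1 with hκdef
  have hk4 : (4 : ℝ) ≤ k := by exact_mod_cast hk
  have hκ : 3 ≤ κ := by rw [hκdef]; linarith
  have hκ0 : 0 < κ := by linarith
  set Ck : ℝ := (C2 k : ℝ) with hCkdef
  have hCkeq : Ck = k * κ / 2 := LargeV_C2 k (by omega)
  have hCk2 : 2 * κ ≤ Ck := by rw [hCkeq]; nlinarith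
  have hCk0 : 0 < Ck := by linarith
  set c' : ℝ := max c 0 with hc'
  have hc'0 : 0 ≤ c' := le_max_right _ _
  have hβ1' : ∀ l : ℕ, 2 ≤ l → (l : ℝ) / κ - c' ≤ β l := fun l hl =>
    (sub_le_sub_left (le_max_left c 0) _).trans (hβ1 l hl)
  set L : ℕ := 2 * (⌈κ * c' / e'⌉₊ + 1) with hL
  have hL2 : 2 ≤ L := by omega
  have hLeven : Even L := ⟨⌈κ * c' / e'⌉₊ + 1, by omega⟩
  have hLx : ∀ x : ℕ, L ≤ x → κ * c' ≤ e' * x := by
    intro x hx
    have h1 : κ * c' / e' ≤ ⌈κ * c' / e'⌉₊ := Nat.le_ceil _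
    have h2 : ((⌈κ * c' / e'⌉₊ : ℕ) : ℝ) ≤ x := by
      have : ⌈κ * c' / e'⌉₊ ≤ x := by omega
      exact_mod_cast this
    have h3 : κ * c' / e' ≤ x := h1.trans h2
    rw [div_le_iff₀ he'0] at h3
    linarith
  have hchoice : ∀ l : ℕ, ∃ v₀, 2 ≤ l → ∀ v, v₀ ≤ v → Adm k l v → ∀ b : ℕ,
      (1 + e') * ((l : ℝ) * (C2 v : ℝ) / Ck) ≤ b → (b : ℝ) ≤ (1 - e') * (β l * (C2 v : ℝ)) →
      NB k l v b := by
    intro l
    by_cases hl : 2 ≤ l
    · obtain ⟨v₀, h⟩ := hfix l hl e' he'0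
      exact ⟨v₀, fun _ => h⟩
    · exact ⟨0, fun h => absurd h hl⟩
  choose W hW using hchoice
  set v₁ : ℕ := (Finset.range (2 * L)).sup W with hv₁
  have hv₁le : ∀ l, l < 2 * L → W l ≤ v₁ := fun l hl =>
    Finset.le_sup (f := W) (Finset.mem_range.2 hl)
  set M : ℕ := ⌈8 * k * κ / e₁⌉₊ with hM
  refine ⟨v₁ + M + 2, fun v hv l hl hadm b hb1 hb2 => ?_⟩
  set Cv : ℝ := (C2 v : ℝ) with hCvdef
  have hCvM : (M : ℝ) ≤ Cv := by
    have h1 := LargeV_ge v (by omega)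
    have h2 : M ≤ C2 v := by omega
    exact Nat.cast_le.2 h2
  have hCvk : 8 * k * κ ≤ e₁ * Cv := by
    have h1 : 8 * k * κ / e₁ ≤ M := Nat.le_ceil _
    have h2 := h1.trans hCvM
    rw [div_le_iff₀ he0] at h2
    linarith
  have hCv0 : 0 ≤ Cv := Nat.cast_nonneg _
  have hCv8 : 8 * κ ≤ Cv := by nlinarith
  -- weaken the assumptions on `b`
  have hX0 : 0 ≤ (l : ℝ) * Cv / Ck := by positivity
  have hb1' : (1 + e₁) * ((l : ℝ) * Cv / Ck) ≤ b := by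
    refine le_trans ?_ hb1
    exact mul_le_mul_of_nonneg_right (by linarith) hX0
  have hβC : 0 ≤ β l * Cv := mul_nonneg (hβ0 l) hCv0
  have hb2' : (b : ℝ) ≤ (1 - e₁) * (β l * Cv) := by
    refine hb2.trans ?_
    exact mul_le_mul_of_nonneg_right (by linarith) hβC
  by_cases hlL : l < 2 * L
  · refine hW l hl v ?_ hadm b ?_ ?_
    · have := hv₁le l hlL
      omega
    · refine le_trans ?_ hb1'
      exact mul_le_mul_of_nonneg_right (by linarith) hX0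
    · refine hb2'.trans ?_
      exact mul_le_mul_of_nonneg_right (by linarith) hβC
  push Not at hlL
  -- the decomposition
  have hL0 : 0 < L := by omega
  set q : ℕ := l / L - 1 with hq
  set r : ℕ := L + l % L with hr
  have hdiv : 2 ≤ l / L := (Nat.le_div_iff_mul_le hL0).2 hlL
  have hmod : l % L < L := Nat.mod_lt _ hL0
  have hq1 : q + 1 = l / L := by omega
  have hsum : q * L + r = l := by
    have h1 := Nat.div_add_mod l L
    have h2 : L * (l / L) = q * L + L := by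
      rw [← hq1]
      ring
    omega
  have hql : q + 1 ≤ l := by
    rw [hq1]
    exact Nat.div_le_self _ _
  have hadmL : Adm k L v := Or.inr (hLeven.mul_right _)
  have hadmr : Adm k r v := by
    rcases hadm with h | h
    · exact Or.inl h
    · right
      have h1 : l * (v - 1) = q * L * (v - 1) + r * (v - 1) := by
        rw [← hsum]
        ring
      rw [h1] at h
      have h2 : Even (q * L * (v - 1)) := (hLeven.mul_left q).mul_right _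
      exact (Nat.even_add.1 h).1 h2
  -- the intervals
  have hIv : ∀ x : ℕ, L ≤ x → x < 2 * L → Adm k x v →
      Iv k x v ⌈(1 + e') * ((x : ℝ) * Cv / Ck)⌉₊ ⌊(1 - e') * (β x * Cv)⌋₊ ∧
      (⌈(1 + e') * ((x : ℝ) * Cv / Ck)⌉₊ : ℝ) ≤ (1 + e') * ((x : ℝ) * Cv / Ck) + 1 ∧
      (1 - 2 * e') * ((x : ℝ) * Cv / κ) - 1 ≤ (⌊(1 - e') * (β x * Cv)⌋₊ : ℝ) := by
    intro x hx1 hx2 hxa
    have hx1' : (1 : ℝ) ≤ x := by
      have : 1 ≤ x := by omega
      exact_mod_cast this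
    obtain ⟨h1, h2⟩ := LargeV_one (x := (x : ℝ)) (βx := β x) hκ hCk2 he'0 he'1 hCv8 hx1'
      (hLx x hx1) (hβ1' x (by omega)) hc'0
    have h3 : (⌈(1 + e') * ((x : ℝ) * Cv / Ck)⌉₊ : ℝ) < (1 + e') * ((x : ℝ) * Cv / Ck) + 1 :=
      Nat.ceil_lt_add_one (by positivity)
    have h4 : (1 - e') * (β x * Cv) < (⌊(1 - e') * (β x * Cv)⌋₊ : ℝ) + 1 := Nat.lt_floor_add_one _
    have h5 : 0 ≤ (1 - e') * (β x * Cv) :=
      mul_nonneg (by linarith) (mul_nonneg (hβ0 x) hCv0)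
    refine ⟨⟨?_, fun b' hb3 hb4 => ?_⟩, h3.le, by linarith⟩
    · have h6 : (⌈(1 + e') * ((x : ℝ) * Cv / Ck)⌉₊ : ℝ) ≤ (⌊(1 - e') * (β x * Cv)⌋₊ : ℝ) := by
        linarith
      exact_mod_cast h6
    · refine hW x (by omega) v ?_ hxa b' ?_ ?_
      · have := hv₁le x hx2
        omega
      · have h6 := Nat.le_ceil ((1 + e') * ((x : ℝ) * Cv / Ck))
        have h7 : (⌈(1 + e') * ((x : ℝ) * Cv / Ck)⌉₊ : ℝ) ≤ b' := by exact_mod_cast hb3
        exact h6.trans h7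
      · have h6 := Nat.floor_le h5
        have h7 : (b' : ℝ) ≤ (⌊(1 - e') * (β x * Cv)⌋₊ : ℝ) := by exact_mod_cast hb4
        exact h7.trans h6
  obtain ⟨iL, aL, bL⟩ := hIv L le_rfl (by omega) hadmL
  obtain ⟨ir, ar, br⟩ := hIv r (by omega) (by omega) hadmr
  have hfin := (iL.mul q).add ir
  rw [hsum] at hfin
  have hlq : (l : ℝ) = q * L + r := by
    rw [← hsum]
    push_cast
    ring
  have hql' : (q : ℝ) + 1 ≤ l := by exact_mod_cast hql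
  have hl0 : (0 : ℝ) ≤ l := Nat.cast_nonneg _
  have hq0 : (0 : ℝ) ≤ q := Nat.cast_nonneg _
  refine hfin.2 b ?_ ?_
  · have h1 : (q : ℝ) * (⌈(1 + e') * ((L : ℝ) * Cv / Ck)⌉₊ : ℝ) ≤
        q * ((1 + e') * ((L : ℝ) * Cv / Ck) + 1) := mul_le_mul_of_nonneg_left aL hq0
    have h2 : (1 + e') * ((l : ℝ) * Cv / Ck) =
        q * ((1 + e') * ((L : ℝ) * Cv / Ck)) + (1 + e') * ((r : ℝ) * Cv / Ck) := by
      rw [hlq]
      ring
    have h3 : (l : ℝ) ≤ (e₁ - e') * ((l : ℝ) * Cv / Ck) := by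
      have h4 : 1 ≤ (e₁ - e') * (Cv / Ck) := by
        rw [← mul_div_assoc, le_div_iff₀ hCk0, he', hCkeq]
        nlinarith
      calc (l : ℝ) = l * 1 := by ring
        _ ≤ l * ((e₁ - e') * (Cv / Ck)) := mul_le_mul_of_nonneg_left h4 hl0
        _ = (e₁ - e') * ((l : ℝ) * Cv / Ck) := by ring
    have h5 : ((q * ⌈(1 + e') * ((L : ℝ) * Cv / Ck)⌉₊ + ⌈(1 + e') * ((r : ℝ) * Cv / Ck)⌉₊ : ℕ) : ℝ)
        ≤ b := by
      push_cast
      linarith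
    exact_mod_cast h5
  · have h1 : (q : ℝ) * ((1 - 2 * e') * ((L : ℝ) * Cv / κ) - 1) ≤
        q * (⌊(1 - e') * (β L * Cv)⌋₊ : ℝ) := mul_le_mul_of_nonneg_left bL hq0
    have h2 : (1 - 2 * e') * ((l : ℝ) * Cv / κ) =
        q * ((1 - 2 * e') * ((L : ℝ) * Cv / κ)) + (1 - 2 * e') * ((r : ℝ) * Cv / κ) := by
      rw [hlq]
      ring
    have h3 : (l : ℝ) ≤ (e₁ - 2 * e') * ((l : ℝ) * Cv / κ) := by
      have h4 : 1 ≤ (e₁ - 2 * e') * (Cv / κ) := by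
        rw [← mul_div_assoc, le_div_iff₀ hκ0, he']
        nlinarith
      calc (l : ℝ) = l * 1 := by ring
        _ ≤ l * ((e₁ - 2 * e') * (Cv / κ)) := mul_le_mul_of_nonneg_left h4 hl0
        _ = (e₁ - 2 * e') * ((l : ℝ) * Cv / κ) := by ring
    have h6 : (1 - e₁) * (β l * Cv) ≤ (1 - e₁) * ((l : ℝ) * Cv / κ) := by
      apply mul_le_mul_of_nonneg_left _ (by linarith)
      calc β l * Cv ≤ ((l : ℝ) / κ) * Cv := mul_le_mul_of_nonneg_right (hβ2 l hl) hCv0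
        _ = (l : ℝ) * Cv / κ := by ring
    have h5 : (b : ℝ) ≤
        ((q * ⌊(1 - e') * (β L * Cv)⌋₊ + ⌊(1 - e') * (β r * Cv)⌋₊ : ℕ) : ℝ) := by
      push_cast
      linarith
    exact_mod_cast h5

end Pool.Agent.Helper53.BN
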