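import Pool.Agent.Helper53.BN.Glue

/-!
Project BN: designs on two points.

`pair_base`: one block with `a` positions with the point `0` and `k - a` positions with the
point `1`.

`pairN`: let `D = l - n (k - 1)`, so `2 (k - 3) (k - 4) ≤ D` and `D ≤ (k - 3) n`. If `k` is odd,
`D` is even. The products for `a = 1, 2, 3` are `k - 1`, `2 (k - 2) = (k - 1) + (k - 3)`,
`3 (k - 3) = (k - 1) + 2 (k - 4)`. Choose `x₃ ≤ k - 4` with `(k - 3) ∣ D + 2 x₃` (possible: for
even `k` the number `k - 3` is odd; for odd `k` both `k - 3` and `D` are even); as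
`2 (k - 4) = 2 (k - 3) - 2`, then `(k - 3) ∣ D - 2 (k - 4) x₃`, and `2 (k - 4) x₃ ≤ D`. Let `x₂`
be the quotient, `x₁ = n - x₂ - x₃ ≥ 0` (if `k ≥ 5`:
`(k - 3) (x₂ + x₃) = D - (k - 5) x₃ ≤ (k - 3) n`; if `k = 4`: `x₃ = 0`). Then
`x₁ (k - 1) + x₂ 2 (k - 2) + x₃ 3 (k - 3) = l`. Use `pair_base`, `nb_mul`, `nb_add`.
-/

set_option autoImplicit false

namespace Pool.Agent.Helper53.BN

open Pool.Agent.Helper69.WV

private theorem pair_lt {k a : ℕ} (h2 : a < k) : Nat.card {i : Fin k // i.val < a} = a := by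
  have h : Nat.card {i : Fin k // i.val < a} = Nat.card (Fin a) := by
    refine Nat.card_congr ⟨fun i => ⟨i.1.val, i.2⟩, fun j => ⟨⟨j.val, j.2.trans h2⟩, j.2⟩, ?_, ?_⟩
    · intro i
      rfl
    · intro j
      rfl
  rw [h, Nat.card_eq_fintype_card, Fintype.card_fin]

private theorem pair_ge {k a : ℕ} : Nat.card {i : Fin k // ¬ i.val < a} = k - a := by
  have h : Nat.card {i : Fin k // ¬ i.val < a} = Nat.card (Fin (k - a)) := by
    refine Nat.card_congr ⟨fun i => ⟨i.1.val - a, ?_⟩, fun j => ⟨⟨a + j.val, ?_⟩, ?_⟩, ?_, ?_⟩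
    · have h1 := i.1.2
      have h2 := i.2
      omega
    · have := j.2
      omega
    · simp
    · rintro ⟨⟨i, hi⟩, hi2⟩
      simp only at hi2
      simp only [Subtype.mk.injEq, Fin.mk.injEq]
      omega
    · rintro ⟨j, hj⟩
      simp only [Fin.mk.injEq]
      omega
  rw [h, Nat.card_eq_fintype_card, Fintype.card_fin]

private theorem pair_cc {k : ℕ} (g : Fin k → Fin 2) (x y : Fin 2) :
    cc (fun _ : Unit => g) x y = Nat.card {i // g i = x} * Nat.card {i // g i = y} := by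
  unfold cc
  rw [← Nat.card_prod]
  exact Nat.card_congr
    { toFun := fun p => (⟨p.1.2.1, p.2.1⟩, ⟨p.1.2.2, p.2.2⟩)
      invFun := fun q => ⟨((), q.1.1, q.2.1), q.1.2, q.2.2⟩
      left_inv := fun p => rfl
      right_inv := fun q => rfl }

theorem pair_base {k a : ℕ} (h1 : 1 ≤ a) (h2 : a < k) : NB k (a * (k - a)) 2 1 := by
  let g : Fin k → Fin 2 := fun i => if i.val < a then 0 else 1
  have h0 : Nat.card {i // g i = 0} = a := by
    rw [← pair_lt h2]
    refine Nat.card_congr (Equiv.subtypeEquivRight fun i => ?_)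
    by_cases hi : i.val < a
    · simp [g, hi]
    · simp [g, hi]
  have h3 : Nat.card {i // g i = 1} = k - a := by
    rw [← pair_ge]
    refine Nat.card_congr (Equiv.subtypeEquivRight fun i => ?_)
    by_cases hi : i.val < a
    · simp [g, hi]
    · simp [g, hi]
  refine ⟨Unit, inferInstance, fun _ => g, ?_, ?_, ?_, ?_⟩
  · intro _
    refine ⟨⟨0, by omega⟩, ⟨a, h2⟩, ?_⟩
    have e1 : g ⟨0, by omega⟩ = 0 := if_pos (show 0 < a by omega)
    have e2 : g ⟨a, h2⟩ = 1 := if_neg (lt_irrefl a)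
    show g ⟨0, by omega⟩ ≠ g ⟨a, h2⟩
    rw [e1, e2]
    decide
  · intro x y hxy
    rw [pair_cc]
    have hxy' : x ≠ y := hxy
    have hc : (x = 0 ∧ y = 1) ∨ (x = 1 ∧ y = 0) := by
      clear hxy
      revert x y
      decide
    rcases hc with ⟨rfl, rfl⟩ | ⟨rfl, rfl⟩
    · rw [h0, h3]
    · rw [h0, h3, mul_comm]
  · intro x y hne hxy
    exact absurd hxy hne
  · simp

private theorem pair_x3 (p D : ℕ) (h : Even (p + 1) → Even D) : ∃ x ≤ p, (p + 1) ∣ D + 2 * x := by
  obtain ⟨q, r, hr, hD⟩ : ∃ q r, r ≤ p ∧ D = (p + 1) * q + r :=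
    ⟨D / (p + 1), D % (p + 1), Nat.lt_succ_iff.1 (Nat.mod_lt _ (Nat.succ_pos p)),
      (Nat.div_add_mod _ _).symm⟩
  have hpar : Even (p + 1) → Even r := by
    intro h1
    have h2 := h h1
    rw [hD, Nat.even_add] at h2
    exact h2.1 (h1.mul_right q)
  rcases Nat.eq_zero_or_pos r with h0 | h0
  · exact ⟨0, Nat.zero_le _, q, by rw [hD, h0, mul_zero, add_zero, add_zero]⟩
  · rcases Nat.even_or_odd (p + 1 - r) with ⟨c, hc⟩ | ⟨c, hc⟩
    · refine ⟨c, by omega, q + 1, ?_⟩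
      have : (p + 1) * (q + 1) = (p + 1) * q + (p + 1) := by ring
      omega
    · have hev : Even r := by
        by_contra hno
        rw [Nat.not_even_iff_odd] at hno
        obtain ⟨d, hd⟩ := hno
        have h3 : Even (p + 1) := ⟨c + d + 1, by omega⟩
        obtain ⟨d', hd'⟩ := hpar h3
        omega
      obtain ⟨d, hd⟩ := hev
      refine ⟨p + 1 - d, by omega, q + 2, ?_⟩
      have : (p + 1) * (q + 2) = (p + 1) * q + 2 * (p + 1) := by ring
      omega

theorem pairN {k l n : ℕ} (hk : 4 ≤ k) (hp : Even k ∨ Even l)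
    (h1 : n * (k - 1) + 2 * ((k - 3) * (k - 4)) ≤ l) (h2 : l ≤ 2 * (k - 2) * n) :
    NB k l 2 n := by
  obtain ⟨p, rfl⟩ := Nat.exists_eq_add_of_le hk
  have e1 : 4 + p - 1 = p + 3 := by omega
  have e2 : 4 + p - 3 = p + 1 := by omega
  have e3 : 4 + p - 4 = p := by omega
  have e4 : 4 + p - 2 = p + 2 := by omega
  rw [e1, e2, e3] at h1
  rw [e4] at h2
  obtain ⟨D, rfl⟩ := Nat.exists_eq_add_of_le (show n * (p + 3) ≤ l by omega)
  have hD1 : 2 * ((p + 1) * p) ≤ D := by omega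
  have hD2 : D ≤ (p + 1) * n := by
    have : 2 * (p + 2) * n = n * (p + 3) + (p + 1) * n := by ring
    omega
  have hpar : Even (p + 1) → Even D := by
    intro h3
    have h4 : ¬ Even (4 + p) := by
      rw [Nat.not_even_iff_odd]
      obtain ⟨c, hc⟩ := h3
      exact ⟨c + 1, by omega⟩
    have h5 : Even (n * (p + 3)) := by
      have : Even (p + 3) := by
        obtain ⟨c, hc⟩ := h3
        exact ⟨c + 1, by omega⟩
      exact this.mul_left n
    rcases hp with h6 | h6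
    · exact absurd h6 h4
    · rw [Nat.even_add] at h6
      exact h6.1 h5
  obtain ⟨x3, hx3, hdv⟩ := pair_x3 p D hpar
  have hle : 2 * p * x3 ≤ D := by
    have h3 : p * x3 ≤ (p + 1) * p := by
      rw [mul_comm (p + 1)]
      exact Nat.mul_le_mul_left p (by omega)
    have h4 : 2 * p * x3 = 2 * (p * x3) := by ring
    omega
  obtain ⟨E, hE⟩ := Nat.exists_eq_add_of_le hle
  have hdv2 : (p + 1) ∣ E := by
    have h3 : D + 2 * x3 = E + (p + 1) * (2 * x3) := by
      rw [hE]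
      ring
    rw [h3] at hdv
    exact (Nat.dvd_add_left (Dvd.intro _ rfl)).1 hdv
  obtain ⟨x2, rfl⟩ := hdv2
  have hsum : x2 + x3 ≤ n := by
    rcases Nat.eq_zero_or_pos p with h0 | h0
    · subst h0
      have : x3 = 0 := by omega
      subst this
      omega
    · have h3 : (p + 1) * x3 ≤ 2 * p * x3 := Nat.mul_le_mul_right x3 (by omega)
      have h4 : (p + 1) * (x2 + x3) = (p + 1) * x2 + (p + 1) * x3 := by ring
      have h5 : (p + 1) * (x2 + x3) ≤ (p + 1) * n := by omega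
      exact Nat.le_of_mul_le_mul_left h5 (Nat.succ_pos p)
  obtain ⟨x1, hx1⟩ := Nat.exists_eq_add_of_le hsum
  have b1 : NB (4 + p) (x1 * (1 * (4 + p - 1))) 2 (x1 * 1) :=
    nb_mul (pair_base (k := 4 + p) (a := 1) le_rfl (by omega)) x1
  have b2 : NB (4 + p) (x2 * (2 * (4 + p - 2))) 2 (x2 * 1) :=
    nb_mul (pair_base (k := 4 + p) (a := 2) (by omega) (by omega)) x2
  have b3 : NB (4 + p) (x3 * (3 * (4 + p - 3))) 2 (x3 * 1) :=
    nb_mul (pair_base (k := 4 + p) (a := 3) (by omega) (by omega)) x3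
  have b := nb_add (nb_add b1 b2) b3
  rw [e1, e4, e2] at b
  have f1 : x1 * (1 * (p + 3)) + x2 * (2 * (p + 2)) + x3 * (3 * (p + 1)) = n * (p + 3) + D := by
    rw [hx1, hE]
    ring
  have f2 : x1 * 1 + x2 * 1 + x3 * 1 = n := by omega
  rw [f1, f2] at b
  exact b

end Pool.Agent.Helper53.BN
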