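import Pool.Agent.Helper53.BN.Five

/-!
Project BN: all `v ≥ 2` and all `l ≥ 2`, with general windows at the ends.
-/

set_option autoImplicit false

namespace Pool.Agent.Helper53.BN

open Pool.Agent.Helper69.WV Pool.Agent.Helper52.VB Pool.Agent.Helper69.QB Pool.Agent.Helper69.QC

private theorem seven_pos {v : ℕ} (hv : 2 ≤ v) : 0 < C2 v := by
  unfold C2
  obtain ⟨w, rfl⟩ : ∃ w, v = w + 2 := ⟨v - 2, by omega⟩
  rw [Nat.div_pos_iff]
  refine ⟨by norm_num, ?_⟩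
  have h : w + 2 - 1 = w + 1 := by omega
  rw [h]
  nlinarith

/-- `w0 l v` and `w1 l v` are the widths of the windows, without the constant. -/
theorem seven (k : ℕ) (hk : 4 ≤ k) (w0 w1 : ℕ → ℕ → ℕ)
    (hp0 : ∀ l v, 1 ≤ v → 1 ≤ w0 l v ∧ w0 l v ≤ v) (hp1 : ∀ l v, 1 ≤ v → 1 ≤ w1 l v ∧ w1 l v ≤ v)
    (hfix' : ∀ l, 2 ≤ l → ∃ C v₀ : ℕ, ∀ v, v₀ ≤ v → Adm k l v → ∀ b : ℕ,
      (l : ℝ) / (C2 k : ℝ) * ((C2 v : ℕ) : ℝ) + C * w0 l v ≤ b →
      (b : ℝ) ≤ beta k l * ((C2 v : ℕ) : ℝ) - C * w1 l v → NB k l v b) :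
    ∃ c : ℝ, 0 < c ∧ ∀ l : ℕ, 2 ≤ l → ∃ A : ℝ, 0 < A ∧ ∀ v : ℕ, 2 ≤ v → Adm k l v → ∀ b : ℕ,
      (l : ℝ) * (C2 v : ℝ) + min (c * (C2 v : ℝ)) (A * w0 l v) ≤ (b : ℝ) * (QQ v k : ℝ) →
      (b : ℝ) ≤ beta k l * (C2 v : ℝ) - min (c * (C2 v : ℝ)) (A * w1 l v) → NB k l v b := by
  obtain ⟨l₀, hl₀, he, hmin⟩ := minimal_all k hk
  obtain ⟨c₀, hc₀⟩ := largeL k hk l₀ hl₀ he hmin
  set c : ℝ := (c₀ : ℝ) + 1 with hc
  have hcpos : 0 < c := by positivity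
  refine ⟨c, hcpos, fun l hl => ?_⟩
  obtain ⟨B, v₀, hfix⟩ := hfix' l hl
  have hkk : (3 : ℝ) ≤ (k : ℝ) - 1 := by
    have : (4 : ℝ) ≤ (k : ℝ) := by exact_mod_cast hk
    linarith
  have hCk : 0 < C2 k := seven_pos (by omega)
  have hCk' : (1 : ℝ) ≤ (C2 k : ℝ) := by exact_mod_cast hCk
  obtain ⟨V1, hV1⟩ := exists_nat_ge (1 + 2 * (B : ℝ) * (C2 k : ℝ) / c)
  set V : ℕ := max (max v₀ V1) k with hV
  set A : ℝ := (B : ℝ) * (C2 k : ℝ) + c * (V : ℝ) ^ 2 with hA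
  have hV0 : (0 : ℝ) < (V : ℝ) := by
    have : 0 < V := by
      have := le_max_right (max v₀ V1) k
      omega
    exact_mod_cast this
  have hA0 : 0 < A := by positivity
  refine ⟨A, hA0, fun v hv hadm b hb1 hb2 => ?_⟩
  have hC : 0 < C2 v := seven_pos hv
  have hC' : (0 : ℝ) < (C2 v : ℝ) := by exact_mod_cast hC
  have hv2 : (2 : ℝ) ≤ v := by exact_mod_cast hv
  have hw0 : (1 : ℝ) ≤ w0 l v := by exact_mod_cast (hp0 l v (by omega)).1
  have hw1 : (1 : ℝ) ≤ w1 l v := by exact_mod_cast (hp1 l v (by omega)).1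
  have hw0' : (w0 l v : ℝ) ≤ v := by exact_mod_cast (hp0 l v (by omega)).2
  have hw1' : (w1 l v : ℝ) ≤ v := by exact_mod_cast (hp1 l v (by omega)).2
  -- the case of both errors `c C(v,2)`
  have hcase : (l : ℝ) * (C2 v : ℝ) + c * (C2 v : ℝ) ≤ (b : ℝ) * (QQ v k : ℝ) →
      (b : ℝ) ≤ beta k l * (C2 v : ℝ) - c * (C2 v : ℝ) → NB k l v b := by
    intro h1 h2
    apply hc₀ v l b hv hadm
    · have h3 : ((l : ℝ) + c₀) * (C2 v : ℝ) ≤ (b : ℝ) * (QQ v k : ℝ) := by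
        have h4 : (c₀ : ℝ) * (C2 v : ℝ) ≤ c * (C2 v : ℝ) :=
          mul_le_mul_of_nonneg_right (by rw [hc]; linarith) hC'.le
        linarith
      exact_mod_cast h3
    · have h5 : beta k l * (C2 v : ℝ) ≤ (l : ℝ) / ((k : ℝ) - 1) * (C2 v : ℝ) :=
        mul_le_mul_of_nonneg_right (beta_le k l (by omega)) hC'.le
      have h8 : ((k : ℝ) - 1) * b ≤
          ((k : ℝ) - 1) * ((l : ℝ) / ((k : ℝ) - 1) * (C2 v : ℝ) - c * (C2 v : ℝ)) :=
        mul_le_mul_of_nonneg_left (by linarith) (by linarith)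
      have h9 : ((k : ℝ) - 1) * ((l : ℝ) / ((k : ℝ) - 1) * (C2 v : ℝ) - c * (C2 v : ℝ)) =
          (l : ℝ) * (C2 v : ℝ) - ((k : ℝ) - 1) * (c * (C2 v : ℝ)) := by
        have : (k : ℝ) - 1 ≠ 0 := by linarith
        field_simp
      have h10 : (c₀ : ℝ) * (C2 v : ℝ) ≤ ((k : ℝ) - 1) * (c * (C2 v : ℝ)) := by
        have h12 : (c₀ : ℝ) * (C2 v : ℝ) ≤ c * (C2 v : ℝ) :=
          mul_le_mul_of_nonneg_right (by rw [hc]; linarith) hC'.le
        have h13 : 0 ≤ c * (C2 v : ℝ) := by positivity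
        nlinarith
      have h11 : (((k - 1 : ℕ) : ℝ)) * b + c₀ * (C2 v : ℝ) ≤ (l : ℝ) * (C2 v : ℝ) := by
        rw [Nat.cast_sub (by omega : 1 ≤ k), Nat.cast_one]
        linarith
      exact_mod_cast h11
  by_cases hvV : v < V
  · -- here both errors are `c C(v,2)`
    have h1 : (C2 v : ℝ) ≤ (V : ℝ) ^ 2 := by
      rw [C2_cast]
      have h2 : (v : ℝ) ≤ V := by exact_mod_cast hvV.le
      nlinarith
    have h2 : c * (C2 v : ℝ) ≤ A := by
      have h3 : c * (C2 v : ℝ) ≤ c * (V : ℝ) ^ 2 := mul_le_mul_of_nonneg_left h1 hcpos.le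
      have h4 : 0 ≤ (B : ℝ) * (C2 k : ℝ) := by positivity
      rw [hA]
      linarith
    have h3 : A ≤ A * w0 l v := le_mul_of_one_le_right hA0.le hw0
    have h4 : A ≤ A * w1 l v := le_mul_of_one_le_right hA0.le hw1
    rw [min_eq_left (h2.trans h3)] at hb1
    rw [min_eq_left (h2.trans h4)] at hb2
    exact hcase hb1 hb2
  · rw [not_lt] at hvV
    have hvk : k ≤ v := (le_max_right _ _).trans hvV
    have hvv0 : v₀ ≤ v := ((le_max_left _ _).trans (le_max_left _ _)).trans hvV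
    have hvV1 : (V1 : ℝ) ≤ v := by
      exact_mod_cast ((le_max_right _ _).trans (le_max_left _ _)).trans hvV
    rw [qq_large (by omega) hvk] at hb1
    -- `B C2 k v ≤ c C(v,2)`
    have hkey : (B : ℝ) * (C2 k : ℝ) * v ≤ c * (C2 v : ℝ) := by
      have h1 : 1 + 2 * (B : ℝ) * (C2 k : ℝ) / c ≤ v := hV1.trans hvV1
      have h2 : 2 * (B : ℝ) * (C2 k : ℝ) ≤ c * ((v : ℝ) - 1) := by
        have h3 : 2 * (B : ℝ) * (C2 k : ℝ) / c ≤ (v : ℝ) - 1 := by linarith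
        rw [div_le_iff₀ hcpos] at h3
        linarith
      have h4 := mul_le_mul_of_nonneg_right h2 (by linarith : (0 : ℝ) ≤ (v : ℝ) / 2)
      rw [C2_cast v]
      linarith
    have hBA : (B : ℝ) * (C2 k : ℝ) ≤ A := by
      rw [hA]
      have : 0 ≤ c * (V : ℝ) ^ 2 := by positivity
      linarith
    have hB0 : (0 : ℝ) ≤ B := Nat.cast_nonneg _
    have hBk : (0 : ℝ) ≤ (B : ℝ) * (C2 k : ℝ) := by positivity
    -- the lower end
    have hlow : (B : ℝ) * (C2 k : ℝ) * w0 l v ≤ min (c * (C2 v : ℝ)) (A * w0 l v) := by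
      refine le_min ?_ ?_
      · exact le_trans (mul_le_mul_of_nonneg_left hw0' hBk) hkey
      · exact mul_le_mul_of_nonneg_right hBA (by linarith)
    have hupp : (B : ℝ) * w1 l v ≤ min (c * (C2 v : ℝ)) (A * w1 l v) := by
      have h1 : (B : ℝ) ≤ (B : ℝ) * (C2 k : ℝ) := le_mul_of_one_le_right hB0 hCk'
      have h2 : (B : ℝ) * w1 l v ≤ (B : ℝ) * (C2 k : ℝ) * w1 l v :=
        mul_le_mul_of_nonneg_right h1 (by linarith)
      refine h2.trans (le_min ?_ ?_)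
      · exact le_trans (mul_le_mul_of_nonneg_left hw1' hBk) hkey
      · exact mul_le_mul_of_nonneg_right hBA (by linarith)
    refine hfix v hvv0 hadm b ?_ ?_
    · have h5 : ((l : ℝ) / (C2 k : ℝ) * (C2 v : ℝ) + B * w0 l v) * (C2 k : ℝ) =
          (l : ℝ) * (C2 v : ℝ) + B * (C2 k : ℝ) * w0 l v := by
        have : (C2 k : ℝ) ≠ 0 := by linarith
        field_simp
      have h6 : ((l : ℝ) / (C2 k : ℝ) * (C2 v : ℝ) + B * w0 l v) * (C2 k : ℝ) ≤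
          (b : ℝ) * (C2 k : ℝ) := by
        rw [h5]
        linarith
      exact le_of_mul_le_mul_right h6 (by linarith)
    · linarith

end Pool.Agent.Helper53.BN
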