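import Pool.Agent.Helper69.QC.T4

/-!
Project BN: every design on `h` points, `h = 1 mod w`, is contained in designs on `v` points for all
large `v = 1 mod w`, with the same difference of the number of blocks and the lower (or upper)
bound.
-/

set_option autoImplicit false

namespace Pool.Agent.Helper53.BN

open Pool.Agent.Helper69.WV Pool.Agent.Helper69.QB Pool.Agent.Helper69.QC

/-- There is a design on `v` points with `d` blocks more than `a C2 v`. -/
def LowD (k l : ℕ) (a : ℝ) (v : ℕ) (d : ℤ) : Prop :=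
  ∃ b : ℕ, NB k l v b ∧ (b : ℝ) = a * ((C2 v : ℕ) : ℝ) + d

/-- One step: a design of type `1^n h^1` with concurrence one and block size `m`. -/
theorem six_step {k l m s Q n h : ℕ} {a : ℝ} (hm : 1 ≤ m) (hn : 1 ≤ n)
    (hQ : DC m 1 Q (hol n 1 h)) (hs : NB k l m s) (ha : (s : ℝ) = a * ((C2 m : ℕ) : ℝ)) {d : ℤ}
    (hL : LowD k l a h d) : LowD k l a (n + h) d := by
  obtain ⟨b, hb, hbd⟩ := hL
  have h1 := subst (i := 0) hQ hs hs le_rfl (Nat.zero_le _)
  rw [zero_mul, Nat.add_zero] at h1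
  have hp := t4_pairs (m := m) (Q := Q) (n := n) (h := h) (v := n + h) hm hn rfl (count_hol hQ)
  refine ⟨Q * s + b, closeH h1 hb, ?_⟩
  push_cast
  rw [hbd, ha]
  linear_combination a * hp

/-- For every `u` and all large `x` a design on `u w + 1` points gives a design on `x w + 1`
points. -/
theorem six_embed (k l : ℕ) (hk : 3 ≤ k) (hl : 2 ≤ l) : ∃ w : ℕ, 2 ≤ w ∧ ∀ u : ℕ, ∃ X : ℕ,
    ∀ x, X ≤ x → ∀ d : ℤ,
      (LowD k l ((l : ℝ) / (C2 k : ℝ)) (u * w + 1) d →
        LowD k l ((l : ℝ) / (C2 k : ℝ)) (x * w + 1) d) ∧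
      (LowD k l (beta k l) (u * w + 1) d → LowD k l (beta k l) (x * w + 1) d) := by
  obtain ⟨m, s0, s1, hmp, hm3, -, hs0, hs1, hs01, he0, he1⟩ := perfect_pair k l hk hl 3
  obtain ⟨q, hqp, hq3, hq2, -, hqK, hqR, hqR1, n1, hn1⟩ := rs_one m hmp.two_le 2 3 two_pos
  refine ⟨q - 1, by omega, fun u => ?_⟩
  set w : ℕ := q - 1 with hw
  have hwK : w + 1 ∈ KS m 1 := by
    have : w + 1 = q := by omega
    rwa [this]
  set N : ℕ := n1 + 2 with hN
  obtain ⟨nA, hnA⟩ := hTD (N + 1)
  obtain ⟨nB, hnB⟩ := hTD (N + 1 + 1)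
  set T' : ℕ := nB + n1 + u + 1 with hT'
  set U : ℕ := (N + 1) * (T' + N) + u with hU
  set T : ℕ := nA + n1 + U + 1 with hT
  refine ⟨U + N * T, fun x hx d => ?_⟩
  -- the intermediate order
  have hxT : u + T' ≤ x := by
    have h1 : T' ≤ (N + 1) * (T' + N) := by nlinarith
    have h2 : 0 ≤ N * T := Nat.zero_le _
    omega
  set r : ℕ := (x - (u + T')) % N with hr
  have hrN : r < N := Nat.mod_lt _ (by omega)
  set t' : ℕ := T' + r with ht'
  set u' : ℕ := (N + 1) * t' + u with hu'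
  have hu'U : u' ≤ U := by
    have h1 : (N + 1) * t' ≤ (N + 1) * (T' + N) := Nat.mul_le_mul_left _ (by omega)
    omega
  have hux : u' ≤ x := by omega
  obtain ⟨t, ht⟩ : N ∣ x - u' := by
    have h1 : (x - (u + T')) = N * ((x - (u + T')) / N) + r := (Nat.div_add_mod _ _).symm
    have h2 : x = u + T' + (N * ((x - (u + T')) / N) + r) := by omega
    have h3 : x + N * t' = u' + N * ((x - (u + T')) / N) := by
      rw [hu', ht']
      nlinarith
    have h4 : x - u' + N * t' = N * ((x - (u + T')) / N) := by omega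
    exact (Nat.dvd_add_left (Dvd.intro t' rfl)).1 ⟨_, h4⟩
  have hxt : x = N * t + u' := by omega
  have htT : T ≤ t := by
    by_contra hcon
    have h1 : N * t < N * T := Nat.mul_lt_mul_of_pos_left (not_le.1 hcon) (by omega)
    omega
  obtain ⟨Q, hQ⟩ := t4_base (q := N + 1) (t := t') (u := u) (w := w) (m := m) (by omega)
    (hn1 _ (by omega)) (hn1 _ (by omega)) (hnB t' (by omega)) (by omega) (hn1 t' (by omega)) hwK
  obtain ⟨Q', hQ'⟩ := t4_base (q := N) (t := t) (u := u') (w := w) (m := m) (by omega)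
    (hn1 _ (by omega)) (hn1 _ (by omega)) (hnA t (by omega)) (by omega) (hn1 t (by omega)) hwK
  have hw0 : 0 < w := by omega
  have hp1 : 1 ≤ (N + 1) * (t' * w) :=
    Nat.mul_pos (by omega) (Nat.mul_pos (by omega) hw0)
  have hp2 : 1 ≤ N * (t * w) := Nat.mul_pos (by omega) (Nat.mul_pos (by omega) hw0)
  have e1 : (N + 1) * (t' * w) + (u * w + 1) = u' * w + 1 := by
    rw [hu']
    ring
  have e2 : N * (t * w) + (u' * w + 1) = x * w + 1 := by
    rw [hxt]
    ring
  have key : ∀ {a : ℝ} {s : ℕ}, NB k l m s → (s : ℝ) = a * ((C2 m : ℕ) : ℝ) →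
      LowD k l a (u * w + 1) d → LowD k l a (x * w + 1) d := by
    intro a s hs ha hL
    have h1 := six_step hmp.one_le hp1 hQ hs ha hL
    rw [e1] at h1
    have h2 := six_step hmp.one_le hp2 hQ' hs ha h1
    rwa [e2] at h2
  exact ⟨key hs0 he0, key hs1 he1⟩

end Pool.Agent.Helper53.BN
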