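import Pool.Agent.Helper53.BN.SixA
import Pool.Agent.Helper69.QC.Local
import Pool.Agent.Helper69.QC.T3

/-!
Project BN: the complete set of the numbers of blocks for a residue class of orders, and the upper
half of it for all large orders if `k - 1` divides `l`, up to finite sets which do not depend on the
order.
-/

set_option autoImplicit false

namespace Pool.Agent.Helper53.BN

open Pool.Agent.Helper69.WV Pool.Agent.Helper69.QB Pool.Agent.Helper69.QC

/-- A property of the elements of a class which passes to all large elements of the class holds for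
all large elements or for none. -/
theorem six_stable {P : ℕ → ℕ → Prop} {G : ℕ → Prop}
    (h : ∀ u, G u → ∃ X : ℕ, ∀ x, X ≤ x → G x → ∀ d, P u d → P x d) (C : ℕ) :
    ∃ (E : Finset ℕ) (X : ℕ), (∀ d ∈ E, d < C) ∧ ∀ x, X ≤ x → G x → ∀ d, d < C →
      (P x d ↔ d ∉ E) := by
  classical
  have h1 : ∀ d, ∃ X : ℕ, ∀ x, X ≤ x → G x → (∃ u, G u ∧ P u d) → P x d := by
    intro d
    by_cases hd : ∃ u, G u ∧ P u d
    · obtain ⟨u, hu, hud⟩ := hd
      obtain ⟨X, hX⟩ := h u hu
      exact ⟨X, fun x hx hGx _ => hX x hx hGx d hud⟩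
    · exact ⟨0, fun x _ _ h => absurd h hd⟩
  choose X hX using h1
  refine ⟨(Finset.range C).filter fun d => ¬ ∃ u, G u ∧ P u d, ∑ d ∈ Finset.range C, X d,
    fun d hd => Finset.mem_range.1 (Finset.mem_filter.1 hd).1, fun x hx hGx d hd => ?_⟩
  have hle : X d ≤ x := le_trans (Finset.single_le_sum (f := X) (fun _ _ => Nat.zero_le _)
    (Finset.mem_range.2 hd)) hx
  constructor
  · intro hP hmem
    exact (Finset.mem_filter.1 hmem).2 ⟨x, hGx, hP⟩
  · intro hn
    refine hX d x hle hGx ?_
    by_contra hcon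
    exact hn (Finset.mem_filter.2 ⟨Finset.mem_range.2 hd, hcon⟩)

/-- For a residue class of orders the set of the numbers of blocks is the set of all integers between
the two bounds except for finitely many distances from the ends, which do not depend on the order. -/
theorem six (k l : ℕ) (hk : 3 ≤ k) (hl : 2 ≤ l) : ∃ (w v₀ : ℕ) (E F : Finset ℕ), 0 < w ∧
    ∀ v, v₀ ≤ v → v ≡ 1 [MOD w] → ∃ b₀ b₁ : ℕ, b₀ * C2 k = l * C2 v ∧
      (b₁ : ℝ) = beta k l * ((C2 v : ℕ) : ℝ) ∧
      ∀ b : ℕ, NB k l v b ↔ b₀ ≤ b ∧ b ≤ b₁ ∧ b - b₀ ∉ E ∧ b₁ - b ∉ F := by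
  obtain ⟨w1, C, v1, hw1, ht4⟩ := t4 k l hk hl
  obtain ⟨w2, hw2, hemb⟩ := six_embed k l hk hl
  set G : ℕ → Prop := fun v => v ≡ 1 [MOD w1 * w2] with hG
  have hG1 : ∀ v, G v → v ≡ 1 [MOD w1] := fun v h => h.of_mul_right w2
  have hG2 : ∀ v, G v → ∃ u, v = u * w2 + 1 := by
    intro v h
    have h2 : v ≡ 1 [MOD w2] := h.of_mul_left w1
    have hv : 1 ≤ v := by
      by_contra hcon
      obtain rfl : v = 0 := by omega
      have h3 : (0 : ℕ) % w2 = 1 % w2 := h2
      rw [Nat.zero_mod, Nat.mod_eq_of_lt (by omega)] at h3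
      omega
    obtain ⟨u, hu⟩ := (Nat.modEq_iff_dvd' hv).1 h2.symm
    exact ⟨u, by rw [mul_comm u w2, ← hu]; omega⟩
  have hst0 := six_stable (P := fun v d => LowD k l ((l : ℝ) / (C2 k : ℝ)) v (d : ℤ)) (G := G)
    (fun h hh => by
      obtain ⟨u, rfl⟩ := hG2 h hh
      obtain ⟨X, hX⟩ := hemb u
      refine ⟨X * w2 + 1, fun v hv hGv d hd => ?_⟩
      obtain ⟨x, rfl⟩ := hG2 v hGv
      have hxX : X ≤ x := by
        by_contra hcon
        have h1 : x * w2 < X * w2 := Nat.mul_lt_mul_of_pos_right (not_le.1 hcon) (by omega)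
        omega
      exact (hX x hxX d).1 hd) C
  have hst1 := six_stable (P := fun v d => LowD k l (beta k l) v (-(d : ℤ))) (G := G)
    (fun h hh => by
      obtain ⟨u, rfl⟩ := hG2 h hh
      obtain ⟨X, hX⟩ := hemb u
      refine ⟨X * w2 + 1, fun v hv hGv d hd => ?_⟩
      obtain ⟨x, rfl⟩ := hG2 v hGv
      have hxX : X ≤ x := by
        by_contra hcon
        have h1 : x * w2 < X * w2 := Nat.mul_lt_mul_of_pos_right (not_le.1 hcon) (by omega)
        omega
      exact (hX x hxX _).2 hd) C
  obtain ⟨E, X0, hE, hX0⟩ := hst0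
  obtain ⟨F, X1, hF, hX1⟩ := hst1
  refine ⟨w1 * w2, v1 + X0 + X1 + 2, E, F, Nat.mul_pos hw1 (by omega), fun v hv hvw => ?_⟩
  obtain ⟨hmid, ⟨b₀, hb0, hn0⟩, b₁, hb1, hn1⟩ := ht4 v (by omega) (hG1 v hvw)
  have hCk : (0 : ℝ) < (C2 k : ℝ) := by
    have h : 0 < k.choose 2 := Nat.choose_pos (by omega)
    rw [Nat.choose_two_right] at h
    exact_mod_cast h
  have hb0' : b₀ * C2 k = l * C2 v := by
    have h2 : (b₀ : ℝ) * (C2 k : ℝ) = (l : ℝ) * (C2 v : ℝ) := by
      rw [hb0]
      field_simp
    exact_mod_cast h2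
  refine ⟨b₀, b₁, hb0', hb1, fun b => ?_⟩
  have hCk' : 0 < C2 k := by exact_mod_cast hCk
  constructor
  · intro hb
    have h1 : b₀ ≤ b := by
      have h2 := nb_local (d := 0) (by omega) (by omega) hb (fun e he => absurd he (by omega))
      rw [zero_mul, Nat.add_zero, ← hb0'] at h2
      exact Nat.le_of_mul_le_mul_right h2 hCk'
    have h2 : b ≤ b₁ := by
      have h3 := nb_le_beta (by omega) (by omega) hb
      have h4 : (b : ℝ) ≤ (b₁ : ℝ) := by
        rw [hb1]
        exact h3
      exact_mod_cast h4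
    refine ⟨h1, h2, fun hmem => ?_, fun hmem => ?_⟩
    · have h3 : LowD k l ((l : ℝ) / (C2 k : ℝ)) v ((b - b₀ : ℕ) : ℤ) := by
        refine ⟨b, hb, ?_⟩
        rw [← hb0]
        push_cast [Nat.cast_sub h1]
        ring
      exact (hX0 v (by omega) hvw _ (hE _ hmem)).1 h3 hmem
    · have h3 : LowD k l (beta k l) v (-((b₁ - b : ℕ) : ℤ)) := by
        refine ⟨b, hb, ?_⟩
        rw [← hb1]
        push_cast [Nat.cast_sub h2]
        ring
      exact (hX1 v (by omega) hvw _ (hF _ hmem)).1 h3 hmem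
  · rintro ⟨h1, h2, h3, h4⟩
    by_cases hlow : b - b₀ < C
    · obtain ⟨b', hb', he⟩ := (hX0 v (by omega) hvw _ hlow).2 h3
      rw [← hb0] at he
      have he' : (b' : ℝ) = (b : ℝ) := by
        rw [he]
        push_cast [Nat.cast_sub h1]
        ring
      have he'' : b' = b := by exact_mod_cast he'
      rwa [← he'']
    · by_cases hup : b₁ - b < C
      · obtain ⟨b', hb', he⟩ := (hX1 v (by omega) hvw _ hup).2 h4
        rw [← hb1] at he
        have he' : (b' : ℝ) = (b : ℝ) := by
          rw [he]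
          push_cast [Nat.cast_sub h2]
          ring
        have he'' : b' = b := by exact_mod_cast he'
        rwa [← he'']
      · refine hmid b ?_ ?_
        · rw [← hb0]
          have : b₀ + C ≤ b := by omega
          exact_mod_cast this
        · rw [← hb1]
          have : b + C ≤ b₁ := by omega
          have h5 : (b : ℝ) + C ≤ b₁ := by exact_mod_cast this
          linarith

/-- If `k - 1 ∣ l`: for all large orders the upper part of the set of the numbers of blocks consists
of all the integers up to the upper bound except for finitely many distances from it, which do not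
depend on the order. -/
theorem six_top (k l : ℕ) (hk : 3 ≤ k) (hl : 2 ≤ l) (hkl : k - 1 ∣ l) :
    ∃ (A v₀ : ℕ) (F : Finset ℕ), ∀ v, v₀ ≤ v → ∀ b : ℕ,
      (l : ℝ) / (C2 k : ℝ) * ((C2 v : ℕ) : ℝ) + A * v ≤ b →
      (NB k l v b ↔ b ≤ l / (k - 1) * C2 v ∧ l / (k - 1) * C2 v - b ∉ F) := by
  obtain ⟨C, v1, hfix⟩ := fixed_sharp k l hk hl
  set j : ℕ := l / (k - 1) with hj
  have hβ : ∀ v : ℕ, beta k l * ((C2 v : ℕ) : ℝ) = ((j * C2 v : ℕ) : ℝ) := by
    intro v
    have h1 : (j : ℝ) = (l : ℝ) / ((k : ℝ) - 1) := by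
      have h2 : ((k - 1 : ℕ) : ℝ) = (k : ℝ) - 1 := by
        rw [Nat.cast_sub (by omega), Nat.cast_one]
      rw [← h2, hj, Nat.cast_div hkl]
      rw [h2]
      have : (3 : ℝ) ≤ k := by exact_mod_cast hk
      intro h3
      linarith
    rw [beta_eq k l (by omega) hkl, ← h1]
    push_cast
    ring
  have hst := six_stable (P := fun v d => LowD k l (beta k l) v (-(d : ℤ))) (G := fun _ => True)
    (fun h _ => by
      refine ⟨h, fun v hv _ d hd => ?_⟩
      obtain ⟨b, hb, hbd⟩ := hd
      have h1 := sub_triv (by omega) hkl hv hb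
      refine ⟨_, h1, ?_⟩
      have h2 : C2 h ≤ C2 v := by
        rw [C2, C2]
        exact Nat.div_le_div_right (Nat.mul_le_mul hv (by omega))
      rw [hβ] at hbd ⊢
      rw [← hj]
      push_cast [Nat.cast_sub h2] at hbd ⊢
      linear_combination hbd) C
  obtain ⟨F, X1, hF, hX1⟩ := hst
  refine ⟨C, v1 + X1 + 2, F, fun v hv b hb => ?_⟩
  constructor
  · intro hnb
    have h2 : b ≤ j * C2 v := by
      have h3 := nb_le_beta (by omega) (by omega) hnb
      have h4 : (b : ℝ) ≤ ((j * C2 v : ℕ) : ℝ) := by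
        rw [← hβ]
        exact h3
      exact_mod_cast h4
    refine ⟨h2, fun hmem => ?_⟩
    have h3 : LowD k l (beta k l) v (-((j * C2 v - b : ℕ) : ℤ)) := by
      refine ⟨b, hnb, ?_⟩
      rw [hβ]
      push_cast [Nat.cast_sub h2]
      ring
    exact (hX1 v (by omega) trivial _ (hF _ hmem)).1 h3 hmem
  · rintro ⟨h2, h4⟩
    by_cases hup : j * C2 v - b < C
    · obtain ⟨b', hb', he⟩ := (hX1 v (by omega) trivial _ hup).2 h4
      rw [hβ] at he
      have he' : (b' : ℝ) = (b : ℝ) := by
        rw [he]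
        push_cast [Nat.cast_sub h2]
        ring
      have he'' : b' = b := by exact_mod_cast he'
      rwa [← he'']
    · refine hfix v (by omega) (adm_of_dvd' (by omega) hkl v) b ?_ ?_
      · refine le_trans ?_ hb
        have h5 : (err0 k v C : ℕ) ≤ C * v := by
          unfold err0
          split_ifs
          · exact Nat.le_mul_of_pos_right _ (by omega)
          · exact le_rfl
        have h6 : ((err0 k v C : ℕ) : ℝ) ≤ (C : ℝ) * v := by exact_mod_cast h5
        linarith
      · rw [hβ]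
        have h5 : err1 k l v C = C := by
          unfold err1
          rw [if_pos hkl]
        rw [h5]
        have h6 : b + C ≤ j * C2 v := by omega
        have h7 : (b : ℝ) + C ≤ ((j * C2 v : ℕ) : ℝ) := by exact_mod_cast h6
        linarith

end Pool.Agent.Helper53.BN
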