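import Mathlib
import Pool.Agent.Helper52.VBDefs
import Pool.Agent.Helper52.VBBasic
import Pool.Agent.Helper52.VBLarge

/-!
The spectrum of the variance-balanced designs for large concurrence (theorem of helper52).
-/

set_option autoImplicit false

open Pool.Agent.Helper52.VB

namespace Pool.Agent.Helper53.BN.Spec

theorem exists_mid {v : ℕ} (hv : Odd v) : ∃ m : Fin v → Fin v → Fin v,
    (∀ a b, m a b = m b a) ∧ (∀ a, m a a = a) ∧ ∀ a c, ∃! b, m a b = c := by
  have hv0 : NeZero v := ⟨by rintro rfl; exact absurd hv (by decide)⟩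
  let e : Fin v ≃ ZMod v := (ZMod.finEquiv v).toEquiv
  have hcop : Nat.Coprime 2 v := Nat.coprime_two_left.2 hv
  have h2 : (2 : ZMod v) * (2 : ZMod v)⁻¹ = 1 := by
    have := ZMod.coe_mul_inv_eq_one 2 hcop
    simpa using this
  refine ⟨fun a b => e.symm ((2 : ZMod v)⁻¹ * (e a + e b)), ?_, ?_, ?_⟩
  · intro a b
    simp only [add_comm]
  · intro a
    simp only
    rw [Equiv.symm_apply_eq]
    linear_combination (e a) * h2
  · intro a c
    refine ⟨e.symm (2 * e c - e a), ?_, ?_⟩
    · simp only [Equiv.apply_symm_apply]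
      rw [Equiv.symm_apply_eq]
      linear_combination (e c) * h2
    · intro b hb
      simp only at hb
      rw [Equiv.symm_apply_eq] at hb
      rw [Equiv.eq_symm_apply, ← hb]
      linear_combination (- (e a + e b)) * h2

/-- For every block size `k ≥ 2` and every concurrence `l ≥ 5 k^{3/2}`, the spectrum of
variance-balanced designs is determined. -/
theorem spectrum (k : ℕ) (hk : 2 ≤ k) (l : ℕ) (hl : 25 * k ^ 3 ≤ l ^ 2) (v : ℕ) (hv : 2 ≤ v) :
    (∃ D : Multiset (Multiset (Fin v)), IsVB v k l D) ↔ (Even k ∨ Even (l * (v - 1))) := by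
  constructor
  · rintro ⟨D, hD⟩
    by_cases h : Even k
    · exact Or.inl h
    · exact Or.inr (parity_nec h (by omega) hD)
  · intro h
    by_cases h1 : Even k ∨ Even l
    · -- all pairs are filled by two-point blocks
      have h2 : l ∈ Sgrp k := large_mem hk h1 (by omega)
      obtain ⟨D, hD, hD'⟩ := complete (V := Fin v) (k := k) (l := l) 0 (by simp)
        (fun i j _ => ⟨l, h2, by simp [conc_zero]⟩)
      exact ⟨D, hD, hD'⟩
    · -- `k` and `l` are odd, hence `v` is odd
      push Not at h1
      obtain ⟨hko, hlo⟩ := h1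
      have h3 : Even (v - 1) := by
        rcases h with h | h
        · exact absurd h hko
        · rcases Nat.even_mul.1 h with h | h
          · exact absurd h hlo
          · exact h
      have hvo : Odd v := by
        obtain ⟨c, hc⟩ := h3
        exact ⟨c, by omega⟩
      have hk3 : 3 ≤ k := by
        rcases Nat.lt_or_ge k 3 with h | h
        · have : k = 2 := by omega
          subst this
          exact absurd (by decide : Even 2) hko
        · exact h
      obtain ⟨m, hm1, hm2, hm3⟩ := exists_mid hvo
      -- the remaining number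
      obtain ⟨j, rfl⟩ : ∃ j, k = j + 3 := ⟨k - 3, by omega⟩
      have hlk : 2 * j + 3 ≤ l := by
        by_contra hcon
        have h4 : l ^ 2 ≤ (2 * j + 3) ^ 2 := Nat.pow_le_pow_left (by omega) 2
        nlinarith
      obtain ⟨n, rfl⟩ : ∃ n, l = n + (2 * j + 3) := ⟨l - (2 * j + 3), by omega⟩
      have hn : 18 * (j + 3) ^ 3 ≤ n ^ 2 := by
        by_contra hcon
        push Not at hcon
        -- (n + c)^2 ≤ (7/6) n^2 + 7 c^2
        have h5 : 6 * (n + (2 * j + 3)) ^ 2 ≤ 7 * n ^ 2 + 42 * (2 * j + 3) ^ 2 := by
          zify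
          nlinarith [sq_nonneg ((n : ℤ) - 6 * (2 * j + 3))]
        have h6 : 42 * (2 * j + 3) ^ 2 ≤ 24 * (j + 3) ^ 3 := by
          zify
          nlinarith [sq_nonneg ((j : ℤ) - 1), sq_nonneg ((j : ℤ)), Int.natCast_nonneg j,
            mul_nonneg (Int.natCast_nonneg j) (sq_nonneg ((j : ℤ) - 1))]
        omega
      have hne : Even n := by
        rw [Nat.not_even_iff_odd] at hlo
        by_contra hno
        rw [Nat.not_even_iff_odd] at hno
        have h7 : Odd (2 * j + 3) := ⟨j + 1, by ring⟩
        exact (Nat.not_odd_iff_even.2 (hno.add_odd h7)) hlo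
      have h8 : n ∈ Sgrp (j + 3) := large_mem (by omega) (Or.inr hne) hn
      obtain ⟨D, hD, hD'⟩ := complete (V := Fin v) (k := j + 3) (l := n + (2 * j + 3))
        (∑ p ∈ (Finset.univ : Finset (Fin v × Fin v)).filter (fun p => p.1 < p.2),
          {midBlock m (j + 3) p.1 p.2})
        (by
          intro B hB
          rw [Multiset.mem_sum] at hB
          obtain ⟨p, hp, hB⟩ := hB
          rw [Finset.mem_filter] at hp
          rw [Multiset.mem_singleton] at hB
          rw [hB]
          exact midBlock_isBlock m (by omega) (ne_of_lt hp.2))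
        (fun x y hxy => ⟨n, h8, by
          rw [mid_design m hm1 hm2 hm3 (j + 3) x y hxy]
          omega⟩)
      exact ⟨D, hD, hD'⟩

end Pool.Agent.Helper53.BN.Spec
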