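import Pool.Agent.Helper53.BN.Count
import Pool.Agent.Helper53.BN.CountQ

/-!
Project BN: the lower bound; all permutations of the balanced block.

`lower_bound`: `count_blocks` and `qb_le` (`Nat.card (Fin v) = v`).

`nb_sym`: the index set is `Equiv.Perm (Fin v)`, the block of `σ` is `i ↦ σ (i % v)`. It is not
constant (positions `0` and `1`, `2 ≤ v`, `2 ≤ k`). The number `cc f x y` for `x ≠ y` does not
depend on `(x, y)`: for a permutation `τ` with `τ x = x'`, `τ y = y'` the map
`σ ↦ τ * σ` (bijection of the triples) gives `cc f x y = cc f x' y'` (or: `cc_comp` with the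
injective map `τ` and reindexing). Let `l = cc f 0 1`; then `count_blocks` and `qb_bal` (`qb` of
`σ ∘ g` is `qb g`) give `l * C2 v = v ! * QQ v k`, so `0 < l` (`pairs_le`). Take `2 * l` and
`2 * v !` (`nb_mul`).
-/

set_option autoImplicit false

namespace Pool.Agent.Helper53.BN

open Pool.Agent.Helper69.WV

/-- The lower bound for the number of blocks. -/
theorem lower_bound {k l v b : ℕ} (hv : 2 ≤ v) (h : NB k l v b) : l * C2 v ≤ b * QQ v k := by
  classical
  obtain ⟨ι, hι, f, h1, h2, h3, h4⟩ := h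
  have : Fintype ι := Fintype.ofFinite ι
  have hne : Nonempty (Fin v) := ⟨⟨0, by omega⟩⟩
  rw [count_blocks f h2]
  calc ∑ b, qb (f b) ≤ ∑ _b : ι, QQ v k := by
        refine Finset.sum_le_sum fun b _ => ?_
        have h5 := qb_le (f b)
        rwa [Nat.card_eq_fintype_card, Fintype.card_fin] at h5
    _ = b * QQ v k := by
        rw [Finset.sum_const, smul_eq_mul, Finset.card_univ, ← Nat.card_eq_fintype_card, h4]

private theorem sym_perm {v : ℕ} {x y x' y' : Fin v} (h : x ≠ y) (h' : x' ≠ y') :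
    ∃ τ : Equiv.Perm (Fin v), τ x = x' ∧ τ y = y' := by
  refine ⟨Equiv.swap (Equiv.swap x x' y) y' * Equiv.swap x x', ?_, ?_⟩
  · rw [Equiv.Perm.mul_apply, Equiv.swap_apply_left]
    refine Equiv.swap_apply_of_ne_of_ne ?_ h'
    intro h2
    have h3 := congrArg (Equiv.swap x x') h2
    rw [Equiv.swap_apply_right, Equiv.swap_apply_self] at h3
    exact h h3
  · rw [Equiv.Perm.mul_apply, Equiv.swap_apply_left]

private theorem sym_cc {k v : ℕ} (g : Fin k → Fin v) (τ : Equiv.Perm (Fin v)) (x y : Fin v) :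
    cc (fun (σ : Equiv.Perm (Fin v)) (i : Fin k) => σ (g i)) (τ x) (τ y) =
      cc (fun (σ : Equiv.Perm (Fin v)) (i : Fin k) => σ (g i)) x y := by
  unfold cc
  refine (Nat.card_congr (Equiv.subtypeEquiv
    ((Equiv.mulLeft τ).prodCongr (Equiv.refl (Fin k × Fin k))) ?_)).symm
  intro p
  simp

private theorem sym_qb {k : ℕ} {V : Type} (g : Fin k → V) (σ : Equiv.Perm V) :
    qb (fun i => σ (g i)) = qb g := by
  unfold qb
  refine Nat.card_congr (Equiv.subtypeEquivRight ?_)
  intro p
  simp only [ne_eq, σ.injective.eq_iff]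

theorem nb_sym (k v : ℕ) (hk : 4 ≤ k) (hv : 2 ≤ v) :
    ∃ l b : ℕ, 0 < l ∧ Even l ∧ Even b ∧ NB k l v b ∧ b * QQ v k = l * C2 v := by
  classical
  have hv0 : 0 < v := by omega
  let g : Fin k → Fin v := fun i => ⟨i % v, Nat.mod_lt _ hv0⟩
  let f : Equiv.Perm (Fin v) → Fin k → Fin v := fun σ i => σ (g i)
  let x0 : Fin v := ⟨0, by omega⟩
  let x1 : Fin v := ⟨1, by omega⟩
  have hx : x0 ≠ x1 := by
    intro h
    have := congrArg Fin.val h
    simp [x0, x1] at this
  have h2 : ∀ x y, x ≠ y → cc f x y = cc f x0 x1 := by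
    intro x y hxy
    obtain ⟨τ, h3, h4⟩ := sym_perm hx hxy
    rw [← h3, ← h4]
    exact sym_cc g τ x0 x1
  have h1 : ∀ b, ∃ i j, f b i ≠ f b j := by
    intro b
    refine ⟨⟨0, by omega⟩, ⟨1, by omega⟩, ?_⟩
    intro h
    have h3 := congrArg Fin.val (b.injective h)
    simp only [g] at h3
    rw [Nat.zero_mod, Nat.mod_eq_of_lt (by omega : 1 < v)] at h3
    omega
  have hN : NB k (cc f x0 x1) v (Nat.card (Equiv.Perm (Fin v))) :=
    ⟨Equiv.Perm (Fin v), inferInstance, f, h1, h2, fun x y hne he => absurd he hne, rfl⟩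
  have hc : cc f x0 x1 * C2 v = Nat.card (Equiv.Perm (Fin v)) * QQ v k := by
    rw [count_blocks f h2]
    have h3 : ∀ b : Equiv.Perm (Fin v), qb (f b) = QQ v k := by
      intro b
      rw [← qb_bal (k := k) hv0]
      exact sym_qb g b
    rw [Finset.sum_congr rfl fun b _ => h3 b, Finset.sum_const, smul_eq_mul, Finset.card_univ,
      ← Nat.card_eq_fintype_card]
  have hQ := pairs_le hk hv
  have hl : 0 < cc f x0 x1 := by
    rcases Nat.eq_zero_or_pos (cc f x0 x1) with h | h
    · rw [h, zero_mul] at hc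
      have h3 : 0 < Nat.card (Equiv.Perm (Fin v)) := Nat.card_pos
      have h4 : 0 < QQ v k := by omega
      have h5 := Nat.mul_pos h3 h4
      omega
    · exact h
  refine ⟨2 * cc f x0 x1, 2 * Nat.card (Equiv.Perm (Fin v)), by omega, even_two_mul _,
    even_two_mul _, nb_mul hN 2, ?_⟩
  rw [mul_assoc, mul_assoc, hc]

end Pool.Agent.Helper53.BN
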