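import Pool.Agent.Helper53.BN.LargeL
import Pool.Agent.Helper53.BN.Closure
import Pool.Agent.Helper53.BN.Link

/-!
Project BN: all pairs `(v, l)` but finitely many, with the error `min (ε l) c` per pair of points.
-/

set_option autoImplicit false

namespace Pool.Agent.Helper53.BN

open Pool.Agent.Helper69.WV Pool.Agent.Helper52.VB

theorem c2_pos' {v : ℕ} (hv : 2 ≤ v) : 0 < C2 v := by
  unfold C2
  obtain ⟨w, rfl⟩ : ∃ w, v = w + 2 := ⟨v - 2, by omega⟩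
  rw [Nat.div_pos_iff]
  refine ⟨by norm_num, ?_⟩
  have h : w + 2 - 1 = w + 1 := by omega
  rw [h]
  nlinarith

/-- The numbers of blocks between the two ends, up to `δ` per pair of points, are attained. -/
def Full (k : ℕ) (β δ : ℝ) (v l : ℕ) : Prop :=
  ∀ b : ℕ, ((l : ℝ) + δ) * (C2 v : ℝ) ≤ (b : ℝ) * (QQ v k : ℝ) →
    (b : ℝ) ≤ (β - δ) * (C2 v : ℝ) → NB k l v b

theorem three (k : ℕ) (hk : 4 ≤ k) (β : ℕ → ℝ)
    (hβ2 : ∀ l : ℕ, 2 ≤ l → β l ≤ (l : ℝ) / ((k : ℝ) - 1))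
    (hfix : ∀ l : ℕ, 2 ≤ l → ∀ ε : ℝ, 0 < ε → ∃ v₀, ∀ v, v₀ ≤ v → Adm k l v → ∀ b : ℕ,
      (1 + ε) * ((l : ℝ) * (C2 v : ℝ) / (C2 k : ℝ)) ≤ b → (b : ℝ) ≤ (1 - ε) * (β l * (C2 v : ℝ)) →
      NB k l v b) :
    ∃ c : ℝ, 0 < c ∧ ∀ ε : ℝ, 0 < ε →
    {p : ℕ × ℕ | 2 ≤ p.1 ∧ 2 ≤ p.2 ∧ Adm k p.2 p.1 ∧
      ¬ Full k (β p.2) (min (ε * (p.2 : ℝ)) c) p.1 p.2}.Finite := by
  classical
  obtain ⟨l₀, hl₀, he, hmin⟩ := minimal_all k hk
  obtain ⟨c₀, hc₀⟩ := largeL k hk l₀ hl₀ he hmin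
  refine ⟨(c₀ : ℝ) + 1, by positivity, fun ε hε => ?_⟩
  set c : ℝ := (c₀ : ℝ) + 1 with hc
  have hcpos : 0 < c := by positivity
  have hkk : (3 : ℝ) ≤ (k : ℝ) - 1 := by
    have : (4 : ℝ) ≤ (k : ℝ) := by exact_mod_cast hk
    linarith
  obtain ⟨L, hL⟩ := exists_nat_ge (c / ε)
  have hδ : ∀ l : ℕ, 2 ≤ l → 0 < min (ε * (l : ℝ)) c / (l : ℝ) := by
    intro l hl
    have hl' : (0 : ℝ) < (l : ℝ) := by exact_mod_cast (by omega : 0 < l)
    exact div_pos (lt_min (mul_pos hε hl') hcpos) hl'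
  choose v₀ hv₀ using fun (l : ℕ) (hl : 2 ≤ l) => hfix l hl _ (hδ l hl)
  set M : ℕ := (Finset.range L).sup (fun l => if h : 2 ≤ l then max (v₀ l h) k else 0) + 1 with hM
  refine ((Set.finite_Iio M).prod (Set.finite_Iio L)).subset ?_
  rintro ⟨v, l⟩ ⟨hv, hl, hadm, hgood⟩
  simp only at hv hl hadm hgood
  rw [Set.mem_prod, Set.mem_Iio, Set.mem_Iio]
  have hQ : 0 < QQ v k := lt_of_lt_of_le (by omega) (pairs_le hk hv)
  have hQ' : (0 : ℝ) < (QQ v k : ℝ) := by exact_mod_cast hQ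
  have hC : 0 < C2 v := c2_pos' hv
  have hC' : (0 : ℝ) < (C2 v : ℝ) := by exact_mod_cast hC
  have hl' : (0 : ℝ) < (l : ℝ) := by exact_mod_cast (by omega : 0 < l)
  by_cases hlL : l < L
  · refine ⟨?_, hlL⟩
    by_contra hvM
    rw [not_lt] at hvM
    apply hgood
    have hle : (if h : 2 ≤ l then max (v₀ l h) k else 0) ≤
        (Finset.range L).sup (fun l => if h : 2 ≤ l then max (v₀ l h) k else 0) :=
      Finset.le_sup (f := fun l => if h : 2 ≤ l then max (v₀ l h) k else 0)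
        (Finset.mem_range.mpr hlL)
    rw [dif_pos hl] at hle
    have h1 : v₀ l hl ≤ v := by
      have := le_max_left (v₀ l hl) k
      omega
    have h2 : k ≤ v := by
      have := le_max_right (v₀ l hl) k
      omega
    intro b hb1 hb2
    set δ : ℝ := min (ε * (l : ℝ)) c with hδdef
    have hδ0 : 0 < δ := lt_min (mul_pos hε hl') hcpos
    rw [qq_large (by omega) h2] at hb1 hQ'
    refine hv₀ l hl v h1 hadm b ?_ ?_
    · rw [← mul_div_assoc, div_le_iff₀ hQ']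
      have h3 : (1 + δ / (l : ℝ)) * ((l : ℝ) * (C2 v : ℝ)) = ((l : ℝ) + δ) * (C2 v : ℝ) := by
        field_simp
      rw [h3]
      exact hb1
    · refine hb2.trans ?_
      rw [← mul_assoc]
      refine mul_le_mul_of_nonneg_right ?_ hC'.le
      have h4 : δ / (l : ℝ) * β l ≤ δ := by
        have h5 : δ / (l : ℝ) * β l ≤ δ / (l : ℝ) * ((l : ℝ) / ((k : ℝ) - 1)) :=
          mul_le_mul_of_nonneg_left (hβ2 l hl) (by positivity)
        have h6 : δ / (l : ℝ) * ((l : ℝ) / ((k : ℝ) - 1)) = δ / ((k : ℝ) - 1) := by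
          field_simp
        have h7 : δ / ((k : ℝ) - 1) ≤ δ := by
          rw [div_le_iff₀ (by linarith)]
          nlinarith
        linarith
      nlinarith
  · exfalso
    rw [not_lt] at hlL
    apply hgood
    intro b hb1 hb2
    have hcl : c ≤ ε * l := by
      have h1 : (L : ℝ) ≤ l := by exact_mod_cast hlL
      have h2 : c / ε ≤ l := hL.trans h1
      rw [div_le_iff₀ hε] at h2
      linarith
    rw [min_eq_right hcl] at hb1 hb2
    apply hc₀ v l b hv hadm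
    · have h3 : ((l : ℝ) + c₀) * (C2 v : ℝ) ≤ (b : ℝ) * (QQ v k : ℝ) := by
        have h4 : (c₀ : ℝ) * (C2 v : ℝ) ≤ c * (C2 v : ℝ) :=
          mul_le_mul_of_nonneg_right (by rw [hc]; linarith) hC'.le
        nlinarith
      exact_mod_cast h3
    · have h5 : (b : ℝ) ≤ ((l : ℝ) / ((k : ℝ) - 1) - c) * (C2 v : ℝ) :=
        hb2.trans (mul_le_mul_of_nonneg_right (by linarith [hβ2 l hl]) hC'.le)
      have h8 : ((k : ℝ) - 1) * b ≤
          ((k : ℝ) - 1) * (((l : ℝ) / ((k : ℝ) - 1) - c) * (C2 v : ℝ)) :=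
        mul_le_mul_of_nonneg_left h5 (by linarith)
      have h9 : ((k : ℝ) - 1) * (((l : ℝ) / ((k : ℝ) - 1) - c) * (C2 v : ℝ)) =
          (l : ℝ) * (C2 v : ℝ) - ((k : ℝ) - 1) * (c * (C2 v : ℝ)) := by
        field_simp
      have h10 : (c₀ : ℝ) * (C2 v : ℝ) ≤ ((k : ℝ) - 1) * (c * (C2 v : ℝ)) := by
        have h12 : (c₀ : ℝ) * (C2 v : ℝ) ≤ c * (C2 v : ℝ) :=
          mul_le_mul_of_nonneg_right (by rw [hc]; linarith) hC'.le
        have h13 : 0 ≤ c * (C2 v : ℝ) := by positivity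
        nlinarith
      have h11 : (((k - 1 : ℕ) : ℝ)) * b + c₀ * (C2 v : ℝ) ≤ (l : ℝ) * (C2 v : ℝ) := by
        rw [Nat.cast_sub (by omega : 1 ≤ k), Nat.cast_one]
        linarith
      exact_mod_cast h11

end Pool.Agent.Helper53.BN
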