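import Pool.Agent.Helper53.BN.Glue
import Pool.Agent.Helper53.BN.Infl

/-!
Project BN: truncated transversal designs with weights and numbers of blocks.

Compare `Helper69/WV/TruncGdd.lean` (`truncGdd`; its private lemmas have to be copied). The pieces
are indexed by the rows `R` of the orthogonal array with `m + 1` columns over `Fin t`. There are
`t ^ 2` rows (`oa_card`), `u t` of them have `f (last) < u` (bijection with pairs
`(f 0, f (last))`), they carry the design of type `w^m h^1` with `cB` blocks; the other
`t (t - u)` rows carry a design of type `w^m`: choose `i` of them, which get the design with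
`chi` blocks, the others get the one with `clo` blocks. The sum of the numbers of blocks is
`(t (t - u) - i) clo + i chi + u t cB`.
If `u = 0` the design of type `w^m h^1` is not needed.
-/

set_option autoImplicit false

namespace Pool.Agent.Helper53.BN

open Pool.Agent.Helper69.WV

section

variable {m t u w h : ℕ}

/-- The column of a point. -/
private def truncC_col (m t u w h : ℕ) :
    (Fin m × (Fin t × Fin w)) ⊕ (Fin u × Fin h) → Fin (m + 1) :=
  Sum.elim (fun p => Fin.castSucc p.1) (fun _ => Fin.last m)

/-- The symbol of a point. -/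
private def truncC_sym (hut : u ≤ t) (m w h : ℕ) :
    (Fin m × (Fin t × Fin w)) ⊕ (Fin u × Fin h) → Fin t :=
  Sum.elim (fun p => p.2.1) (fun a => Fin.castLE hut a.1)

/-- The points of the piece of a row. -/
private def truncC_W (u w h : ℕ) (f : Fin (m + 1) → Fin t) : Type :=
  (Fin m × Fin w) ⊕ {a : Fin u × Fin h // a.1.val = (f (Fin.last m)).val}

private def truncC_d (u w h : ℕ) (f : Fin (m + 1) → Fin t) :
    truncC_W u w h f → Option (Fin m) :=
  Sum.elim (fun p => some p.1) (fun _ => none)

private def truncC_e (u w h : ℕ) (f : Fin (m + 1) → Fin t) :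
    truncC_W u w h f → (Fin m × (Fin t × Fin w)) ⊕ (Fin u × Fin h) :=
  Sum.elim (fun p => Sum.inl (p.1, (f (Fin.castSucc p.1), p.2))) (fun a => Sum.inr a.1)

private theorem truncC_col_ne (x y : (Fin m × (Fin t × Fin w)) ⊕ (Fin u × Fin h))
    (hxy : (Sum.elim (fun p => some p.1) (fun _ => none) : _ → Option (Fin m)) x ≠
      (Sum.elim (fun p => some p.1) (fun _ => none) : _ → Option (Fin m)) y) :
    truncC_col m t u w h x ≠ truncC_col m t u w h y := by
  rcases x with x | x <;> rcases y with y | y
  · simp only [Sum.elim_inl, ne_eq, Option.some.injEq] at hxy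
    simpa only [truncC_col, Sum.elim_inl, ne_eq, Fin.castSucc_inj] using hxy
  · simpa [truncC_col] using (Fin.castSucc_lt_last x.1).ne
  · simpa [truncC_col] using (Fin.castSucc_lt_last y.1).ne'
  · simp at hxy

private theorem truncC_mem (hut : u ≤ t) (f : Fin (m + 1) → Fin t)
    (x : (Fin m × (Fin t × Fin w)) ⊕ (Fin u × Fin h)) :
    (∃ x', truncC_e u w h f x' = x) ↔
      f (truncC_col m t u w h x) = truncC_sym hut m w h x := by
  rcases x with x | x
  · constructor
    · rintro ⟨x' | x', hx'⟩
      · simp only [truncC_e, Sum.elim_inl, Sum.inl.injEq] at hx'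
        subst hx'
        simp [truncC_col, truncC_sym]
      · simp [truncC_e] at hx'
    · intro hf
      refine ⟨Sum.inl (x.1, x.2.2), ?_⟩
      simp only [truncC_col, truncC_sym, Sum.elim_inl] at hf
      simp [truncC_e, hf]
  · constructor
    · rintro ⟨x' | x', hx'⟩
      · simp [truncC_e] at hx'
      · simp only [truncC_e, Sum.elim_inr, Sum.inr.injEq] at hx'
        subst hx'
        apply Fin.ext
        simp only [truncC_col, truncC_sym, Sum.elim_inr, Fin.val_castLE]
        exact x'.2.symm
    · intro hf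
      refine ⟨Sum.inr ⟨x, ?_⟩, ?_⟩
      · have h2 := congrArg Fin.val hf
        simp only [truncC_col, truncC_sym, Sum.elim_inr, Fin.val_castLE] at h2
        exact h2.symm
      · simp [truncC_e]

private theorem truncC_inj (f : Fin (m + 1) → Fin t) :
    Function.Injective (truncC_e u w h f) := by
  rintro (x | x) (y | y) hxy
  · simp only [truncC_e, Sum.elim_inl, Sum.inl.injEq, Prod.mk.injEq] at hxy
    exact congrArg Sum.inl (Prod.ext hxy.1 hxy.2.2)
  · simp [truncC_e] at hxy
  · simp [truncC_e] at hxy
  · simp only [truncC_e, Sum.elim_inr, Sum.inr.injEq] at hxy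
    exact congrArg Sum.inr (Subtype.ext hxy)

private theorem truncC_group (f : Fin (m + 1) → Fin t) (x : truncC_W u w h f) :
    (Sum.elim (fun p => some p.1) (fun _ => none) :
      (Fin m × (Fin t × Fin w)) ⊕ (Fin u × Fin h) → Option (Fin m)) (truncC_e u w h f x) =
      truncC_d u w h f x := by
  rcases x with x | x <;> rfl

private theorem truncC_pieceB {k l cB : ℕ} (hD : DC k l cB (hol m w h))
    (f : Fin (m + 1) → Fin t) (hu : (f (Fin.last m)).val < u) :
    DC k l cB (truncC_d u w h f) := by
  let e0 : Fin h ≃ {a : Fin u × Fin h // a.1.val = (f (Fin.last m)).val} :=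
    { toFun := fun a => ⟨(⟨(f (Fin.last m)).val, hu⟩, a), rfl⟩
      invFun := fun a => a.1.2
      left_inv := fun a => rfl
      right_inv := fun a => Subtype.ext (Prod.ext (Fin.ext a.2.symm) rfl) }
  refine hD.congr ((Equiv.refl _).sumCongr e0 : _ ≃ truncC_W u w h f) ?_
  rintro (x | x) (y | y) <;> exact Iff.rfl

private theorem truncC_pieceR {k l c : ℕ} (hm : NR k l w m c)
    (f : Fin (m + 1) → Fin t) (hu : ¬ (f (Fin.last m)).val < u) :
    DC k l c (truncC_d u w h f) := by
  have : IsEmpty {a : Fin u × Fin h // a.1.val = (f (Fin.last m)).val} :=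
    ⟨fun a => hu (a.2 ▸ a.1.1.2)⟩
  refine DC.congr (γ := (Prod.fst : Fin m × Fin w → Fin m)) hm
    ((Equiv.sumEmpty (Fin m × Fin w)
      {a : Fin u × Fin h // a.1.val = (f (Fin.last m)).val}).symm : _ ≃ truncC_W u w h f) ?_
  intro x y
  exact (Option.some_inj (a := x.1) (b := y.1)).symm

/-- The number of the rows with a given condition on the last entry. -/
private theorem truncC_card (hm : 2 ≤ m) (R : Set (Fin (m + 1) → Fin t))
    (hR : ∀ i j, i ≠ j → ∀ a b, ∃! f, f ∈ R ∧ f i = a ∧ f j = b)
    [Fintype {f // f ∈ R}] (P : Fin t → Prop) [DecidablePred P] :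
    (Finset.univ.filter fun b : {f // f ∈ R} => P (b.1 (Fin.last m))).card =
      t * (Finset.univ.filter P).card := by
  classical
  have h0 : (0 : Fin (m + 1)) ≠ Fin.last m := by
    intro h1
    have h2 := congrArg Fin.val h1
    simp at h2
    omega
  have h1 : (Finset.univ.filter fun b : {f // f ∈ R} => P (b.1 (Fin.last m))).card =
      ((Finset.univ : Finset (Fin t)) ×ˢ (Finset.univ.filter P)).card := by
    refine Finset.card_bij (fun b _ => (b.1 0, b.1 (Fin.last m))) ?_ ?_ ?_
    · intro b hb
      simpa using hb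
    · intro b hb b' hb' hbb
      obtain ⟨f, -, hu⟩ := hR _ _ h0 (b'.1 0) (b'.1 (Fin.last m))
      simp only [Prod.mk.injEq] at hbb
      apply Subtype.ext
      rw [hu b.1 ⟨b.2, hbb.1, hbb.2⟩, hu b'.1 ⟨b'.2, rfl, rfl⟩]
    · rintro ⟨a, c⟩ hac
      obtain ⟨f, ⟨hf, h1, h2⟩, -⟩ := hR _ _ h0 a c
      refine ⟨⟨f, hf⟩, ?_, ?_⟩
      · simpa [h2] using hac
      · simp [h1, h2]
  rw [h1, Finset.card_product]
  simp

end

theorem truncC {k l m t u w h cB clo chi i : ℕ} (hm : 2 ≤ m) (hut : u ≤ t)
    (hT : TD (m + 1) t) (hlo : NR k l w m clo) (hhi : NR k l w m chi)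
    (hB : u = 0 ∨ DC k l cB (hol m w h)) (hi : i ≤ t * (t - u)) :
    DC k l ((t * (t - u) - i) * clo + i * chi + u * t * cB)
      (Sum.elim (fun p => some p.1) (fun _ => none) :
        (Fin m × (Fin t × Fin w)) ⊕ (Fin u × Fin h) → Option (Fin m)) := by
  classical
  obtain ⟨R, hR⟩ := hT
  have hfin : Fintype {f // f ∈ R} := Fintype.ofFinite _
  have hcu : (Finset.univ.filter fun a : Fin t => a.val < u).card = u := by
    have h1 : (Finset.univ.filter fun a : Fin t => a.val < u) =
        Finset.univ.map (Fin.castLEEmb hut) := by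
      ext a
      simp only [Finset.mem_filter, Finset.mem_univ, true_and, Finset.mem_map]
      constructor
      · intro ha
        exact ⟨⟨a.val, ha⟩, Fin.ext rfl⟩
      · rintro ⟨b, rfl⟩
        exact b.2
    rw [h1, Finset.card_map]
    simp
  have hcn : (Finset.univ.filter fun a : Fin t => ¬ a.val < u).card = t - u := by
    have h1 := Finset.card_filter_add_card_filter_not (s := (Finset.univ : Finset (Fin t)))
      (fun a : Fin t => a.val < u)
    rw [hcu, Finset.card_univ, Fintype.card_fin] at h1
    omega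
  have hc1 := truncC_card hm R hR fun a : Fin t => a.val < u
  have hc2 := truncC_card hm R hR fun a : Fin t => ¬ a.val < u
  rw [hcu] at hc1
  rw [hcn] at hc2
  obtain ⟨S, hS, hSc⟩ := Finset.exists_subset_card_eq (hi.trans hc2.ge)
  let c : {f // f ∈ R} → ℕ := fun b =>
    if (b.1 (Fin.last m)).val < u then cB else if b ∈ S then chi else clo
  have hsum : ∑ b, c b = (t * (t - u) - i) * clo + i * chi + u * t * cB := by
    have h1 := Finset.sum_filter_add_sum_filter_not (Finset.univ : Finset {f // f ∈ R})
      (fun b => (b.1 (Fin.last m)).val < u) c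
    have h2 : ∑ b ∈ Finset.univ.filter fun b : {f // f ∈ R} => (b.1 (Fin.last m)).val < u, c b =
        u * t * cB := by
      rw [Finset.sum_congr rfl (g := fun _ => cB), Finset.sum_const, hc1, smul_eq_mul,
        mul_comm t u]
      intro b hb
      exact if_pos (Finset.mem_filter.1 hb).2
    have h3 : ∑ b ∈ Finset.univ.filter fun b : {f // f ∈ R} => ¬ (b.1 (Fin.last m)).val < u,
        c b = (t * (t - u) - i) * clo + i * chi := by
      rw [Finset.sum_congr rfl (g := fun b => if b ∈ S then chi else clo)]
      · rw [← Finset.sum_sdiff hS]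
        rw [Finset.sum_congr rfl (g := fun _ => clo)]
        · rw [Finset.sum_congr (s₁ := S) rfl (g := fun _ => chi)]
          · rw [Finset.sum_const, Finset.sum_const, Finset.card_sdiff_of_subset hS, hc2, hSc,
              smul_eq_mul, smul_eq_mul]
          · intro b hb
            exact if_pos hb
        · intro b hb
          exact if_neg (Finset.mem_sdiff.1 hb).2
      · intro b hb
        exact if_neg (Finset.mem_filter.1 hb).2
    rw [← h1, h2, h3, add_comm]
  refine DC.cast (glueC (fun f : {f // f ∈ R} => truncC_d u w h f.1)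
    (fun f => truncC_e u w h f.1) c (fun f => truncC_inj f.1) ?_ ?_ ?_) hsum
  · intro f
    by_cases hu : (f.1 (Fin.last m)).val < u
    · have h1 : c f = cB := if_pos hu
      rw [h1]
      rcases hB with hB | hB
      · omega
      · exact truncC_pieceB hB f.1 hu
    · have h1 : c f = if f ∈ S then chi else clo := if_neg hu
      rw [h1]
      by_cases hfS : f ∈ S
      · rw [if_pos hfS]
        exact truncC_pieceR hhi f.1 hu
      · rw [if_neg hfS]
        exact truncC_pieceR hlo f.1 hu
  · intro x y hxy
    obtain ⟨f, ⟨hf, hfx, hfy⟩, huniq⟩ := hR _ _ (truncC_col_ne x y hxy)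
      (truncC_sym hut m w h x) (truncC_sym hut m w h y)
    obtain ⟨x', hx'⟩ := (truncC_mem hut f x).2 hfx
    obtain ⟨y', hy'⟩ := (truncC_mem hut f y).2 hfy
    refine ⟨⟨f, hf⟩, ⟨x', y', hx', hy', ?_⟩, ?_⟩
    · intro h2
      apply hxy
      rw [← hx', ← hy', truncC_group, truncC_group]
      exact h2
    · rintro ⟨g, hg⟩ ⟨x1, y1, hx1, hy1, -⟩
      apply Subtype.ext
      exact huniq g ⟨hg, (truncC_mem hut g x).1 ⟨x1, hx1⟩, (truncC_mem hut g y).1 ⟨y1, hy1⟩⟩
  · intro f x' y' hne
    rw [truncC_group, truncC_group]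
    exact hne

end Pool.Agent.Helper53.BN
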