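import Pool.Agent.Helper53.BN.LargeL
import Pool.Agent.Helper53.BN.Closure
import Pool.Agent.Helper53.BN.Link

/-!
Project BN: all pairs `(v, l)` but finitely many.

Proof of `two`: let `c₀` be from `largeL` and `minimal_all`, `L` so large that
`ε L ≥ c₀` . For every `l` with `2 ≤ l < L` let `v₀ l` be the number of `hfix` for `ε` and
`v₀ l ≥ k`. The set is contained in `{(v, l) | l < L, v < max of the v₀ l}`: if `l < L` and
`v₀ l ≤ v` then the first part of `Good` is `hfix` (`qq_large`). If `L ≤ l`: if `1 < ε` then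
`b ≤ 0` by `0 ≤ β l`, so `b = 0`, but `(1 + ε) l C2 v / Q > 0`, a contradiction; if `ε ≤ 1` then
`b ≤ (1 - ε) (β l C2 v) ≤ (1 - ε) (l / (k - 1)) C2 v`, and `largeL` applies since
`c₀ ≤ ε L ≤ ε l`. The second part of `Good` is `nb_link` with `lower_bound` and the hypothesis
`hup`. `0 < QQ v k` by `pairs_le`.
-/

set_option autoImplicit false

namespace Pool.Agent.Helper53.BN

open Pool.Agent.Helper69.WV Pool.Agent.Helper52.VB

/-- The numbers of blocks of the `VB(v,k,l)` designs are known up to the factors `1 ± ε`. -/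
def Good (k : ℕ) (β : ℝ) (ε : ℝ) (v l : ℕ) : Prop :=
  (∀ b : ℕ, (1 + ε) * ((l : ℝ) * (C2 v : ℝ) / (QQ v k : ℝ)) ≤ b →
    (b : ℝ) ≤ (1 - ε) * (β * (C2 v : ℝ)) →
    ∃ D : Multiset (Multiset (Fin v)), IsVB v k l D ∧ D.card = b) ∧
  (∀ D : Multiset (Multiset (Fin v)), IsVB v k l D →
    (l : ℝ) * (C2 v : ℝ) / (QQ v k : ℝ) ≤ (D.card : ℝ) ∧ (D.card : ℝ) ≤ β * (C2 v : ℝ))

private theorem c2_pos {v : ℕ} (hv : 2 ≤ v) : 0 < C2 v := by
  unfold C2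
  obtain ⟨w, rfl⟩ : ∃ w, v = w + 2 := ⟨v - 2, by omega⟩
  rw [Nat.div_pos_iff]
  refine ⟨by norm_num, ?_⟩
  have h : w + 2 - 1 = w + 1 := by omega
  rw [h]
  nlinarith

/-- The first part of `Good` is a consequence of `NB`. -/
private theorem good_of {k : ℕ} (hk : 4 ≤ k) {β : ℕ → ℝ}
    (hup : ∀ l v b : ℕ, 2 ≤ l → 2 ≤ v → NB k l v b → (b : ℝ) ≤ β l * (C2 v : ℝ))
    {ε : ℝ} {v l : ℕ} (hv : 2 ≤ v) (hl : 2 ≤ l)
    (h : ∀ b : ℕ, (1 + ε) * ((l : ℝ) * (C2 v : ℝ) / (QQ v k : ℝ)) ≤ b →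
      (b : ℝ) ≤ (1 - ε) * (β l * (C2 v : ℝ)) → NB k l v b) : Good k (β l) ε v l := by
  refine ⟨fun b h1 h2 => link_nb (h b h1 h2), ?_⟩
  intro D hD
  have hnb := nb_link (by omega : 0 < k) hD
  refine ⟨?_, hup l v _ hl hv hnb⟩
  have hlow := lower_bound hv hnb
  have hQ : 0 < QQ v k := lt_of_lt_of_le (by omega) (pairs_le hk hv)
  have hQ' : (0 : ℝ) < (QQ v k : ℝ) := by exact_mod_cast hQ
  rw [div_le_iff₀ hQ']
  exact_mod_cast hlow

theorem two (k : ℕ) (hk : 4 ≤ k) (β : ℕ → ℝ) (hβ0 : ∀ l, 0 ≤ β l)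
    (hβ2 : ∀ l : ℕ, 2 ≤ l → β l ≤ (l : ℝ) / ((k : ℝ) - 1))
    (hfix : ∀ l : ℕ, 2 ≤ l → ∀ ε : ℝ, 0 < ε → ∃ v₀, ∀ v, v₀ ≤ v → Adm k l v → ∀ b : ℕ,
      (1 + ε) * ((l : ℝ) * (C2 v : ℝ) / (C2 k : ℝ)) ≤ b → (b : ℝ) ≤ (1 - ε) * (β l * (C2 v : ℝ)) →
      NB k l v b)
    (hup : ∀ l v b : ℕ, 2 ≤ l → 2 ≤ v → NB k l v b → (b : ℝ) ≤ β l * (C2 v : ℝ))
    (ε : ℝ) (hε : 0 < ε) :
    {p : ℕ × ℕ | 2 ≤ p.1 ∧ 2 ≤ p.2 ∧ Adm k p.2 p.1 ∧ ¬ Good k (β p.2) ε p.1 p.2}.Finite := by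
  classical
  obtain ⟨l₀, hl₀, he, hmin⟩ := minimal_all k hk
  obtain ⟨c₀, hc₀⟩ := largeL k hk l₀ hl₀ he hmin
  obtain ⟨L, hL⟩ := exists_nat_ge ((c₀ : ℝ) / ε)
  choose v₀ hv₀ using fun (l : ℕ) (hl : 2 ≤ l) => hfix l hl ε hε
  set M : ℕ := (Finset.range L).sup (fun l => if h : 2 ≤ l then max (v₀ l h) k else 0) + 1 with hM
  refine ((Set.finite_Iio M).prod (Set.finite_Iio L)).subset ?_
  rintro ⟨v, l⟩ ⟨hv, hl, hadm, hgood⟩
  simp only at hv hl hadm hgood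
  rw [Set.mem_prod, Set.mem_Iio, Set.mem_Iio]
  have hQ : 0 < QQ v k := lt_of_lt_of_le (by omega) (pairs_le hk hv)
  have hQ' : (0 : ℝ) < (QQ v k : ℝ) := by exact_mod_cast hQ
  have hC : 0 < C2 v := c2_pos hv
  have hC' : (0 : ℝ) < (C2 v : ℝ) := by exact_mod_cast hC
  have hl' : (0 : ℝ) < (l : ℝ) := by exact_mod_cast (by omega : 0 < l)
  by_cases hlL : l < L
  · refine ⟨?_, hlL⟩
    by_contra hvM
    rw [not_lt] at hvM
    apply hgood
    have hle : (if h : 2 ≤ l then max (v₀ l h) k else 0) ≤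
        (Finset.range L).sup (fun l => if h : 2 ≤ l then max (v₀ l h) k else 0) :=
      Finset.le_sup (f := fun l => if h : 2 ≤ l then max (v₀ l h) k else 0)
        (Finset.mem_range.mpr hlL)
    rw [dif_pos hl] at hle
    have h1 : v₀ l hl ≤ v := by
      have := le_max_left (v₀ l hl) k
      omega
    have h2 : k ≤ v := by
      have := le_max_right (v₀ l hl) k
      omega
    apply good_of hk hup hv hl
    intro b hb1 hb2
    rw [qq_large (by omega) h2] at hb1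
    exact hv₀ l hl v h1 hadm b hb1 hb2
  · exfalso
    rw [not_lt] at hlL
    apply hgood
    apply good_of hk hup hv hl
    intro b hb1 hb2
    have hcl : (c₀ : ℝ) ≤ ε * l := by
      have h1 : (L : ℝ) ≤ l := by exact_mod_cast hlL
      have h2 : (c₀ : ℝ) / ε ≤ l := hL.trans h1
      rw [div_le_iff₀ hε] at h2
      linarith
    have hb1' : (1 + ε) * ((l : ℝ) * (C2 v : ℝ)) ≤ (b : ℝ) * (QQ v k : ℝ) := by
      rw [← mul_div_assoc, div_le_iff₀ hQ'] at hb1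
      exact hb1
    have hkk : (0 : ℝ) < (k : ℝ) - 1 := by
      have : (4 : ℝ) ≤ (k : ℝ) := by exact_mod_cast hk
      linarith
    apply hc₀ v l b hv hadm
    · have h3 : ((l : ℝ) + c₀) * (C2 v : ℝ) ≤ (b : ℝ) * (QQ v k : ℝ) := by
        have h4 : (c₀ : ℝ) * (C2 v : ℝ) ≤ ε * l * (C2 v : ℝ) :=
          mul_le_mul_of_nonneg_right hcl hC'.le
        nlinarith
      exact_mod_cast h3
    · have hpos : (0 : ℝ) < (1 + ε) * ((l : ℝ) * (C2 v : ℝ) / (QQ v k : ℝ)) := by positivity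
      have hbpos : (0 : ℝ) < (b : ℝ) := lt_of_lt_of_le hpos hb1
      have hβC : 0 ≤ β l * (C2 v : ℝ) := mul_nonneg (hβ0 l) hC'.le
      have hε1 : 0 < 1 - ε := by
        by_contra hcon
        rw [not_lt] at hcon
        have : (1 - ε) * (β l * (C2 v : ℝ)) ≤ 0 := mul_nonpos_of_nonpos_of_nonneg hcon hβC
        linarith
      have h5 : β l * (C2 v : ℝ) ≤ (l : ℝ) / ((k : ℝ) - 1) * (C2 v : ℝ) :=
        mul_le_mul_of_nonneg_right (hβ2 l hl) hC'.le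
      have h6 : (b : ℝ) ≤ (1 - ε) * ((l : ℝ) / ((k : ℝ) - 1) * (C2 v : ℝ)) :=
        hb2.trans (mul_le_mul_of_nonneg_left h5 hε1.le)
      have h7 : ((k : ℝ) - 1) * b ≤ (1 - ε) * ((l : ℝ) * (C2 v : ℝ)) := by
        have h8 : ((k : ℝ) - 1) * b ≤
            ((k : ℝ) - 1) * ((1 - ε) * ((l : ℝ) / ((k : ℝ) - 1) * (C2 v : ℝ))) :=
          mul_le_mul_of_nonneg_left h6 hkk.le
        have h9 : ((k : ℝ) - 1) * ((1 - ε) * ((l : ℝ) / ((k : ℝ) - 1) * (C2 v : ℝ))) =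
            (1 - ε) * ((l : ℝ) * (C2 v : ℝ)) := by
          field_simp
        linarith
      have h10 : (c₀ : ℝ) * (C2 v : ℝ) ≤ ε * l * (C2 v : ℝ) :=
        mul_le_mul_of_nonneg_right hcl hC'.le
      have h11 : (((k - 1 : ℕ) : ℝ)) * b + c₀ * (C2 v : ℝ) ≤ (l : ℝ) * (C2 v : ℝ) := by
        rw [Nat.cast_sub (by omega : 1 ≤ k), Nat.cast_one]
        nlinarith
      exact_mod_cast h11

end Pool.Agent.Helper53.BN
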